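import Pool.Agent.Fiv.Defs

/-!
# Fiv GEO: the convex polygon and its chords
-/

set_option autoImplicit false

namespace Fiv

open Finset

variable {n : ℕ} {v : Fin n → ℝ × ℝ}

-- BEGIN ev_pos
/-- G1. Signs of a chord at the vertices (`lf_cyc`, `lf_anti`): `e = (a, b)`, `a < b`, oriented `a → b`: positive at `k < a` and `k > b`, negative for `a < k < b`. -/
theorem ev_pos (hv : Ccw v) (a b k : Fin n) (hab : a < b) :
    (k < a ∨ b < k → 0 < ev (lf (v a) (v b)) (v k)) ∧ (a < k → k < b → ev (lf (v a) (v b)) (v k) < 0) := by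
  constructor
  · rintro (h | h)
    · have h1 := hv k a b h hab
      rwa [lf_cyc] at h1
    · exact hv a b k hab h
  · intro h1 h2
    have h3 := hv a k b h1 h2
    rw [lf_cyc, lf_cyc, lf_anti] at h3
    linarith
-- END ev_pos

-- BEGIN ev_ne
/-- G2. `ev_pos`; if `ln v e` is the reversed line: `lf_anti`. -/
theorem ev_ne (hv : Ccw v) (e : Fin n × Fin n) (he : e ∈ Ed n) (k : Fin n) (h1 : k ≠ e.1) (h2 : k ≠ e.2) : ev (ln v e) (v k) ≠ 0 := by
  have he' := mem_Ed.1 he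
  have h3 := ev_pos hv e.1 e.2 k he'
  have h4 : ev (lf (v e.1) (v e.2)) (v k) ≠ 0 := by
    rcases lt_or_gt_of_ne h1 with h | h
    · exact (h3.1 (Or.inl h)).ne'
    · rcases lt_or_gt_of_ne h2 with h' | h'
      · exact (h3.2 h h').ne
      · exact (h3.1 (Or.inr h')).ne'
  unfold ln
  split_ifs
  · rw [lf_anti]
    exact neg_ne_zero.2 h4
  · exact h4
-- END ev_ne

-- BEGIN hull_pos
/-- G3. `e = (i, i + 1)` is not reversed (`n ≥ 3`), `k < i` or `k > i + 1`: `ev_pos`. `e = (0, n - 1)`: reversed, `0 < k < n - 1`: `ev_pos`, `lf_anti`. -/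
theorem hull_pos (hn : 3 ≤ n) (hv : Ccw v) (e : Fin n × Fin n) (he : e ∈ Hu n) (k : Fin n) (h1 : k ≠ e.1) (h2 : k ≠ e.2) : 0 < ev (ln v e) (v k) := by
  obtain ⟨he1, he2⟩ := mem_Hu.1 he
  have h3 := ev_pos hv e.1 e.2 k he1
  have h1' : k.val ≠ e.1.val := fun h => h1 (Fin.ext h)
  have h2' : k.val ≠ e.2.val := fun h => h2 (Fin.ext h)
  have hk := k.isLt
  unfold ln
  split_ifs with h
  · rw [lf_anti]
    have h4 := h3.2 (Fin.lt_def.2 (by omega)) (Fin.lt_def.2 (by omega))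
    linarith
  · apply h3.1
    rw [Fin.lt_def, Fin.lt_def]
    omega
-- END hull_pos

-- BEGIN hull_nonneg
/-- G4. `hull_pos`, `ln_fst`, `ln_snd`. -/
theorem hull_nonneg (hn : 3 ≤ n) (hv : Ccw v) (e : Fin n × Fin n) (he : e ∈ Hu n) (k : Fin n) : 0 ≤ ev (ln v e) (v k) := by
  by_cases h1 : k = e.1
  · rw [h1, ln_fst]
  · by_cases h2 : k = e.2
    · rw [h2, ln_snd]
    · exact (hull_pos hn hv e he k h1 h2).le
-- END hull_nonneg

-- BEGIN hull_side
private theorem hull_side_lf (hv : Ccw v) (a b k : Fin n) (hab : a < b) :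
    (k.val ≤ a.val ∨ b.val ≤ k.val → 0 ≤ ev (lf (v a) (v b)) (v k)) ∧ (a.val ≤ k.val → k.val ≤ b.val → ev (lf (v a) (v b)) (v k) ≤ 0) := by
  have h := ev_pos hv a b k hab
  have hab' : a.val < b.val := hab
  rcases lt_trichotomy k.val a.val with h1 | h1 | h1
  · exact ⟨fun _ => (h.1 (Or.inl (Fin.lt_def.2 h1))).le, fun h2 _ => by omega⟩
  · have h2 : k = a := Fin.ext h1
    subst h2
    rw [lf_left]
    exact ⟨fun _ => le_refl _, fun _ _ => le_refl _⟩
  · rcases lt_trichotomy k.val b.val with h3 | h3 | h3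
    · exact ⟨fun h4 => by omega, fun _ _ => (h.2 (Fin.lt_def.2 h1) (Fin.lt_def.2 h3)).le⟩
    · have h2 : k = b := Fin.ext h3
      subst h2
      rw [lf_right]
      exact ⟨fun _ => le_refl _, fun _ _ => le_refl _⟩
    · exact ⟨fun _ => (h.1 (Or.inr (Fin.lt_def.2 h3))).le, fun _ h2 => by omega⟩

/-- G5. A side `e` of the polygon is on one side of every other chord `e' = (a, b)`: the vertices `e.1`, `e.2` are both in `[a, b]` or both outside `(a, b)`, not both in `{a, b}`. -/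
theorem hull_side (hn : 3 ≤ n) (hv : Ccw v) (e e' : Fin n × Fin n) (he : e ∈ Hu n) (he' : e' ∈ Ed n) (hne : e' ≠ e) :
    (0 ≤ ev (ln v e') (v e.1) ∧ 0 ≤ ev (ln v e') (v e.2) ∧ 0 < ev (ln v e') (v e.1) + ev (ln v e') (v e.2)) ∨
      (ev (ln v e') (v e.1) ≤ 0 ∧ ev (ln v e') (v e.2) ≤ 0 ∧ ev (ln v e') (v e.1) + ev (ln v e') (v e.2) < 0) := by
  obtain ⟨he1, he2⟩ := mem_Hu.1 he
  have he1' : e.1.val < e.2.val := he1
  have he3 := mem_Ed.1 he'
  have he3' : e'.1.val < e'.2.val := he3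
  -- not both on the line
  have hnz : ev (ln v e') (v e.1) ≠ 0 ∨ ev (ln v e') (v e.2) ≠ 0 := by
    by_contra hcon
    push Not at hcon
    have h1 : e.1 = e'.1 ∨ e.1 = e'.2 := by
      by_contra hc
      push Not at hc
      exact ev_ne hv e' he' e.1 hc.1 hc.2 hcon.1
    have h2 : e.2 = e'.1 ∨ e.2 = e'.2 := by
      by_contra hc
      push Not at hc
      exact ev_ne hv e' he' e.2 hc.1 hc.2 hcon.2
    apply hne
    rcases h1 with h1 | h1 <;> rcases h2 with h2 | h2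
    · rw [h1, h2] at he1
      exact absurd he1 (lt_irrefl _)
    · exact Prod.ext h1.symm h2.symm
    · rw [h1, h2] at he1
      exact absurd (he1.trans he3) (lt_irrefl _)
    · rw [h1, h2] at he1
      exact absurd he1 (lt_irrefl _)
  -- same sign
  have hsame : (0 ≤ ev (ln v e') (v e.1) ∧ 0 ≤ ev (ln v e') (v e.2)) ∨ (ev (ln v e') (v e.1) ≤ 0 ∧ ev (ln v e') (v e.2) ≤ 0) := by
    have h1 := hull_side_lf hv e'.1 e'.2 e.1 he3
    have h2 := hull_side_lf hv e'.1 e'.2 e.2 he3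
    have hl1 := e.1.isLt
    have hl2 := e.2.isLt
    have hl3 := e'.2.isLt
    by_cases hin : e'.1.val ≤ e.1.val ∧ e.2.val ≤ e'.2.val
    · have h3 := h1.2 hin.1 (by omega)
      have h4 := h2.2 (by omega) hin.2
      unfold ln
      split_ifs
      · left
        rw [lf_anti, lf_anti (v e'.1) (v e'.2) (v e.2)]
        constructor <;> linarith
      · right
        exact ⟨h3, h4⟩
    · have h3 := h1.1 (by omega)
      have h4 := h2.1 (by omega)
      unfold ln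
      split_ifs
      · right
        rw [lf_anti, lf_anti (v e'.1) (v e'.2) (v e.2)]
        constructor <;> linarith
      · left
        exact ⟨h3, h4⟩
  rcases hsame with ⟨h1, h2⟩ | ⟨h1, h2⟩
  · left
    refine ⟨h1, h2, ?_⟩
    rcases hnz with h | h
    · exact add_pos_of_pos_of_nonneg (lt_of_le_of_ne h1 (Ne.symm h)) h2
    · exact add_pos_of_nonneg_of_pos h1 (lt_of_le_of_ne h2 (Ne.symm h))
  · right
    refine ⟨h1, h2, ?_⟩
    rcases hnz with h | h
    · exact add_neg_of_neg_of_nonpos (lt_of_le_of_ne h1 h) h2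
    · exact add_neg_of_nonpos_of_neg h1 (lt_of_le_of_ne h2 h)
-- END hull_side

-- BEGIN bd_hull
theorem bd_hull_lin (a b d : ℝ × ℝ) : lin (lf a b) d = (b.1 * d.2 - b.2 * d.1) - (a.1 * d.2 - a.2 * d.1) := by
  simp only [lin, lf]
  ring

/-- G6. `lin (lf a b) d = (b - a) × d`-ish is additive, so `∑_(e ∈ Hu n) lin (ln v e) d = 0` (telescoping round the polygon; for the sum use the bijection of `Hu n` with `range (n - 1)` and the last side, or avoid it: let `k` be a vertex with maximal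
`φ k = d.1 * (v k).2 - d.2 * (v k).1` if some side has `lin ≠ 0`). If no side is negative all are `0`, in particular `(0,1)` and `(1,2)`, which are transversal (`hv 0 1 2`), so `d = 0`. -/
theorem bd_hull (hn : 3 ≤ n) (hv : Ccw v) (d : ℝ × ℝ) (hd : d ≠ 0) : ∃ e ∈ Hu n, lin (ln v e) d < 0 := by
  by_contra hcon
  push Not at hcon
  apply hd
  let φ : Fin n → ℝ := fun k => (v k).1 * d.2 - (v k).2 * d.1
  have hn1 : n - 1 < n := by omega
  let f : ℕ → ℝ := fun i => if h : i < n then φ ⟨i, h⟩ else φ ⟨n - 1, hn1⟩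
  have hf : ∀ i (h : i < n), f i = φ ⟨i, h⟩ := fun i h => dif_pos h
  have hstep : ∀ i, f i ≤ f (i + 1) := by
    intro i
    by_cases h1 : i + 1 < n
    · have h0 : i < n := by omega
      rw [hf i h0, hf (i + 1) h1]
      have hmem : ((⟨i, h0⟩, ⟨i + 1, h1⟩) : Fin n × Fin n) ∈ Hu n := by
        rw [mem_Hu]
        exact ⟨Fin.mk_lt_mk.mpr (Nat.lt_succ_self i), Or.inl rfl⟩
      have h2 := hcon _ hmem
      have h3 : ln v ((⟨i, h0⟩, ⟨i + 1, h1⟩) : Fin n × Fin n) = lf (v ⟨i, h0⟩) (v ⟨i + 1, h1⟩) := by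
        unfold ln
        rw [if_neg]
        rintro ⟨h4, h5⟩
        simp only at h4 h5
        omega
      rw [h3, bd_hull_lin] at h2
      exact sub_nonneg.mp h2
    · by_cases h0 : i < n
      · have h2 : i = n - 1 := by omega
        have h3 : f (i + 1) = φ ⟨n - 1, hn1⟩ := dif_neg h1
        rw [hf i h0, h3]
        subst h2
        exact le_rfl
      · have h3 : f (i + 1) = φ ⟨n - 1, hn1⟩ := dif_neg h1
        have h4 : f i = φ ⟨n - 1, hn1⟩ := dif_neg h0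
        rw [h3, h4]
  have hmono : Monotone f := monotone_nat_of_le_succ hstep
  have h0 : 0 < n := by omega
  have hlast : f (n - 1) ≤ f 0 := by
    rw [hf (n - 1) hn1, hf 0 h0]
    have hmem : ((⟨0, h0⟩, ⟨n - 1, hn1⟩) : Fin n × Fin n) ∈ Hu n := by
      rw [mem_Hu]
      refine ⟨Fin.mk_lt_mk.mpr (by omega), Or.inr ⟨rfl, ?_⟩⟩
      simp only
      omega
    have h2 := hcon _ hmem
    have h3 : ln v ((⟨0, h0⟩, ⟨n - 1, hn1⟩) : Fin n × Fin n) = lf (v ⟨n - 1, hn1⟩) (v ⟨0, h0⟩) := by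
      unfold ln
      rw [if_pos]
      refine ⟨rfl, ?_⟩
      simp only
      omega
    rw [h3, bd_hull_lin] at h2
    exact sub_nonneg.mp h2
  have h01 : f 1 = f 0 := le_antisymm ((hmono (show 1 ≤ n - 1 by omega)).trans hlast) (hmono (by omega))
  have h02 : f 2 = f 0 := le_antisymm ((hmono (show 2 ≤ n - 1 by omega)).trans hlast) (hmono (by omega))
  have l1 : 1 < n := by omega
  have l2 : 2 < n := by omega
  rw [hf 1 l1, hf 0 h0] at h01
  rw [hf 2 l2, hf 0 h0] at h02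
  have hpos := hv ⟨0, h0⟩ ⟨1, l1⟩ ⟨2, l2⟩ (Fin.mk_lt_mk.mpr (by omega)) (Fin.mk_lt_mk.mpr (by omega))
  simp only [φ] at h01 h02
  simp only [ev, lf] at hpos
  generalize v ⟨0, h0⟩ = a at *
  generalize v ⟨1, l1⟩ = b at *
  generalize v ⟨2, l2⟩ = c at *
  have hD : (a.2 - b.2) * c.1 + (b.1 - a.1) * c.2 + ((b.2 - a.2) * a.1 - (b.1 - a.1) * a.2) ≠ 0 := hpos.ne'
  have e1 : ((a.2 - b.2) * c.1 + (b.1 - a.1) * c.2 + ((b.2 - a.2) * a.1 - (b.1 - a.1) * a.2)) * d.1 = 0 := by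
    linear_combination (c.1 - a.1) * h01 - (b.1 - a.1) * h02
  have e2 : ((a.2 - b.2) * c.1 + (b.1 - a.1) * c.2 + ((b.2 - a.2) * a.1 - (b.1 - a.1) * a.2)) * d.2 = 0 := by
    linear_combination (c.2 - a.2) * h01 - (b.2 - a.2) * h02
  exact Prod.ext ((mul_eq_zero.mp e1).resolve_left hD) ((mul_eq_zero.mp e2).resolve_left hD)
-- END bd_hull

-- BEGIN nz_ed
private theorem nz_ed_third (hn : 3 ≤ n) (a b : Fin n) : ∃ k : Fin n, k ≠ a ∧ k ≠ b := by
  by_cases h0 : a.val ≠ 0 ∧ b.val ≠ 0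
  · exact ⟨⟨0, by omega⟩, fun h => h0.1 (by rw [← h]), fun h => h0.2 (by rw [← h])⟩
  · by_cases h1 : a.val ≠ 1 ∧ b.val ≠ 1
    · exact ⟨⟨1, by omega⟩, fun h => h1.1 (by rw [← h]), fun h => h1.2 (by rw [← h])⟩
    · have h2 : a.val ≠ 2 ∧ b.val ≠ 2 := by omega
      exact ⟨⟨2, by omega⟩, fun h => h2.1 (by rw [← h]), fun h => h2.2 (by rw [← h])⟩

/-- G7. A third vertex `k` (`n ≥ 3`): `lin (ln v e) (v k - v e.1) = ev (ln v e) (v k) ≠ 0` (`ev_ne`, `lin_sub`, `ln_fst`). -/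
theorem nz_ed (hn : 3 ≤ n) (hv : Ccw v) (e : Fin n × Fin n) (he : e ∈ Ed n) : ∃ d, lin (ln v e) d ≠ 0 := by
  obtain ⟨k, h1, h2⟩ := nz_ed_third hn e.1 e.2
  refine ⟨v k - v e.1, ?_⟩
  rw [lin_sub, ln_fst, sub_zero]
  exact ev_ne hv e he k h1 h2
-- END nz_ed

-- BEGIN cr_ed
/-- G8. If `d ≠ 0` the two lines are equal (`par`: every point of `e'` is `x + t • d`), so the vertices `e'.1`, `e'.2` are on the line `e`; one of them is not `e.1`, `e.2`: `ev_ne`. -/
theorem cr_ed (hn : 3 ≤ n) (hv : Ccw v) (e : Fin n × Fin n) (he : e ∈ Ed n) (e' : Fin n × Fin n) (he' : e' ∈ Ed n) (hne : e ≠ e') (x : ℝ × ℝ)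
    (h1 : ev (ln v e) x = 0) (h2 : ev (ln v e') x = 0) (d : ℝ × ℝ) (h3 : lin (ln v e) d = 0) (h4 : lin (ln v e') d = 0) : d = 0 := by
  by_contra hd
  have key : ∀ k : Fin n, ev (ln v e') (v k) = 0 → k = e.1 ∨ k = e.2 := by
    intro k hk
    have h5 : lin (ln v e') (v k - x) = 0 := by rw [lin_sub, hk, h2, sub_zero]
    obtain ⟨t, ht⟩ := par (ln v e') (nz_ed hn hv e' he') d (v k - x) hd h4 h5
    have h6 : lin (ln v e) (v k - x) = 0 := by
      rw [ht]
      have h7 := lin_add (ln v e) 0 d t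
      rw [zero_add, h3, mul_zero, add_zero] at h7
      rw [h7]
      simp [lin]
    rw [lin_sub, h1, sub_zero] at h6
    by_contra hcon
    push Not at hcon
    exact ev_ne hv e he k hcon.1 hcon.2 h6
  have h5 := key e'.1 (ln_fst v e')
  have h6 := key e'.2 (ln_snd v e')
  have h7 := mem_Ed.1 he
  have h8 := mem_Ed.1 he'
  apply hne
  rcases h5 with h5 | h5 <;> rcases h6 with h6 | h6
  · rw [h5, h6] at h8
    exact absurd h8 (lt_irrefl _)
  · exact Prod.ext h5.symm h6.symm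
  · rw [h5, h6] at h8
    exact absurd (h7.trans h8) (lt_irrefl _)
  · rw [h5, h6] at h8
    exact absurd h8 (lt_irrefl _)
-- END cr_ed

-- BEGIN sep
private theorem sep_aux (hn : 3 ≤ n) (hv : Ccw v) (i j : Fin n) (hij : i ≠ j) (h : Fin n × Fin n) (hh : h ∈ Hu n) (hi : h.1 = i ∨ h.2 = i)
    (hj : h.1 ≠ j ∧ h.2 ≠ j) : ∃ h ∈ Hu n, (h.1 = i ∨ h.2 = i) ∧ 0 < ev (ln v h) (v j) :=
  ⟨h, hh, hi, hull_pos hn hv h hh j hj.1.symm hj.2.symm⟩

/-- G9. The two sides at the vertex `i` are `(i, i+1)`, `(i-1, i)` (cyclically; the pairs in `Hu n` are sorted, `(0, n-1)`); one of them does not contain `j`: `hull_pos`. -/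
theorem sep (hn : 3 ≤ n) (hv : Ccw v) (i j : Fin n) (hij : i ≠ j) : ∃ h ∈ Hu n, (h.1 = i ∨ h.2 = i) ∧ 0 < ev (ln v h) (v j) := by
  have hij' : i.val ≠ j.val := fun h => hij (Fin.ext h)
  have hi := i.isLt
  have hj := j.isLt
  -- the side after `i` is all right if `j` is not the next vertex
  by_cases h1 : i.val + 1 < n
  · by_cases h2 : j.val ≠ i.val + 1
    · refine sep_aux hn hv i j hij (i, ⟨i.val + 1, h1⟩) (mem_Hu.2 ⟨Fin.lt_def.2 (by simp), Or.inl rfl⟩) (Or.inl rfl) ⟨hij, ?_⟩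
      intro h
      exact h2 (by rw [← h])
    · push Not at h2
      by_cases h3 : i.val = 0
      · refine sep_aux hn hv i j hij (i, ⟨n - 1, by omega⟩) (mem_Hu.2 ⟨Fin.lt_def.2 (by simp only; omega), Or.inr ⟨h3, by simp only; omega⟩⟩) (Or.inl rfl) ⟨hij, ?_⟩
        intro h
        have h4 : n - 1 = j.val := by rw [← h]
        omega
      · refine sep_aux hn hv i j hij (⟨i.val - 1, by omega⟩, i) (mem_Hu.2 ⟨Fin.lt_def.2 (by simp only; omega), Or.inl (by simp only; omega)⟩) (Or.inr rfl) ⟨?_, hij⟩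
        intro h
        have h4 : i.val - 1 = j.val := by rw [← h]
        omega
  · by_cases h2 : j.val ≠ 0
    · refine sep_aux hn hv i j hij (⟨0, by omega⟩, i) (mem_Hu.2 ⟨Fin.lt_def.2 (by simp only; omega), Or.inr ⟨rfl, by simp only; omega⟩⟩) (Or.inr rfl) ⟨?_, hij⟩
      intro h
      exact h2 (by rw [← h])
    · push Not at h2
      refine sep_aux hn hv i j hij (⟨i.val - 1, by omega⟩, i) (mem_Hu.2 ⟨Fin.lt_def.2 (by simp only; omega), Or.inl (by simp only; omega)⟩) (Or.inr rfl) ⟨?_, hij⟩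
      intro h
      have h4 : i.val - 1 = j.val := by rw [← h]
      omega
-- END sep

-- BEGIN seg
/-- G10. `x = v e.1 + t • (v e.2 - v e.1)` (`par`); `sep e.1 e.2` gives `t ≥ 0`, `sep e.2 e.1` gives `t ≤ 1`. -/
theorem seg (hn : 3 ≤ n) (hv : Ccw v) (e : Fin n × Fin n) (he : e ∈ Ed n) (x : ℝ × ℝ) (hx : ev (ln v e) x = 0) (hh : ∀ h ∈ Hu n, 0 ≤ ev (ln v h) x) :
    x ∈ segment ℝ (v e.1) (v e.2) := by
  have hne : e.1 ≠ e.2 := (mem_Ed.1 he).ne
  have hpt : ∀ h : Fin n × Fin n, ∀ i : Fin n, (h.1 = i ∨ h.2 = i) → ev (ln v h) (v i) = 0 := by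
    rintro h i (rfl | rfl)
    · exact ln_fst v h
    · exact ln_snd v h
  obtain ⟨h1, hh1, hi1, hp1⟩ := sep hn hv e.1 e.2 hne
  obtain ⟨h2, hh2, hi2, hp2⟩ := sep hn hv e.2 e.1 hne.symm
  have hz1 := hpt h1 e.1 hi1
  have hz2 := hpt h2 e.2 hi2
  have hd : v e.2 - v e.1 ≠ 0 := by
    intro h0
    have h3 : v e.2 = v e.1 := sub_eq_zero.1 h0
    rw [h3] at hp1
    linarith
  obtain ⟨t, ht⟩ := par (ln v e) (nz_ed hn hv e he) (v e.2 - v e.1) (x - v e.1) hd
    (by rw [lin_sub, ln_fst, ln_snd, sub_zero]) (by rw [lin_sub, hx, ln_fst, sub_zero])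
  have hx' : x = v e.1 + t • (v e.2 - v e.1) := by
    rw [← ht]
    abel
  have ht0 : 0 ≤ t := by
    have h3 := hh h1 hh1
    rw [hx', ev_add, hz1, zero_add, lin_sub, hz1, sub_zero] at h3
    by_contra hcon
    push Not at hcon
    nlinarith
  have ht1 : t ≤ 1 := by
    have h3 := hh h2 hh2
    rw [hx', ev_add, lin_sub, hz2] at h3
    by_contra hcon
    push Not at hcon
    nlinarith
  refine ⟨1 - t, t, by linarith, ht0, by ring, ?_⟩
  rw [hx', smul_sub, sub_smul, one_smul]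
  abel
-- END seg

-- BEGIN oseg_pos
/-- G11. `ev_comb`, `hull_nonneg`; `h ≠ e` does not contain both `e.1` and `e.2` (`hull_pos`). -/
theorem oseg_pos (hn : 3 ≤ n) (hv : Ccw v) (e : Fin n × Fin n) (he : e ∈ Ed n) (x : ℝ × ℝ) (hx : x ∈ openSegment ℝ (v e.1) (v e.2))
    (h : Fin n × Fin n) (hh : h ∈ Hu n) (hne : h ≠ e) : 0 < ev (ln v h) x := by
  obtain ⟨a, b, ha, hb, hab, rfl⟩ := hx
  rw [ev_comb _ _ _ _ _ hab]
  have h1 := hull_nonneg hn hv h hh e.1
  have h2 := hull_nonneg hn hv h hh e.2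
  by_contra hcon
  have h3 : ev (ln v h) (v e.1) = 0 := by nlinarith [mul_nonneg ha.le h1, mul_nonneg hb.le h2]
  have h4 : ev (ln v h) (v e.2) = 0 := by nlinarith [mul_nonneg ha.le h1, mul_nonneg hb.le h2]
  have h5 : e.1 = h.1 ∨ e.1 = h.2 := by
    by_contra hc
    push Not at hc
    exact (hull_pos hn hv h hh e.1 hc.1 hc.2).ne' h3
  have h6 : e.2 = h.1 ∨ e.2 = h.2 := by
    by_contra hc
    push Not at hc
    exact (hull_pos hn hv h hh e.2 hc.1 hc.2).ne' h4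
  have h7 := mem_Ed.1 he
  have h8 := mem_Ed.1 (Hu_sub hh)
  apply hne
  rcases h5 with h5 | h5 <;> rcases h6 with h6 | h6
  · rw [h5, h6] at h7
    exact absurd h7 (lt_irrefl _)
  · exact Prod.ext h5.symm h6.symm
  · rw [h5, h6] at h7
    exact absurd (h8.trans h7) (lt_irrefl _)
  · rw [h5, h6] at h7
    exact absurd h7 (lt_irrefl _)
-- END oseg_pos

-- BEGIN oseg_hull
/-- G12. `hull_side`, `ev_comb`. -/
theorem oseg_hull (hn : 3 ≤ n) (hv : Ccw v) (e : Fin n × Fin n) (he : e ∈ Hu n) (x : ℝ × ℝ) (hx : x ∈ openSegment ℝ (v e.1) (v e.2))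
    (e' : Fin n × Fin n) (he' : e' ∈ Ed n) (hne : e' ≠ e) : ev (ln v e') x ≠ 0 := by
  obtain ⟨a, b, ha, hb, hab, rfl⟩ := hx
  rw [ev_comb _ _ _ _ _ hab]
  rcases hull_side hn hv e e' he he' hne with ⟨h1, h2, h3⟩ | ⟨h1, h2, h3⟩
  · rcases lt_or_eq_of_le h1 with h | h
    · exact (add_pos_of_pos_of_nonneg (mul_pos ha h) (mul_nonneg hb.le h2)).ne'
    · rw [← h, zero_add] at h3
      exact (add_pos_of_nonneg_of_pos (mul_nonneg ha.le h1) (mul_pos hb h3)).ne'
  · rcases lt_or_eq_of_le h1 with h | h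
    · exact (add_neg_of_neg_of_nonpos (mul_neg_of_pos_of_neg ha h) (mul_nonpos_of_nonneg_of_nonpos hb.le h2)).ne
    · rw [h, zero_add] at h3
      exact (add_neg_of_nonpos_of_neg (mul_nonpos_of_nonneg_of_nonpos ha.le h1) (mul_neg_of_pos_of_neg hb h3)).ne
-- END oseg_hull

-- BEGIN seg_zero
/-- G13. `ev_comb`, `ln_fst`, `ln_snd`. -/
theorem seg_zero (e : Fin n × Fin n) (x : ℝ × ℝ) (hx : x ∈ segment ℝ (v e.1) (v e.2)) : ev (ln v e) x = 0 := by
  obtain ⟨a, b, _, _, hab, rfl⟩ := hx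
  rw [ev_comb _ _ _ _ _ hab, ln_fst, ln_snd, mul_zero, mul_zero, add_zero]
-- END seg_zero

-- BEGIN card_Hu
/-- G14. `Hu n` = the pairs `(i, i + 1)`, `i + 1 < n`, and `(0, n - 1)`, different for `n ≥ 3`; e.g. bijection with `Fin n`: `i ↦ (i, i + 1)` for `i + 1 < n`, `n - 1 ↦ (0, n - 1)`. -/
theorem card_Hu (hn : 3 ≤ n) : (Hu n).card = n := by
  have h : (Hu n).card = (Finset.univ : Finset (Fin n)).card := by
    refine Finset.card_nbij' (fun e : Fin n × Fin n => if e.1.val + 1 = e.2.val then e.1 else e.2)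
      (fun k : Fin n => if h : k.val + 1 < n then (k, ⟨k.val + 1, h⟩) else (⟨0, by omega⟩, k)) ?_ ?_ ?_ ?_
    · intro e _
      exact Finset.mem_coe.2 (Finset.mem_univ _)
    · intro k _
      have h1 := k.isLt
      rw [Finset.mem_coe, mem_Hu]
      by_cases hk : k.val + 1 < n
      · simp [dif_pos hk, Fin.lt_def]
      · simp [dif_neg hk, Fin.lt_def]
        omega
    · rintro ⟨a, b⟩ he
      rw [Finset.mem_coe, mem_Hu] at he
      simp only at he
      have hb := b.isLt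
      by_cases hab : a.val + 1 = b.val
      · have h2 : a.val + 1 < n := by omega
        simp only [if_pos hab, dif_pos h2]
        exact Prod.ext rfl (Fin.ext hab)
      · rcases he.2 with h1 | h1
        · exact absurd h1 hab
        · have h2 : ¬ (b.val + 1 < n) := by omega
          simp only [if_neg hab, dif_neg h2]
          exact Prod.ext (Fin.ext h1.1.symm) rfl
    · intro k _
      have h1 := k.isLt
      by_cases hk : k.val + 1 < n
      · simp [dif_pos hk]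
      · have h2 : ¬ (1 = k.val) := by omega
        simp [dif_neg hk, h2]
  rw [h, Finset.card_univ, Fintype.card_fin]
-- END card_Hu

-- BEGIN card_Dg
theorem card_Dg_ed (n : ℕ) : 2 * (Ed n).card + n = n * n := by
  classical
  have h1 : (Finset.univ.filter (fun e : Fin n × Fin n => e.2 < e.1)).card = (Ed n).card := by
    refine Finset.card_nbij' (fun e => e.swap) (fun e => e.swap) ?_ ?_ (fun e _ => rfl) (fun e _ => rfl)
    · intro e he
      rw [Finset.mem_coe, Finset.mem_filter] at he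
      rw [Finset.mem_coe, mem_Ed]
      exact he.2
    · intro e he
      rw [Finset.mem_coe, mem_Ed] at he
      rw [Finset.mem_coe, Finset.mem_filter]
      exact ⟨Finset.mem_univ _, he⟩
  have h2 : (Finset.univ.filter (fun e : Fin n × Fin n => e.1 = e.2)).card = n := by
    have h : (Finset.univ.filter (fun e : Fin n × Fin n => e.1 = e.2)).card = (Finset.univ : Finset (Fin n)).card := by
      refine Finset.card_nbij' (fun e => e.1) (fun k => (k, k)) ?_ ?_ ?_ (fun k _ => rfl)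
      · intro e _
        exact Finset.mem_coe.2 (Finset.mem_univ _)
      · intro k _
        rw [Finset.mem_coe, Finset.mem_filter]
        exact ⟨Finset.mem_univ _, rfl⟩
      · rintro ⟨a, b⟩ he
        rw [Finset.mem_coe, Finset.mem_filter] at he
        exact Prod.ext rfl he.2
    rw [h, Finset.card_univ, Fintype.card_fin]
  have h3 : (Finset.univ : Finset (Fin n × Fin n)).card = n * n := by
    rw [Finset.card_univ, Fintype.card_prod, Fintype.card_fin]
  have h4 : (Finset.univ : Finset (Fin n × Fin n)).card = (Ed n).card +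
      (Finset.univ.filter (fun e : Fin n × Fin n => e.2 < e.1)).card + (Finset.univ.filter (fun e : Fin n × Fin n => e.1 = e.2)).card := by
    rw [Ed, Finset.card_filter, Finset.card_filter, Finset.card_filter, Finset.card_eq_sum_ones, ← Finset.sum_add_distrib, ← Finset.sum_add_distrib]
    refine Finset.sum_congr rfl (fun e _ => ?_)
    rcases lt_trichotomy e.1 e.2 with h | h | h
    · rw [if_pos h, if_neg h.asymm, if_neg h.ne]
    · rw [if_neg (fun h' => absurd h h'.ne), if_neg (fun h' => absurd h h'.ne'), if_pos h]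
    · rw [if_neg h.asymm, if_pos h, if_neg h.ne']
  rw [h3, h1, h2] at h4
  omega

/-- G15. `2 * (Ed n).card = n * (n - 1)` (pairs `(i, j)`, `i ≠ j`, in two classes; or induction), `card_Hu`. -/
theorem card_Dg (hn : 3 ≤ n) : 2 * (Dg n).card + 3 * n = n * n := by
  have h1 := card_Dg_ed n
  have h2 : (Dg n).card + (Hu n).card = (Ed n).card := by
    rw [Dg]
    exact Finset.card_sdiff_add_card_eq_card Hu_sub
  rw [card_Hu hn] at h2
  omega
-- END card_Dg

-- BEGIN Rg_open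
/-- G16. Finite intersection of open half planes (`ev_cont`). -/
theorem Rg_open (v : Fin n → ℝ × ℝ) : IsOpen (Rg v) := by
  have h : Rg v = ⋂ e ∈ Hu n, {x | 0 < ev (ln v e) x} := by
    ext x
    simp [Rg]
  rw [h]
  exact isOpen_biInter_finset fun e _ => isOpen_lt continuous_const (ev_cont _)
-- END Rg_open

-- BEGIN Rg_ne
/-- G17. The centroid of `v 0`, `v 1`, `v 2`: a side contains at most two of these vertices. -/
theorem Rg_ne (hn : 3 ≤ n) (hv : Ccw v) : (Rg v).Nonempty := by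
  have i0 : 0 < n := by omega
  have i1 : 1 < n := by omega
  have i2 : 2 < n := by omega
  have hc : ∀ l : ℝ × ℝ × ℝ, ev l ((1 / 3 : ℝ) • (v ⟨0, i0⟩ + v ⟨1, i1⟩ + v ⟨2, i2⟩)) =
      (ev l (v ⟨0, i0⟩) + ev l (v ⟨1, i1⟩) + ev l (v ⟨2, i2⟩)) / 3 := by
    intro l
    simp only [ev, Prod.fst_add, Prod.snd_add, Prod.smul_fst, Prod.smul_snd, smul_eq_mul]
    ring
  refine ⟨(1 / 3 : ℝ) • (v ⟨0, i0⟩ + v ⟨1, i1⟩ + v ⟨2, i2⟩), fun e he => ?_⟩
  rw [hc]
  have h0 := hull_nonneg hn hv e he ⟨0, i0⟩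
  have h1 := hull_nonneg hn hv e he ⟨1, i1⟩
  have h2 := hull_nonneg hn hv e he ⟨2, i2⟩
  have h3 : 0 < ev (ln v e) (v ⟨0, i0⟩) ∨ 0 < ev (ln v e) (v ⟨1, i1⟩) ∨ 0 < ev (ln v e) (v ⟨2, i2⟩) := by
    by_cases a0 : (⟨0, i0⟩ : Fin n) ≠ e.1 ∧ (⟨0, i0⟩ : Fin n) ≠ e.2
    · exact Or.inl (hull_pos hn hv e he _ a0.1 a0.2)
    by_cases a1 : (⟨1, i1⟩ : Fin n) ≠ e.1 ∧ (⟨1, i1⟩ : Fin n) ≠ e.2
    · exact Or.inr (Or.inl (hull_pos hn hv e he _ a1.1 a1.2))
    by_cases a2 : (⟨2, i2⟩ : Fin n) ≠ e.1 ∧ (⟨2, i2⟩ : Fin n) ≠ e.2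
    · exact Or.inr (Or.inr (hull_pos hn hv e he _ a2.1 a2.2))
    exfalso
    simp only [ne_eq, Fin.ext_iff, not_and_or, not_not] at a0 a1 a2
    omega
  rcases h3 with h | h | h <;> linarith
-- END Rg_ne

-- BEGIN dg_meets
/-- G18. The midpoint: `oseg_pos`, `seg_zero`. -/
theorem dg_meets (hn : 3 ≤ n) (hv : Ccw v) (e : Fin n × Fin n) (he : e ∈ Dg n) : ∃ x ∈ Rg v, ev (ln v e) x = 0 := by
  obtain ⟨h1, h2⟩ := mem_Dg.1 he
  have hx : (1 / 2 : ℝ) • v e.1 + (1 / 2 : ℝ) • v e.2 ∈ openSegment ℝ (v e.1) (v e.2) :=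
    ⟨1 / 2, 1 / 2, by norm_num, by norm_num, by norm_num, rfl⟩
  refine ⟨_, fun h hh => oseg_pos hn hv e h1 _ hx h hh ?_, seg_zero e _ (openSegment_subset_segment ℝ _ _ hx)⟩
  rintro rfl
  exact h2 hh
-- END dg_meets

-- BEGIN om_fin
/-- G19. A point of `OmS v` is on two different lines of `Ed n`, and is determined by them (`cr_ed` with `d = p' - p`). -/
theorem om_fin (hn : 3 ≤ n) (hv : Ccw v) : (OmS v).Finite := by
  classical
  have hpair : ∀ p, ∃ z : (Fin n × Fin n) × (Fin n × Fin n), p ∈ OmS v →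
      z.1 ∈ Ed n ∧ z.2 ∈ Ed n ∧ z.1 ≠ z.2 ∧ ev (ln v z.1) p = 0 ∧ ev (ln v z.2) p = 0 := by
    intro p
    by_cases hp : p ∈ OmS v
    · have h1 : 1 < (thru v p).card := by
        have h2 : 2 ≤ mu v p := hp.2
        unfold mu at h2
        omega
      obtain ⟨e, he, e', he', hne⟩ := Finset.one_lt_card.1 h1
      rw [mem_thru] at he he'
      exact ⟨(e, e'), fun _ => ⟨he.1, he'.1, hne, he.2, he'.2⟩⟩
    · exact ⟨((⟨0, by omega⟩, ⟨0, by omega⟩), (⟨0, by omega⟩, ⟨0, by omega⟩)), fun h => absurd h hp⟩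
  choose f hf using hpair
  apply Set.Finite.of_finite_image (f := f)
  · exact Set.toFinite _
  · intro p hp q hq hpq
    obtain ⟨h1, h2, h3, h4, h5⟩ := hf p hp
    obtain ⟨_, _, _, h6, h7⟩ := hf q hq
    rw [← hpq] at h6 h7
    have h8 : q - p = 0 := by
      apply cr_ed hn hv _ h1 _ h2 h3 p h4 h5
      · rw [lin_sub, h4, h6, sub_zero]
      · rw [lin_sub, h5, h7, sub_zero]
    exact (sub_eq_zero.1 h8).symm
-- END om_fin

/-- G20 -/
theorem mem_Om (hn : 3 ≤ n) (hv : Ccw v) {p : ℝ × ℝ} : p ∈ Om v ↔ p ∈ Rg v ∧ 2 ≤ mu v p := by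
  unfold Om
  rw [dif_pos (om_fin hn hv), Set.Finite.mem_toFinset]
  rfl

-- BEGIN hull_sub
/-- G21. At a point of `Rg v` the sides are positive (`mem_cells`, `sl_pos`). -/
theorem hull_sub (S : Finset (Fin n × Fin n)) (hS : S ∈ cells v) : Hu n ⊆ S := by
  obtain ⟨_, x, hx, hx'⟩ := mem_cells.1 hS
  intro h hh
  exact (sl_pos.1 (hx' h (Hu_sub hh))).2.2 (hx h hh)
-- END hull_sub

-- BEGIN cell_poly
/-- G22. `nz_ed`, `cr_ed`, `bd_hull` with `hull_sub`, `mem_cells` (`sl_zero`, `sl_lin_zero`, `lin_smul`). -/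
theorem cell_poly (hn : 3 ≤ n) (hv : Ccw v) (S : Finset (Fin n × Fin n)) (hS : S ∈ cells v) : Poly (Ed n) (sl v S) where
  nz := by
    intro e he
    obtain ⟨d, hd⟩ := nz_ed hn hv e he
    exact ⟨d, fun h => hd (sl_lin_zero.1 h)⟩
  cr := by
    intro e he e' he' hne x h1 h2 d h3 h4
    exact cr_ed hn hv e he e' he' hne x (sl_zero.1 h1) (sl_zero.1 h2) d (sl_lin_zero.1 h3) (sl_lin_zero.1 h4)
  bd := by
    intro d hd
    obtain ⟨e, he, h1⟩ := bd_hull hn hv d hd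
    refine ⟨e, Hu_sub he, ?_⟩
    unfold sl
    rw [lin_smul, if_pos (hull_sub S hS he), one_mul]
    exact h1
  ne := by
    obtain ⟨_, x, _, hx⟩ := mem_cells.1 hS
    exact ⟨x, hx⟩
-- END cell_poly

end Fiv
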