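import Pool.Agent.Fiv.Defs

/-!
# Fiv PAT: counting sign patterns of lines by adding one line after the other
-/

set_option autoImplicit false

namespace Fiv

open Finset

variable {ι : Type} [DecidableEq ι]

-- BEGIN count_step
omit [DecidableEq ι] in
theorem count_step_mv (l : ι → ℝ × ℝ × ℝ) (U : Set (ℝ × ℝ)) (A : Finset ι) (e : ι) (x : ℝ × ℝ) (hxe : ev (l e) x = 0)
    (hA : ∀ e' ∈ A, ev (l e') x ≠ 0)
    (mov : ∃ w : ℝ × ℝ, lin (l e) w ≠ 0 ∧ ∃ δ : ℝ, 0 < δ ∧ ∀ s : ℝ, |s| ≤ δ → x + s • w ∈ U) :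
    (∃ y ∈ U, 0 < ev (l e) y ∧ ∀ e' ∈ A, ev (l e') y ≠ 0 ∧ (0 < ev (l e') x ↔ 0 < ev (l e') y)) ∧
      ∃ y ∈ U, ev (l e) y < 0 ∧ ∀ e' ∈ A, ev (l e') y ≠ 0 ∧ (0 < ev (l e') x ↔ 0 < ev (l e') y) := by
  obtain ⟨w, hw, δ, hδ, hU⟩ := mov
  obtain ⟨s₀, hs₀, hs⟩ := small A (fun e' => ev (l e') x * ev (l e') x) (fun e' => ev (l e') x * lin (l e') w)
    (fun e' he' => mul_self_pos.2 (hA e' he'))
  have hm : 0 < min δ s₀ := lt_min hδ hs₀
  have key : ∀ s : ℝ, |s| ≤ min δ s₀ → x + s • w ∈ U ∧ ∀ e' ∈ A, ev (l e') (x + s • w) ≠ 0 ∧ (0 < ev (l e') x ↔ 0 < ev (l e') (x + s • w)) := by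
    intro s h1
    refine ⟨hU s (h1.trans (min_le_left _ _)), fun e' he' => ?_⟩
    have h2 := hs s (h1.trans (min_le_right _ _)) e' he'
    have h3 : 0 < ev (l e') x * ev (l e') (x + s • w) := by
      rw [ev_add]
      have h4 : ev (l e') x * (ev (l e') x + s * lin (l e') w) = ev (l e') x * ev (l e') x + s * (ev (l e') x * lin (l e') w) := by ring
      rw [h4]
      exact h2
    refine ⟨fun h => ?_, fun h => ?_, fun h => ?_⟩
    · rw [h, mul_zero] at h3
      exact lt_irrefl _ h3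
    · exact (pos_iff_pos_of_mul_pos h3).1 h
    · exact (pos_iff_pos_of_mul_pos h3).2 h
  have e1 : ∀ s : ℝ, ev (l e) (x + s • w) = s * lin (l e) w := by
    intro s
    rw [ev_add, hxe, zero_add]
  have a1 : |min δ s₀| ≤ min δ s₀ := (abs_of_pos hm).le
  have a2 : |(-min δ s₀)| ≤ min δ s₀ := by rw [abs_neg]; exact a1
  rcases lt_or_gt_of_ne hw with h | h
  · refine ⟨⟨x + (-min δ s₀) • w, (key _ a2).1, ?_, (key _ a2).2⟩, ⟨x + (min δ s₀) • w, (key _ a1).1, ?_, (key _ a1).2⟩⟩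
    · rw [e1]
      exact mul_pos_of_neg_of_neg (by linarith) h
    · rw [e1]
      exact mul_neg_of_pos_of_neg hm h
  · refine ⟨⟨x + (min δ s₀) • w, (key _ a1).1, ?_, (key _ a1).2⟩, ⟨x + (-min δ s₀) • w, (key _ a2).1, ?_, (key _ a2).2⟩⟩
    · rw [e1]
      exact mul_pos hm h
    · rw [e1]
      exact mul_neg_of_neg_of_pos (by linarith) h

theorem count_step_pl (l : ι → ℝ × ℝ × ℝ) (U : Set (ℝ × ℝ)) (A : Finset ι) (e : ι) (he : e ∉ A) (T : Finset ι) (hT : T ⊆ A)
    (h : ∃ y ∈ U, 0 < ev (l e) y ∧ ∀ e' ∈ A, ev (l e') y ≠ 0 ∧ (e' ∈ T ↔ 0 < ev (l e') y)) :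
    T ∈ ((pat l U (insert e A)).filter (fun T => e ∈ T)).image (fun T => T.erase e) := by
  obtain ⟨y, hy, hp, hq⟩ := h
  have heT : e ∉ T := fun h => he (hT h)
  refine Finset.mem_image.2 ⟨insert e T, Finset.mem_filter.2 ⟨mem_pat.2 ⟨Finset.insert_subset_insert e hT, y, hy, ?_⟩,
    Finset.mem_insert_self e T⟩, Finset.erase_insert heT⟩
  intro e' he'
  rcases Finset.mem_insert.1 he' with rfl | h1
  · exact ⟨hp.ne', fun _ => hp, fun _ => Finset.mem_insert_self _ _⟩
  · have hne : e' ≠ e := fun h => he (h ▸ h1)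
    refine ⟨(hq e' h1).1, ?_⟩
    rw [← (hq e' h1).2]
    exact ⟨fun h => (Finset.mem_insert.1 h).resolve_left hne, fun h => Finset.mem_insert_of_mem h⟩

theorem count_step_mi (l : ι → ℝ × ℝ × ℝ) (U : Set (ℝ × ℝ)) (A : Finset ι) (e : ι) (he : e ∉ A) (T : Finset ι) (hT : T ⊆ A)
    (h : ∃ y ∈ U, ev (l e) y < 0 ∧ ∀ e' ∈ A, ev (l e') y ≠ 0 ∧ (e' ∈ T ↔ 0 < ev (l e') y)) :
    T ∈ (pat l U (insert e A)).filter (fun T => ¬ e ∈ T) := by
  obtain ⟨y, hy, hp, hq⟩ := h
  have heT : e ∉ T := fun h => he (hT h)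
  refine Finset.mem_filter.2 ⟨mem_pat.2 ⟨hT.trans (Finset.subset_insert e A), y, hy, ?_⟩, heT⟩
  intro e' he'
  rcases Finset.mem_insert.1 he' with rfl | h1
  · exact ⟨hp.ne, fun h => absurd h heT, fun h => absurd h (not_lt.2 hp.le)⟩
  · exact hq e' h1

/-- C1. `T ↦ T.erase e` on `pat l U (insert e A)`: `Y⁺` = the image of the `T` containing `e`, `Y⁻` = the `T` not containing `e`; the number of `T` is `|Y⁺| + |Y⁻| = |Y⁺ ∪ Y⁻| + |Y⁺ ∩ Y⁻|`. `pat l U A ⊆ Y⁺ ∪ Y⁻`: if `ev (l e) x = 0`, move `x` by `s • w`, `s` small (`small`).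
`pat l (U ∩ e) A ⊆ Y⁺ ∩ Y⁻`: move by `s • w` and by `- s • w`. -/
theorem count_step (l : ι → ℝ × ℝ × ℝ) (U : Set (ℝ × ℝ)) (A : Finset ι) (e : ι) (he : e ∉ A)
    (mov : ∀ x ∈ U, ev (l e) x = 0 → ∃ w : ℝ × ℝ, lin (l e) w ≠ 0 ∧ ∃ δ : ℝ, 0 < δ ∧ ∀ s : ℝ, |s| ≤ δ → x + s • w ∈ U) :
    (pat l U A).card + (pat l (U ∩ {x | ev (l e) x = 0}) A).card ≤ (pat l U (insert e A)).card := by
  have hc : (((pat l U (insert e A)).filter (fun T => e ∈ T)).image (fun T => T.erase e)).card =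
      ((pat l U (insert e A)).filter (fun T => e ∈ T)).card := by
    apply Finset.card_image_of_injOn
    intro T hT T' hT' h
    have h1 : e ∈ T := (Finset.mem_filter.1 (Finset.mem_coe.1 hT)).2
    have h2 : e ∈ T' := (Finset.mem_filter.1 (Finset.mem_coe.1 hT')).2
    have h3 : T.erase e = T'.erase e := h
    rw [← Finset.insert_erase h1, h3, Finset.insert_erase h2]
  have hs := Finset.card_filter_add_card_filter_not (s := pat l U (insert e A)) (fun T => e ∈ T)
  have hu := Finset.card_union_add_card_inter (((pat l U (insert e A)).filter (fun T => e ∈ T)).image (fun T => T.erase e))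
    ((pat l U (insert e A)).filter (fun T => ¬ e ∈ T))
  have two : ∀ T ∈ pat l (U ∩ {x | ev (l e) x = 0}) A,
      T ∈ ((pat l U (insert e A)).filter (fun T => e ∈ T)).image (fun T => T.erase e) ∧ T ∈ (pat l U (insert e A)).filter (fun T => ¬ e ∈ T) := by
    intro T hT
    obtain ⟨hTA, x, hx, hq⟩ := mem_pat.1 hT
    have hx0 : ev (l e) x = 0 := hx.2
    obtain ⟨⟨y, hy, hp, hy2⟩, ⟨z, hz, hn, hz2⟩⟩ := count_step_mv l U A e x hx0 (fun e' he' => (hq e' he').1) (mov x hx.1 hx0)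
    refine ⟨count_step_pl l U A e he T hTA ⟨y, hy, hp, fun e' he' => ⟨(hy2 e' he').1, ?_⟩⟩,
      count_step_mi l U A e he T hTA ⟨z, hz, hn, fun e' he' => ⟨(hz2 e' he').1, ?_⟩⟩⟩
    · rw [← (hy2 e' he').2]
      exact (hq e' he').2
    · rw [← (hz2 e' he').2]
      exact (hq e' he').2
  have i1 : pat l U A ⊆ ((pat l U (insert e A)).filter (fun T => e ∈ T)).image (fun T => T.erase e) ∪
      (pat l U (insert e A)).filter (fun T => ¬ e ∈ T) := by
    intro T hT
    obtain ⟨hTA, x, hx, hq⟩ := mem_pat.1 hT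
    rcases lt_trichotomy (ev (l e) x) 0 with h | h | h
    · exact Finset.mem_union_right _ (count_step_mi l U A e he T hTA ⟨x, hx, h, hq⟩)
    · exact Finset.mem_union_left _ (two T (mem_pat.2 ⟨hTA, x, ⟨hx, h⟩, hq⟩)).1
    · exact Finset.mem_union_left _ (count_step_pl l U A e he T hTA ⟨x, hx, h, hq⟩)
  have i2 : pat l (U ∩ {x | ev (l e) x = 0}) A ⊆ ((pat l U (insert e A)).filter (fun T => e ∈ T)).image (fun T => T.erase e) ∩
      (pat l U (insert e A)).filter (fun T => ¬ e ∈ T) := fun T hT => Finset.mem_inter.2 (two T hT)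
  have c1 := Finset.card_le_card i1
  have c2 := Finset.card_le_card i2
  omega
-- END count_step

-- BEGIN mov_open
/-- C2. A point of an open set can be moved in every direction. -/
theorem mov_open (R : Set (ℝ × ℝ)) (hR : IsOpen R) (x : ℝ × ℝ) (hx : x ∈ R) (w : ℝ × ℝ) : ∃ δ : ℝ, 0 < δ ∧ ∀ s : ℝ, |s| ≤ δ → x + s • w ∈ R := by
  have h1 : Continuous fun s : ℝ => x + s • w := by fun_prop
  have h2 : IsOpen ((fun s : ℝ => x + s • w) ⁻¹' R) := hR.preimage h1
  have h3 : (0 : ℝ) ∈ ((fun s : ℝ => x + s • w) ⁻¹' R) := by simpa using hx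
  obtain ⟨ε, hε, h4⟩ := Metric.isOpen_iff.1 h2 0 h3
  refine ⟨ε / 2, by linarith, fun s hs => h4 ?_⟩
  rw [Metric.mem_ball, dist_zero_right, Real.norm_eq_abs]
  linarith
-- END mov_open

-- BEGIN line_count
open Classical in
/-- C3. Patterns on the line `e₀` in `R`. Induction on `A` (`Finset.induction_on`, keep `A ⊆ D`, `e₀ ∉ A`). Empty: one pattern (`hne`). Step `insert e A`: `count_step` with `U = R ∩ e₀`, `w` along `e₀` (`exists_dir`; `lin (l e) w ≠ 0` by `cr` at `x`). The set of the `p ∈ Om` on `e₀` and on a line of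
`insert e A` has at most one more element, the point of `e₀ ∩ e` (unique, `cr`), if it is on no line of `A`; in this case the pattern of `A` at `p` is in `pat l (U ∩ e) A`, which has at least one element. -/
theorem line_count (l : ι → ℝ × ℝ × ℝ) (R : Set (ℝ × ℝ)) (hR : IsOpen R) (D : Finset ι) (hnz : ∀ e ∈ D, ∃ d, lin (l e) d ≠ 0)
    (hcr : ∀ e ∈ D, ∀ e' ∈ D, e ≠ e' → ∀ x, ev (l e) x = 0 → ev (l e') x = 0 → ∀ d, lin (l e) d = 0 → lin (l e') d = 0 → d = 0)
    (O : Finset (ℝ × ℝ)) (hO : ∀ p ∈ O, p ∈ R) (e₀ : ι) (he₀ : e₀ ∈ D) (hne : ∃ x ∈ R, ev (l e₀) x = 0) (A : Finset ι) (hA : A ⊆ D) (hA0 : e₀ ∉ A) :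
    1 + (O.filter (fun p => ev (l e₀) p = 0 ∧ ∃ e ∈ A, ev (l e) p = 0)).card ≤ (pat l (R ∩ {x | ev (l e₀) x = 0}) A).card := by
  induction A using Finset.induction_on with
  | empty =>
    have h1 : (O.filter (fun p => ev (l e₀) p = 0 ∧ ∃ e ∈ (∅ : Finset ι), ev (l e) p = 0)) = ∅ := by
      rw [Finset.filter_eq_empty_iff]
      rintro p _ ⟨_, e, he, _⟩
      exact Finset.notMem_empty e he
    rw [h1, Finset.card_empty, add_zero, Nat.succ_le_iff, Finset.card_pos]
    obtain ⟨x, hx, hx0⟩ := hne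
    exact ⟨∅, mem_pat.2 ⟨Finset.Subset.refl _, x, ⟨hx, hx0⟩, fun e he => absurd he (Finset.notMem_empty e)⟩⟩
  | insert e A he ih =>
    have heD : e ∈ D := hA (Finset.mem_insert_self e A)
    have hAD : A ⊆ D := fun a ha => hA (Finset.mem_insert_of_mem ha)
    have h0A : e₀ ∉ A := fun h => hA0 (Finset.mem_insert_of_mem h)
    have hne0 : e ≠ e₀ := fun h => hA0 (h ▸ Finset.mem_insert_self e A)
    have ih' := ih hAD h0A
    obtain ⟨w, hw, hw0⟩ := exists_dir (l e₀) (hnz e₀ he₀)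
    have h1 := count_step l (R ∩ {x | ev (l e₀) x = 0}) A e he (by
      intro x hx hxe
      obtain ⟨δ, hδ, hδ'⟩ := mov_open R hR x hx.1 w
      have hx2 : ev (l e₀) x = 0 := hx.2
      refine ⟨w, ?_, δ, hδ, fun s hs => ⟨hδ' s hs, ?_⟩⟩
      · intro h
        exact hw (hcr e heD e₀ he₀ hne0 x hxe hx2 w h hw0)
      · show ev (l e₀) (x + s • w) = 0
        rw [ev_add, hw0, hx2, mul_zero, add_zero])
    have h2 : (O.filter (fun p => ev (l e₀) p = 0 ∧ ∃ e' ∈ insert e A, ev (l e') p = 0)).card ≤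
        (O.filter (fun p => ev (l e₀) p = 0 ∧ ∃ e' ∈ A, ev (l e') p = 0)).card +
          (pat l ((R ∩ {x | ev (l e₀) x = 0}) ∩ {x | ev (l e) x = 0}) A).card := by
      by_cases hq : ∃ q ∈ O, ev (l e₀) q = 0 ∧ ev (l e) q = 0 ∧ ∀ e' ∈ A, ev (l e') q ≠ 0
      · obtain ⟨q, hqO, hq0, hqe, hqA⟩ := hq
        have h3 : (O.filter (fun p => ev (l e₀) p = 0 ∧ ∃ e' ∈ insert e A, ev (l e') p = 0)) ⊆
            insert q (O.filter (fun p => ev (l e₀) p = 0 ∧ ∃ e' ∈ A, ev (l e') p = 0)) := by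
          intro p hp
          rw [Finset.mem_filter] at hp
          obtain ⟨hpO, hp0, e', he', hpe'⟩ := hp
          rcases Finset.mem_insert.1 he' with rfl | he'A
          · refine Finset.mem_insert.2 (Or.inl ?_)
            have h5 := hcr e₀ he₀ e' heD hne0.symm q hq0 hqe (p - q) (by rw [lin_sub, hp0, hq0, sub_zero])
              (by rw [lin_sub, hpe', hqe, sub_zero])
            exact sub_eq_zero.1 h5
          · exact Finset.mem_insert_of_mem (Finset.mem_filter.2 ⟨hpO, hp0, e', he'A, hpe'⟩)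
        have h4 : 0 < (pat l ((R ∩ {x | ev (l e₀) x = 0}) ∩ {x | ev (l e) x = 0}) A).card := by
          rw [Finset.card_pos]
          refine ⟨A.filter (fun e' => 0 < ev (l e') q), mem_pat.2 ⟨Finset.filter_subset _ _, q, ⟨⟨hO q hqO, hq0⟩, hqe⟩, fun e' he' => ⟨hqA e' he', ?_⟩⟩⟩
          rw [Finset.mem_filter]
          exact ⟨fun h => h.2, fun h => ⟨he', h⟩⟩
        have h5 := Finset.card_le_card h3
        have h6 := Finset.card_insert_le q (O.filter (fun p => ev (l e₀) p = 0 ∧ ∃ e' ∈ A, ev (l e') p = 0))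
        omega
      · have h3 : (O.filter (fun p => ev (l e₀) p = 0 ∧ ∃ e' ∈ insert e A, ev (l e') p = 0)) ⊆
            (O.filter (fun p => ev (l e₀) p = 0 ∧ ∃ e' ∈ A, ev (l e') p = 0)) := by
          intro p hp
          rw [Finset.mem_filter] at hp ⊢
          obtain ⟨hpO, hp0, e', he', hpe'⟩ := hp
          rcases Finset.mem_insert.1 he' with rfl | he'A
          · refine ⟨hpO, hp0, ?_⟩
            by_contra h6
            exact hq ⟨p, hpO, hp0, hpe', fun e'' h7 h8 => h6 ⟨e'', h7, h8⟩⟩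
          · exact ⟨hpO, hp0, e', he'A, hpe'⟩
        exact (Finset.card_le_card h3).trans (Nat.le_add_right _ _)
    omega
-- END line_count

-- BEGIN mult_step
open Classical in
/-- C4. For `p ∉ e` nothing changes; for `p ∈ e` the number `m` of lines of `A` through `p` becomes `m + 1`: `m - 1` (natural subtraction) becomes `m`, which is `m - 1 + 1` if `m ≥ 1` and `m - 1` if `m = 0`. -/
theorem mult_step (l : ι → ℝ × ℝ × ℝ) (O : Finset (ℝ × ℝ)) (A : Finset ι) (e : ι) (he : e ∉ A) :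
    ∑ p ∈ O, (((insert e A).filter (fun e' => ev (l e') p = 0)).card - 1) =
      ∑ p ∈ O, ((A.filter (fun e' => ev (l e') p = 0)).card - 1) + (O.filter (fun p => ev (l e) p = 0 ∧ ∃ e' ∈ A, ev (l e') p = 0)).card := by
  rw [Finset.card_filter, ← Finset.sum_add_distrib]
  refine Finset.sum_congr rfl fun p _ => ?_
  by_cases h : ev (l e) p = 0
  · have h1 : ((insert e A).filter (fun e' => ev (l e') p = 0)).card = (A.filter (fun e' => ev (l e') p = 0)).card + 1 := by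
      rw [Finset.filter_insert, if_pos h, Finset.card_insert_of_notMem]
      exact fun h2 => he (Finset.mem_filter.1 h2).1
    rw [h1]
    by_cases h2 : ∃ e' ∈ A, ev (l e') p = 0
    · obtain ⟨e', h3, h4⟩ := h2
      have h5 : 0 < (A.filter (fun e' => ev (l e') p = 0)).card :=
        Finset.card_pos.2 ⟨e', Finset.mem_filter.2 ⟨h3, h4⟩⟩
      rw [if_pos ⟨h, e', h3, h4⟩]
      omega
    · have h5 : (A.filter (fun e' => ev (l e') p = 0)).card = 0 := by
        rw [Finset.card_eq_zero, Finset.filter_eq_empty_iff]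
        intro e' h3 h4
        exact h2 ⟨e', h3, h4⟩
      rw [if_neg fun h6 => h2 h6.2, h5]
  · rw [Finset.filter_insert, if_neg h, if_neg fun h6 => h h6.1, add_zero]
-- END mult_step

-- BEGIN cell_count
open Classical in
/-- C5. Induction on `A`: empty: one pattern. Step: `count_step` with `U = R` (`mov_open`, `hnz`), `line_count`, `mult_step`. -/
theorem cell_count (l : ι → ℝ × ℝ × ℝ) (R : Set (ℝ × ℝ)) (hR : IsOpen R) (hRn : R.Nonempty) (D : Finset ι) (hnz : ∀ e ∈ D, ∃ d, lin (l e) d ≠ 0)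
    (hcr : ∀ e ∈ D, ∀ e' ∈ D, e ≠ e' → ∀ x, ev (l e) x = 0 → ev (l e') x = 0 → ∀ d, lin (l e) d = 0 → lin (l e') d = 0 → d = 0)
    (O : Finset (ℝ × ℝ)) (hO : ∀ p ∈ O, p ∈ R) (hne : ∀ e ∈ D, ∃ x ∈ R, ev (l e) x = 0) (A : Finset ι) (hA : A ⊆ D) :
    1 + A.card + ∑ p ∈ O, ((A.filter (fun e => ev (l e) p = 0)).card - 1) ≤ (pat l R A).card := by
  induction A using Finset.induction_on with
  | empty =>
    have h1 : 0 < (pat l R ∅).card := by
      rw [Finset.card_pos]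
      obtain ⟨x, hx⟩ := hRn
      exact ⟨∅, mem_pat.2 ⟨Finset.Subset.refl _, x, hx, fun e he => absurd he (Finset.notMem_empty e)⟩⟩
    have h2 : ∑ p ∈ O, (((∅ : Finset ι).filter (fun e => ev (l e) p = 0)).card - 1) = 0 := by
      refine Finset.sum_eq_zero fun p _ => ?_
      rw [Finset.filter_empty, Finset.card_empty, Nat.zero_sub]
    rw [h2, Finset.card_empty]
    omega
  | insert e A he ih =>
    have heD : e ∈ D := hA (Finset.mem_insert_self e A)
    have hAD : A ⊆ D := fun a ha => hA (Finset.mem_insert_of_mem ha)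
    have h1 := count_step l R A e he (by
      intro x hx _
      obtain ⟨w, hw⟩ := hnz e heD
      obtain ⟨δ, hδ, h⟩ := mov_open R hR x hx w
      exact ⟨w, hw, δ, hδ, h⟩)
    have h2 := line_count l R hR D hnz hcr O hO e heD (hne e heD) A hAD he
    have h3 := mult_step l O A e he
    have h4 := ih hAD
    rw [Finset.card_insert_of_notMem he, h3]
    omega
-- END cell_count

-- BEGIN pat_mono
/-- C6. Lines which do not meet `U` do not change the number of patterns: `T ↦ T ∪ {those positive on U}`, more simply: `T ↦ T ∩ A` maps `pat l U (A ∪ B)` onto `pat l U A` (a point of `U` on no line of `A` is on no line of `B`). -/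
theorem pat_mono (l : ι → ℝ × ℝ × ℝ) (U : Set (ℝ × ℝ)) (A B : Finset ι) (hB : ∀ e ∈ B, ∀ x ∈ U, ev (l e) x ≠ 0) :
    (pat l U A).card ≤ (pat l U (A ∪ B)).card := by
  classical
  have h : pat l U A ⊆ (pat l U (A ∪ B)).image (fun T => T ∩ A) := by
    intro T hT
    obtain ⟨hTA, x, hx, hq⟩ := mem_pat.1 hT
    refine Finset.mem_image.2 ⟨(A ∪ B).filter (fun e => 0 < ev (l e) x), mem_pat.2 ⟨Finset.filter_subset _ _, x, hx, ?_⟩, ?_⟩
    · intro e he
      refine ⟨?_, ?_⟩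
      · rcases Finset.mem_union.1 he with h1 | h1
        · exact (hq e h1).1
        · exact hB e h1 x hx
      · rw [Finset.mem_filter]
        exact ⟨fun h2 => h2.2, fun h2 => ⟨he, h2⟩⟩
    · ext e
      rw [Finset.mem_inter, Finset.mem_filter]
      constructor
      · rintro ⟨⟨_, h2⟩, h3⟩
        exact (hq e h3).2.2 h2
      · intro h2
        have h3 := hTA h2
        exact ⟨⟨Finset.mem_union_left _ h3, (hq e h3).2.1 h2⟩, h3⟩
  exact (Finset.card_le_card h).trans Finset.card_image_le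
-- END pat_mono

end Fiv
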