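import Pool.Agent.Fiv.Poly
import Pool.Agent.Fiv.Pat
import Pool.Agent.Fiv.Geo

/-!
# Fiv CELL: cells, sides and corners of the drawing
-/

set_option autoImplicit false

namespace Fiv

open Finset

variable {n : ℕ} {v : Fin n → ℝ × ℝ}

-- BEGIN hull_cl
/-- D1. Points of the closed cell are in the closed polygon (`hull_sub`, `sl_mem`). -/
theorem hull_cl (S : Finset (Fin n × Fin n)) (hS : S ∈ cells v) (x : ℝ × ℝ) (hx : x ∈ cl (Ed n) (sl v S)) : ∀ h ∈ Hu n, 0 ≤ ev (ln v h) x := by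
  intro h hh
  have h1 := hx h (Hu_sub hh)
  rwa [sl_mem (hull_sub S hS hh)] at h1
-- END hull_cl

-- BEGIN corner_loc
/-- D2. Corners on the edge `e`: `hull_cl`, `seg`; if `X` is not an endpoint it is in the open segment (`mem_openSegment_of_ne_left_right`); `e ∈ Hu n` is impossible (`oseg_hull`: one of the two lines of `Cor` is not `e`, `sl_zero`); otherwise `X ∈ Rg v` (`oseg_pos`) and `2 ≤ mu v X` (`mem_thru`): `mem_Om`. -/
theorem corner_loc (hn : 3 ≤ n) (hv : Ccw v) (S : Finset (Fin n × Fin n)) (hS : S ∈ cells v) (e : Fin n × Fin n) (he : e ∈ Ed n)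
    (X : ℝ × ℝ) (hX : X ∈ Cor (Ed n) (sl v S)) (hXe : ev (ln v e) X = 0) : X = v e.1 ∨ X = v e.2 ∨ (e ∈ Dg n ∧ X ∈ Om v) := by
  by_cases h1 : X = v e.1
  · exact Or.inl h1
  by_cases h2 : X = v e.2
  · exact Or.inr (Or.inl h2)
  right
  right
  obtain ⟨hXc, e₁, he₁, e₂, he₂, hne, hz1, hz2⟩ := hX
  rw [sl_zero] at hz1 hz2
  have hseg := seg hn hv e he X hXe (hull_cl S hS X hXc)
  have hopen : X ∈ openSegment ℝ (v e.1) (v e.2) := mem_openSegment_of_ne_left_right (Ne.symm h1) (Ne.symm h2) hseg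
  have heH : e ∉ Hu n := by
    intro heH
    by_cases h3 : e₁ = e
    · exact oseg_hull hn hv e heH X hopen e₂ he₂ (fun h => hne (by rw [h3, h])) hz2
    · exact oseg_hull hn hv e heH X hopen e₁ he₁ h3 hz1
  refine ⟨mem_Dg.2 ⟨he, heH⟩, (mem_Om hn hv).2 ⟨fun h hh => oseg_pos hn hv e he X hopen h hh (fun h' => heH (h' ▸ hh)), ?_⟩⟩
  unfold mu
  have h3 : 1 < (thru v X).card := Finset.one_lt_card.2 ⟨e₁, mem_thru.2 ⟨he₁, hz1⟩, e₂, mem_thru.2 ⟨he₂, hz2⟩, hne⟩
  omega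
-- END corner_loc

-- BEGIN wit_seg
private theorem wit_seg_edge (hn : 3 ≤ n) (e : Fin n × Fin n) (i : Fin n) : ∃ e' ∈ Ed n, e' ≠ e ∧ (e'.1 = i ∨ e'.2 = i) := by
  -- two other vertices give two edges at `i`
  obtain ⟨k, k', hk, hk', hkk⟩ : ∃ k k' : Fin n, k ≠ i ∧ k' ≠ i ∧ k ≠ k' := by
    rcases Nat.lt_or_ge i.val 1 with h | h
    · exact ⟨⟨1, by omega⟩, ⟨2, by omega⟩, fun h' => by rw [← h'] at h; simp at h, fun h' => by rw [← h'] at h; simp at h, by simp⟩
    · rcases Nat.lt_or_ge i.val 2 with h2 | h2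
      · exact ⟨⟨0, by omega⟩, ⟨2, by omega⟩, fun h' => by rw [← h'] at h; simp at h, fun h' => by rw [← h'] at h2; simp at h2, by simp⟩
      · exact ⟨⟨0, by omega⟩, ⟨1, by omega⟩, fun h' => by rw [← h'] at h2; simp at h2, fun h' => by rw [← h'] at h2; simp at h2, by simp⟩
  have key : ∀ k : Fin n, k ≠ i → ∃ e' ∈ Ed n, (e' = (i, k) ∨ e' = (k, i)) := by
    intro k hk
    rcases lt_or_gt_of_ne hk with h | h
    · exact ⟨(k, i), mem_Ed.2 h, Or.inr rfl⟩
    · exact ⟨(i, k), mem_Ed.2 h, Or.inl rfl⟩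
  obtain ⟨a, ha, ha'⟩ := key k hk
  obtain ⟨b, hb, hb'⟩ := key k' hk'
  have hab : a ≠ b := by
    intro h
    rw [← h] at hb'
    rcases ha' with h1 | h1 <;> rcases hb' with h2 | h2
    · rw [h1] at h2
      exact hkk (congrArg Prod.snd h2)
    · rw [h1] at h2
      exact hk' (congrArg Prod.fst h2).symm
    · rw [h1] at h2
      exact hk (congrArg Prod.fst h2)
    · rw [h1] at h2
      exact hkk (congrArg Prod.fst h2)
  have hi : ∀ c : Fin n × Fin n, ∀ m : Fin n, (c = (i, m) ∨ c = (m, i)) → (c.1 = i ∨ c.2 = i) := by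
    rintro c m (rfl | rfl)
    · exact Or.inl rfl
    · exact Or.inr rfl
  by_cases hae : a = e
  · exact ⟨b, hb, fun h => hab (by rw [hae, h]), hi b k' hb'⟩
  · exact ⟨a, ha, hae, hi a k ha'⟩

/-- D3. The witness of a side is inside the edge: `x` is in the closed polygon (`e` itself: `0`), `seg`; `x ≠ v e.1`, `x ≠ v e.2`: another edge through that vertex is `0` there (`n ≥ 3`; `ln_fst`, `ln_snd`, `sl_zero`) and positive at `x`. -/
theorem wit_seg (hn : 3 ≤ n) (hv : Ccw v) (S : Finset (Fin n × Fin n)) (hS : S ∈ cells v) (e : Fin n × Fin n) (he : e ∈ Ed n)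
    (x : ℝ × ℝ) (hx : ev (ln v e) x = 0) (hp : ∀ e' ∈ Ed n, e' ≠ e → 0 < ev (sl v S e') x) : x ∈ openSegment ℝ (v e.1) (v e.2) := by
  have hne : ∀ i : Fin n, v i ≠ x := by
    intro i h
    obtain ⟨e', he', h1, h2⟩ := wit_seg_edge hn e i
    have h3 := hp e' he' h1
    have h4 : ev (ln v e') x = 0 := by
      rw [← h]
      rcases h2 with h2 | h2
      · rw [← h2]
        exact ln_fst v e'
      · rw [← h2]
        exact ln_snd v e'
    exact h3.ne' (sl_zero.2 h4)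
  apply mem_openSegment_of_ne_left_right (hne e.1) (hne e.2)
  apply seg hn hv e he x hx
  intro h hh
  by_cases h1 : h = e
  · rw [h1, hx]
  · have h2 := hp h (Hu_sub hh) h1
    rw [sl_mem (hull_sub S hS hh)] at h2
    exact h2.le
-- END wit_seg

-- BEGIN dir_eq
/-- D4. For `s = min t t'`: `ev (sl v S e') (X + s • d) > 0` (convex combination of the value `≥ 0` at `X` and the value `> 0` at `X + t • d`), the same for `S'`; so `e' ∈ S ↔ e' ∈ S'` (`sl_pos`) for all `e' ∈ Ed n`, `e' ≠ e`; `S, S' ⊆ Ed n`. -/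
theorem dir_eq (S S' : Finset (Fin n × Fin n)) (hS : S ∈ cells v) (hS' : S' ∈ cells v) (e : Fin n × Fin n) (X d : ℝ × ℝ)
    (hX : X ∈ cl (Ed n) (sl v S)) (hX' : X ∈ cl (Ed n) (sl v S')) (t t' : ℝ) (ht : 0 < t) (ht' : 0 < t')
    (hp : ∀ e' ∈ Ed n, e' ≠ e → 0 < ev (sl v S e') (X + t • d)) (hp' : ∀ e' ∈ Ed n, e' ≠ e → 0 < ev (sl v S' e') (X + t' • d)) :
    S.erase e = S'.erase e := by
  have key : ∀ (T : Finset (Fin n × Fin n)) (_ : X ∈ cl (Ed n) (sl v T)) (τ s : ℝ) (_ : 0 < τ) (_ : 0 < s) (_ : s ≤ τ),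
      (∀ e' ∈ Ed n, e' ≠ e → 0 < ev (sl v T e') (X + τ • d)) → ∀ e' ∈ Ed n, e' ≠ e → 0 < ev (sl v T e') (X + s • d) := by
    intro T hT τ s hτ hs hsτ h e' he' hne
    have h1 := h e' he' hne
    have h2 := hT e' he'
    rw [ev_add] at h1 ⊢
    by_cases hb : 0 ≤ lin (sl v T e') d
    · rcases h2.eq_or_lt with h3 | h3
      · have h4 : 0 < lin (sl v T e') d := by
          rcases hb.eq_or_lt with h5 | h5
          · rw [← h3, ← h5, mul_zero, add_zero] at h1
            exact absurd h1 (lt_irrefl 0)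
          · exact h5
        have h5 := mul_pos hs h4
        linarith
      · have h5 := mul_nonneg hs.le hb
        linarith
    · have hb' := not_le.1 hb
      have h5 : τ * lin (sl v T e') d ≤ s * lin (sl v T e') d := mul_le_mul_of_nonpos_right hsτ hb'.le
      linarith
  obtain ⟨s, hs⟩ : ∃ s, s = min t t' := ⟨_, rfl⟩
  have hs0 : 0 < s := by
    rw [hs]
    exact lt_min ht ht'
  have k1 := key S hX t s ht hs0 (by rw [hs]; exact min_le_left _ _) hp
  have k2 := key S' hX' t' s ht' hs0 (by rw [hs]; exact min_le_right _ _) hp'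
  have sub1 := (mem_cells.1 hS).1
  have sub2 := (mem_cells.1 hS').1
  ext a
  rw [Finset.mem_erase, Finset.mem_erase]
  constructor
  · rintro ⟨h1, h2⟩
    have h3 := sub1 h2
    exact ⟨h1, (sl_pos.1 (k2 a h3 h1)).2.2 ((sl_pos.1 (k1 a h3 h1)).2.1 h2)⟩
  · rintro ⟨h1, h2⟩
    have h3 := sub2 h2
    exact ⟨h1, (sl_pos.1 (k1 a h3 h1)).2.2 ((sl_pos.1 (k2 a h3 h1)).2.1 h2)⟩
-- END dir_eq

-- BEGIN dir_two
open Classical in
/-- D5. `dir_eq`: all these `S` have the same `S.erase e`, so there are at most two. -/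
theorem dir_two (e : Fin n × Fin n) (X d : ℝ × ℝ) :
    ((cells v).filter (fun S => X ∈ cl (Ed n) (sl v S) ∧ ∃ t : ℝ, 0 < t ∧ ∀ e' ∈ Ed n, e' ≠ e → 0 < ev (sl v S e') (X + t • d))).card ≤ 2 := by
  obtain ⟨F, hF⟩ : ∃ F, F = ((cells v).filter (fun S => X ∈ cl (Ed n) (sl v S) ∧
      ∃ t : ℝ, 0 < t ∧ ∀ e' ∈ Ed n, e' ≠ e → 0 < ev (sl v S e') (X + t • d))) := ⟨_, rfl⟩
  rw [← hF]
  rcases F.eq_empty_or_nonempty with h | ⟨S0, h0⟩
  · rw [h, Finset.card_empty]
    exact Nat.zero_le 2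
  · have h1 : F ⊆ {S0.erase e, insert e (S0.erase e)} := by
      intro S hS
      rw [hF, Finset.mem_filter] at hS h0
      obtain ⟨a1, a2, t, a3, a4⟩ := hS
      obtain ⟨b1, b2, t', b3, b4⟩ := h0
      have h2 := dir_eq S S0 a1 b1 e X d a2 b2 t t' a3 b3 a4 b4
      rw [Finset.mem_insert, Finset.mem_singleton, ← h2]
      by_cases h3 : e ∈ S
      · right
        exact (Finset.insert_erase h3).symm
      · left
        exact (Finset.erase_eq_of_notMem h3).symm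
    exact (Finset.card_le_card h1).trans Finset.card_le_two
-- END dir_two

-- BEGIN left_end
/-- D6. `end_at` (with `cell_poly`) for `d = v e.1 - v e.2` gives `q` and a side `e'` through `q` with `lin (sl v S e') d < 0`; `q ∈ Cor`, `corner_loc`. Witness `x` of the side: `x - q = τ • d` (`par`), `ev (sl v S e') x > 0` gives `τ < 0`, so `x = q + t • (v e.2 - v e.1)`, `t > 0`.
`q = v e.2` is impossible (`wit_seg`: `x` between `v e.1` and `v e.2`). -/
theorem left_end (hn : 3 ≤ n) (hv : Ccw v) (S : Finset (Fin n × Fin n)) (hS : S ∈ cells v) (e : Fin n × Fin n) (he : Wall (Ed n) (sl v S) e) :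
    ∃ q ∈ cl (Ed n) (sl v S), (q = v e.1 ∨ (e ∈ Dg n ∧ q ∈ Om v ∧ ev (ln v e) q = 0)) ∧
      ∃ t : ℝ, 0 < t ∧ ∀ e' ∈ Ed n, e' ≠ e → 0 < ev (sl v S e') (q + t • (v e.2 - v e.1)) := by
  have H := cell_poly hn hv S hS
  have heE : e ∈ Ed n := he.1
  have hd : v e.1 - v e.2 ≠ 0 := by
    intro h
    have h1 : v e.1 = v e.2 := sub_eq_zero.1 h
    obtain ⟨d, h2⟩ := nz_ed hn hv e heE
    apply h2
    unfold ln lf lin
    rw [h1]
    split_ifs <;> simp
  have hde : lin (sl v S e) (v e.1 - v e.2) = 0 := by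
    rw [lin_sub, sl_zero.2 (ln_fst v e), sl_zero.2 (ln_snd v e), sub_zero]
  obtain ⟨q, e', hq, hqe, he', hne, hqe', hlt⟩ := end_at H e he (v e.1 - v e.2) hd hde
  have hqC : q ∈ Cor (Ed n) (sl v S) := ⟨hq, e, heE, e', he'.1, hne.symm, hqe, hqe'⟩
  have hqe0 : ev (ln v e) q = 0 := sl_zero.1 hqe
  obtain ⟨x, hx, hxp⟩ := he.2
  have hx0 : ev (ln v e) x = 0 := sl_zero.1 hx
  obtain ⟨τ, hτ⟩ := par (ln v e) (nz_ed hn hv e heE) (v e.1 - v e.2) (x - q) hd
    (by rw [lin_sub, ln_fst, ln_snd, sub_zero]) (by rw [lin_sub, hx0, hqe0, sub_zero])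
  have hx1 : x = q + τ • (v e.1 - v e.2) := by
    rw [← hτ]
    abel
  have hxe' := hxp e' he'.1 hne
  rw [hx1, ev_add, hqe', zero_add] at hxe'
  have hτ0 : τ < 0 := by
    by_contra h
    have h1 := mul_nonpos_of_nonneg_of_nonpos (not_lt.1 h) hlt.le
    linarith
  have hx2 : x = q + (-τ) • (v e.2 - v e.1) := by
    rw [hx1]
    module
  refine ⟨q, hq, ?_, -τ, by linarith, fun e'' h1 h2 => by rw [← hx2]; exact hxp e'' h1 h2⟩
  rcases corner_loc hn hv S hS e heE q hqC hqe0 with h | h | h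
  · left
    exact h
  · exfalso
    obtain ⟨a, b, ha, hb, hab, h4⟩ := wit_seg hn hv S hS e heE x hx0 hxp
    have h5 : (a - τ) • (v e.1 - v e.2) = 0 := by
      have hb' : b = 1 - a := by linarith
      subst hb'
      have h6 : a • v e.1 + (1 - a) • v e.2 = v e.2 + τ • (v e.1 - v e.2) := by rw [h4, hx1, h]
      have h7 : (a - τ) • (v e.1 - v e.2) = (a • v e.1 + (1 - a) • v e.2) - (v e.2 + τ • (v e.1 - v e.2)) := by module
      rw [h7, h6, sub_self]
    rcases smul_eq_zero.1 h5 with h6 | h6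
    · linarith
    · exact hd h6
  · right
    exact ⟨h.1, h.2, hqe0⟩
-- END left_end

-- BEGIN dart_dg
open Classical in
/-- D7. `left_end`: the `S` are in the union over `q ∈ insert (v e.1) (Om on e)` of the sets of `dir_two`. -/
theorem dart_dg (hn : 3 ≤ n) (hv : Ccw v) (e : Fin n × Fin n) (he : e ∈ Ed n) :
    ((cells v).filter (fun S => Wall (Ed n) (sl v S) e)).card ≤ 2 * (1 + ((Om v).filter (fun p => ev (ln v e) p = 0)).card) := by
  have h1 : (cells v).filter (fun S => Wall (Ed n) (sl v S) e) ⊆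
      (insert (v e.1) ((Om v).filter (fun p => ev (ln v e) p = 0))).biUnion (fun q => (cells v).filter (fun S => q ∈ cl (Ed n) (sl v S) ∧
        ∃ t : ℝ, 0 < t ∧ ∀ e' ∈ Ed n, e' ≠ e → 0 < ev (sl v S e') (q + t • (v e.2 - v e.1)))) := by
    intro S hS
    rw [Finset.mem_filter] at hS
    obtain ⟨q, hq, hq1, ht⟩ := left_end hn hv S hS.1 e hS.2
    rw [Finset.mem_biUnion]
    refine ⟨q, ?_, Finset.mem_filter.2 ⟨hS.1, hq, ht⟩⟩
    rcases hq1 with h | h
    · rw [h]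
      exact Finset.mem_insert_self _ _
    · exact Finset.mem_insert_of_mem (Finset.mem_filter.2 ⟨h.2.1, h.2.2⟩)
  have h2 := Finset.card_le_card h1
  have h3 := Finset.card_biUnion_le_card_mul (insert (v e.1) ((Om v).filter (fun p => ev (ln v e) p = 0)))
    (fun q => (cells v).filter (fun S => q ∈ cl (Ed n) (sl v S) ∧
        ∃ t : ℝ, 0 < t ∧ ∀ e' ∈ Ed n, e' ≠ e → 0 < ev (sl v S e') (q + t • (v e.2 - v e.1)))) 2 (fun q _ => dir_two e q (v e.2 - v e.1))
  have h4 := Finset.card_insert_le (v e.1) ((Om v).filter (fun p => ev (ln v e) p = 0))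
  omega
-- END dart_dg

-- BEGIN dart_hu
open Classical in
/-- D8. `left_end`: `q = v e.1` (`e ∉ Dg n`), so `dir_eq` for any two; `e ∈ S` (`hull_sub`). -/
theorem dart_hu (hn : 3 ≤ n) (hv : Ccw v) (e : Fin n × Fin n) (he : e ∈ Hu n) :
    ((cells v).filter (fun S => Wall (Ed n) (sl v S) e)).card ≤ 1 := by
  rw [Finset.card_le_one]
  intro S hS S' hS'
  rw [Finset.mem_filter] at hS hS'
  have hnD : e ∉ Dg n := fun h => (mem_Dg.1 h).2 he
  obtain ⟨q, hq, hq1, t, ht, htp⟩ := left_end hn hv S hS.1 e hS.2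
  obtain ⟨q', hq', hq1', t', ht', htp'⟩ := left_end hn hv S' hS'.1 e hS'.2
  have h1 : q = v e.1 := hq1.resolve_right fun h => hnD h.1
  have h2 : q' = v e.1 := hq1'.resolve_right fun h => hnD h.1
  rw [h1] at hq htp
  rw [h2] at hq' htp'
  have h3 := dir_eq S S' hS.1 hS'.1 e (v e.1) (v e.2 - v e.1) hq hq' t t' ht ht' htp htp'
  rw [← Finset.insert_erase (hull_sub S hS.1 he), h3, Finset.insert_erase (hull_sub S' hS'.1 he)]
-- END dart_hu

-- BEGIN improper
open Classical in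
/-- D9. Witness `x` (`wit_seg`): `x = v e.1 + t • (v e.2 - v e.1) = v e.2 + t' • (v e.1 - v e.2)`, `t, t' > 0`: two sets of `dir_two`. -/
theorem improper (hn : 3 ≤ n) (hv : Ccw v) (e : Fin n × Fin n) (he : e ∈ Ed n) :
    ((cells v).filter (fun S => Wall (Ed n) (sl v S) e ∧ (v e.1 ∈ cl (Ed n) (sl v S) ∨ v e.2 ∈ cl (Ed n) (sl v S)))).card ≤ 4 := by
  have h1 := dir_two (v := v) e (v e.1) (v e.2 - v e.1)
  have h2 := dir_two (v := v) e (v e.2) (v e.1 - v e.2)
  refine (Finset.card_le_card ?_).trans ((Finset.card_union_le _ _).trans (Nat.add_le_add h1 h2))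
  intro S hS
  rw [Finset.mem_filter] at hS
  obtain ⟨hSc, ⟨_, x, hx0, hx⟩, hor⟩ := hS
  rw [sl_zero] at hx0
  obtain ⟨a, b, ha, hb, hab, hxe⟩ := wit_seg hn hv S hSc e he x hx0 hx
  rw [Finset.mem_union, Finset.mem_filter, Finset.mem_filter]
  rcases hor with h | h
  · left
    refine ⟨hSc, h, b, hb, ?_⟩
    have h3 : v e.1 + b • (v e.2 - v e.1) = x := by
      rw [← hxe]
      have : a = 1 - b := by linarith
      rw [this]
      module
    rw [h3]
    exact hx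
  · right
    refine ⟨hSc, h, a, ha, ?_⟩
    have h3 : v e.2 + a • (v e.1 - v e.2) = x := by
      rw [← hxe]
      have : b = 1 - a := by linarith
      rw [this]
      module
    rw [h3]
    exact hx
-- END improper

-- BEGIN bad_at
open Classical in
/-- D10. Witness `x ≠ p` (two lines through `p`), `x = p + τ • (v e.2 - v e.1)` (`par`, `nz_ed`; both on the line `e`), `τ > 0` or `τ < 0`: two sets of `dir_two` (`d` and `-d`). -/
theorem bad_at (hn : 3 ≤ n) (hv : Ccw v) (p : ℝ × ℝ) (hp : p ∈ Om v) (e : Fin n × Fin n) (he : e ∈ Ed n) (hpe : ev (ln v e) p = 0) :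
    ((cells v).filter (fun S => Wall (Ed n) (sl v S) e ∧ p ∈ cl (Ed n) (sl v S))).card ≤ 4 := by
  have h1 := dir_two (v := v) e p (v e.2 - v e.1)
  have h2 := dir_two (v := v) e p (-(v e.2 - v e.1))
  refine (Finset.card_le_card ?_).trans ((Finset.card_union_le _ _).trans (Nat.add_le_add h1 h2))
  have hd0 : v e.2 - v e.1 ≠ 0 := by
    intro h0
    have h3 : v e.2 = v e.1 := sub_eq_zero.mp h0
    obtain ⟨d, hd⟩ := nz_ed hn hv e he
    apply hd
    have h4 : ln v e = lf (v e.1) (v e.1) := by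
      unfold ln
      split_ifs <;> rw [h3]
    rw [h4]
    simp only [lin, lf]
    ring
  have hd1 : lin (ln v e) (v e.2 - v e.1) = 0 := by
    rw [lin_sub, ln_fst, ln_snd, sub_zero]
  have hmu := ((mem_Om hn hv).mp hp).2
  have hmem : e ∈ thru v p := mem_thru.mpr ⟨he, hpe⟩
  obtain ⟨e', he', hne⟩ := Finset.exists_mem_ne (show 1 < (thru v p).card from hmu) e
  obtain ⟨he'1, he'2⟩ := mem_thru.mp he'
  intro S hS
  rw [Finset.mem_filter] at hS
  obtain ⟨hSc, ⟨_, x, hx0, hx⟩, hpc⟩ := hS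
  rw [sl_zero] at hx0
  have hxp : x - p ≠ 0 := by
    intro h0
    have h3 : x = p := sub_eq_zero.mp h0
    have h4 := hx e' he'1 hne
    rw [h3] at h4
    have h5 : ev (sl v S e') p = 0 := sl_zero.mpr he'2
    linarith
  obtain ⟨t, ht⟩ := par (ln v e) (nz_ed hn hv e he) (v e.2 - v e.1) (x - p) hd0 hd1 (by rw [lin_sub, hx0, hpe, sub_zero])
  have hxe : x = p + t • (v e.2 - v e.1) := by rw [← ht]; abel
  rw [Finset.mem_union, Finset.mem_filter, Finset.mem_filter]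
  rcases lt_trichotomy t 0 with h | h | h
  · right
    refine ⟨hSc, hpc, -t, by linarith, ?_⟩
    have h3 : p + (-t) • (-(v e.2 - v e.1)) = x := by rw [hxe, smul_neg, neg_smul, neg_neg]
    rw [h3]
    exact hx
  · exact absurd (by rw [ht, h, zero_smul]) hxp
  · left
    refine ⟨hSc, hpc, t, h, ?_⟩
    rw [← hxe]
    exact hx
-- END bad_at

-- BEGIN flip_cell
theorem flip_cell_a (S : Finset (Fin n × Fin n)) (e e' : Fin n × Fin n) (h : e' ≠ e) : sl v (symmDiff S {e}) e' = sl v S e' := by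
  have h1 : e' ∈ symmDiff S {e} ↔ e' ∈ S := by
    rw [Finset.mem_symmDiff, Finset.mem_singleton]
    tauto
  unfold sl
  by_cases h2 : e' ∈ S
  · rw [if_pos h2, if_pos (h1.2 h2)]
  · rw [if_neg h2, if_neg (fun h3 => h2 (h1.1 h3))]

theorem flip_cell_b (S : Finset (Fin n × Fin n)) (e : Fin n × Fin n) (x : ℝ × ℝ) : ev (sl v (symmDiff S {e}) e) x = -ev (sl v S e) x := by
  have h1 : e ∈ symmDiff S {e} ↔ e ∉ S := by
    rw [Finset.mem_symmDiff, Finset.mem_singleton]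
    tauto
  by_cases h2 : e ∈ S
  · rw [sl_mem h2, sl_notMem (fun h3 => (h1.1 h3) h2)]
  · rw [sl_notMem h2, sl_mem (h1.2 h2), neg_neg]

/-- D11. Witness `x ∈ Rg v` (`wit_seg`, `oseg_pos`); `w` with `lin (sl v S e) w < 0` (`nz_ed`, sign); `x' = x + s • w`, `s > 0` small (`small`): positive for the `e' ≠ e` (so in `Rg v`: the sides are among them, `hull_sub`), negative for `e`: the cell of `x'` is `symmDiff S {e}` (`mem_cells`, `sl_pos`). The same witness `x` shows the side. -/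
theorem flip_cell (hn : 3 ≤ n) (hv : Ccw v) (S : Finset (Fin n × Fin n)) (hS : S ∈ cells v) (e : Fin n × Fin n) (he : e ∈ Dg n)
    (hw : Wall (Ed n) (sl v S) e) : symmDiff S {e} ∈ cells v ∧ Wall (Ed n) (sl v (symmDiff S {e})) e := by
  obtain ⟨heE, x, hx0, hx⟩ := hw
  have heH : e ∉ Hu n := (mem_Dg.1 he).2
  have hHS := hull_sub S hS
  have hSE := (mem_cells.1 hS).1
  obtain ⟨w, hwn⟩ : ∃ w, lin (sl v S e) w < 0 := by
    obtain ⟨d, hd⟩ := nz_ed hn hv e heE
    have hd' : lin (sl v S e) d ≠ 0 := fun h => hd (sl_lin_zero.1 h)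
    rcases lt_or_gt_of_ne hd' with h | h
    · exact ⟨d, h⟩
    · exact ⟨-d, by rw [lin_neg]; linarith⟩
  obtain ⟨s, hs, hs'⟩ := small ((Ed n).erase e) (fun e' => ev (sl v S e') x) (fun e' => lin (sl v S e') w)
    (fun e' he' => hx e' (Finset.mem_of_mem_erase he') (Finset.ne_of_mem_erase he'))
  have hp : ∀ e' ∈ Ed n, e' ≠ e → 0 < ev (sl v S e') (x + s • w) := by
    intro e' he' hne
    rw [ev_add]
    exact hs' s (abs_of_pos hs).le e' (Finset.mem_erase.2 ⟨hne, he'⟩)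
  have hq : ev (sl v S e) (x + s • w) < 0 := by
    rw [ev_add, hx0, zero_add]
    exact mul_neg_of_pos_of_neg hs hwn
  refine ⟨mem_cells.2 ⟨?_, x + s • w, ?_, ?_⟩, heE, x, ?_, ?_⟩
  · intro e' he'
    rw [Finset.mem_symmDiff, Finset.mem_singleton] at he'
    rcases he' with h | h
    · exact hSE h.1
    · rw [h.1]
      exact heE
  · intro h hh
    have hne : h ≠ e := fun h1 => heH (h1 ▸ hh)
    have h1 := hp h (Hu_sub hh) hne
    rw [sl_mem (hHS hh)] at h1
    exact h1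
  · intro e' he'
    by_cases hne : e' = e
    · rw [hne, flip_cell_b]
      linarith
    · rw [flip_cell_a S e e' hne]
      exact hp e' he' hne
  · rw [flip_cell_b, hx0, neg_zero]
  · intro e' he' hne
    rw [flip_cell_a S e e' hne]
    exact hx e' he' hne
-- END flip_cell

-- BEGIN flip_sl
/-- D12. Only the sign of `e` changes. -/
theorem flip_sl (S : Finset (Fin n × Fin n)) (e : Fin n × Fin n) :
    (∀ e', e' ≠ e → sl v (symmDiff S {e}) e' = sl v S e') ∧ ∀ x, ev (sl v (symmDiff S {e}) e) x = -ev (sl v S e) x := by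
  constructor
  · intro e' he'
    have h : e' ∈ symmDiff S {e} ↔ e' ∈ S := by
      rw [Finset.mem_symmDiff, Finset.mem_singleton]
      tauto
    unfold sl
    by_cases h1 : e' ∈ S
    · rw [if_pos (h.2 h1), if_pos h1]
    · rw [if_neg (fun h2 => h1 (h.1 h2)), if_neg h1]
  · intro x
    have h : e ∈ symmDiff S {e} ↔ e ∉ S := by
      rw [Finset.mem_symmDiff, Finset.mem_singleton]
      tauto
    by_cases h1 : e ∈ S
    · rw [sl_mem h1, sl_notMem (fun h2 => h.1 h2 h1)]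
    · rw [sl_notMem h1, sl_mem (h.2 h1), neg_neg]
-- END flip_sl

-- BEGIN flip_cl
/-- D13. On the line `e` the closed cells of `S` and of `symmDiff S {e}` are equal (`flip_sl`, `sl_zero`), and so are the corners. -/
theorem flip_cl (S : Finset (Fin n × Fin n)) (e : Fin n × Fin n) (X : ℝ × ℝ) (hX : ev (ln v e) X = 0) :
    (X ∈ cl (Ed n) (sl v (symmDiff S {e})) ↔ X ∈ cl (Ed n) (sl v S)) ∧ (X ∈ Cor (Ed n) (sl v (symmDiff S {e})) ↔ X ∈ Cor (Ed n) (sl v S)) := by
  have h1 : X ∈ cl (Ed n) (sl v (symmDiff S {e})) ↔ X ∈ cl (Ed n) (sl v S) := by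
    have key : ∀ e', 0 ≤ ev (sl v (symmDiff S {e}) e') X ↔ 0 ≤ ev (sl v S e') X := by
      intro e'
      by_cases he' : e' = e
      · rw [he', (sl_zero).2 hX, (sl_zero).2 hX]
      · rw [(flip_sl S e).1 e' he']
    exact ⟨fun h e' he' => (key e').1 (h e' he'), fun h e' he' => (key e').2 (h e' he')⟩
  refine ⟨h1, ?_⟩
  unfold Cor
  simp only [Set.mem_setOf_eq, h1, sl_zero]
-- END flip_cl

-- BEGIN good_dg
/-- D14. A good dart is on a diagonal: `adj` gives a corner `X` on it, `X ∈ Om v` is in `Rg v`, where sides are positive. -/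
theorem good_dg (hn : 3 ≤ n) (hv : Ccw v) (z : Finset (Fin n × Fin n) × (Fin n × Fin n)) (hz : z ∈ dts v) (hg : gd v z) : z.2 ∈ Dg n := by
  obtain ⟨hS, hw⟩ := mem_dts.1 hz
  refine mem_Dg.2 ⟨hw.1, fun hH => ?_⟩
  obtain ⟨e₁, e₂, q₁, q₂, h1, h2, h3, h4, h5, h6, h7, h8, h9, h10, h11, h12, _, _⟩ := adj (cell_poly hn hv z.1 hS) z.2 hw
  have hq : q₁ ∈ Cor (Ed n) (sl v z.1) := ⟨h6, z.2, hw.1, e₁, h1.1, h3.symm, h9, h11⟩
  have h13 := (hg q₁ hq (sl_zero.1 h9)).1
  have h14 := ((mem_Om hn hv).1 h13).1 z.2 hH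
  rw [sl_zero.1 h9] at h14
  exact lt_irrefl _ h14
-- END good_dg

-- BEGIN flip_adj
/-- D15. `A ∈ cl`, `ev (ln v e) A = 0 = ev (ln v e₁) A` for `Adj e e₁`; `A ∈ Cor`, so `mu v A = 2` (`hg`) and `thru v A = {e, e₁}`; `A ∈ Cor (symmDiff S {e})` (`flip_cl`), `two_at` gives two sides of `symmDiff S {e}` through `A`: they are `e` and `e₁`. -/
theorem flip_adj (hn : 3 ≤ n) (hv : Ccw v) (S : Finset (Fin n × Fin n)) (e : Fin n × Fin n) (hz : (S, e) ∈ dts v) (hg : gd v (S, e))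
    (e₁ : Fin n × Fin n) (ha : Adj (Ed n) (sl v S) e e₁) : Adj (Ed n) (sl v (symmDiff S {e})) e e₁ := by
  classical
  have hd := good_dg hn hv (S, e) hz hg
  obtain ⟨hS, hw⟩ := mem_dts.1 hz
  simp only at hd hS hw
  obtain ⟨hS', hw'⟩ := flip_cell hn hv S hS e hd hw
  obtain ⟨-, h1, hne, A, hA, hA0, hA1⟩ := ha
  have hc : A ∈ Cor (Ed n) (sl v S) := ⟨hA, e, hw.1, e₁, h1.1, hne, hA0, hA1⟩
  have hA0' := sl_zero.1 hA0
  have hA1' := sl_zero.1 hA1
  obtain ⟨-, hm⟩ := hg A hc hA0'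
  have hsub : ({e, e₁} : Finset (Fin n × Fin n)) ⊆ thru v A := by
    intro x hx
    rw [Finset.mem_insert, Finset.mem_singleton] at hx
    rw [mem_thru]
    rcases hx with rfl | rfl
    · exact ⟨hw.1, hA0'⟩
    · exact ⟨h1.1, hA1'⟩
  have hth : thru v A = {e, e₁} := by
    refine (Finset.eq_of_subset_of_card_le hsub ?_).symm
    rw [Finset.card_pair hne]
    exact hm.le
  obtain ⟨hcl, hcor⟩ := flip_cl (v := v) S e A hA0'
  obtain ⟨a, b, hab, hwa, hwb, ha0, hb0, -⟩ := two_at (cell_poly hn hv _ hS') A (hcor.2 hc)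
  have hat : a ∈ thru v A := mem_thru.2 ⟨hwa.1, sl_zero.1 ha0⟩
  have hbt : b ∈ thru v A := mem_thru.2 ⟨hwb.1, sl_zero.1 hb0⟩
  rw [hth, Finset.mem_insert, Finset.mem_singleton] at hat hbt
  have hw1 : Wall (Ed n) (sl v (symmDiff S {e})) e₁ := by
    rcases hat with h | h
    · rcases hbt with h' | h'
      · exact absurd (h.trans h'.symm) hab
      · rw [← h']
        exact hwb
    · rw [← h]
      exact hwa
  exact ⟨hw', hw1, hne, A, hcl.2 hA, sl_zero.2 hA0', sl_zero.2 hA1'⟩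
-- END flip_adj

-- BEGIN good_flip
/-- D16. `good_dg`, `flip_cell`, `mem_dts`; `gd`: `flip_cl`; `PP → NN`: `flip_adj`, the lines `e₁, e₂ ≠ e` are unchanged up to nothing (`flip_sl`), the sign of `e` at `X` changes. -/
theorem good_flip (hn : 3 ≤ n) (hv : Ccw v) (z : Finset (Fin n × Fin n) × (Fin n × Fin n)) (hz : z ∈ dts v) (hg : gd v z) :
    fl z ∈ dts v ∧ gd v (fl z) ∧ (PP (Ed n) (sl v z.1) z.2 → NN (Ed n) (sl v (fl z).1) (fl z).2) := by
  obtain ⟨S, e⟩ := z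
  have hd := good_dg hn hv (S, e) hz hg
  obtain ⟨hS, hw⟩ := mem_dts.1 hz
  simp only at hd hS hw
  obtain ⟨hS', hw'⟩ := flip_cell hn hv S hS e hd hw
  refine ⟨mem_dts.2 ⟨hS', hw'⟩, ?_, ?_⟩
  · intro X hX hX0
    exact hg X ((flip_cl (v := v) S e X hX0).2.1 hX) hX0
  · rintro ⟨e₁, e₂, X, ha1, ha2, hne, h1, h2, h0⟩
    have hs := flip_sl (v := v) S e
    refine ⟨e₁, e₂, X, flip_adj hn hv S e hz hg e₁ ha1, flip_adj hn hv S e hz hg e₂ ha2, hne, ?_, ?_, ?_⟩
    · simp only [fl]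
      rw [hs.1 e₁ ha1.2.2.1.symm]
      exact h1
    · simp only [fl]
      rw [hs.1 e₂ ha2.2.2.1.symm]
      exact h2
    · simp only [fl]
      rw [hs.2 X]
      linarith
-- END good_flip

end Fiv
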