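import Pool.Agent.Fiv.Cell

/-!
# Fiv CNT: the counting
-/

set_option autoImplicit false

namespace Fiv

open Finset

variable {n : ℕ} {v : Fin n → ℝ × ℝ}

-- BEGIN pn_good
theorem pn_good_inj {m : ℕ} : Function.Injective (fl (n := m)) := by
  intro z z' h
  have h2 : (fl z).2 = (fl z').2 := by rw [h]
  have h1 : (fl z).1 = (fl z').1 := by rw [h]
  replace h2 : z.2 = z'.2 := h2
  replace h1 : symmDiff z.1 {z.2} = symmDiff z'.1 {z'.2} := h1
  rw [h2] at h1
  exact Prod.ext (symmDiff_left_injective _ h1) h2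

open Classical in
/-- E1. `fl` is injective (`symmDiff` twice) and maps the first set into the second (`good_flip`). -/
theorem pn_good (hn : 3 ≤ n) (hv : Ccw v) :
    ((dts v).filter (fun z => gd v z ∧ PP (Ed n) (sl v z.1) z.2)).card ≤ ((dts v).filter (fun z => gd v z ∧ NN (Ed n) (sl v z.1) z.2)).card := by
  refine Finset.card_le_card_of_injOn fl ?_ (fun z _ z' _ h => pn_good_inj h)
  intro z hz
  obtain ⟨h1, h2, h3⟩ := Finset.mem_filter.1 (Finset.mem_coe.1 hz)
  obtain ⟨h4, h5, h6⟩ := good_flip hn hv z h1 h2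
  exact Finset.mem_coe.2 (Finset.mem_filter.2 ⟨h4, h5, h6 h3⟩)
-- END pn_good

-- BEGIN pn_four
open Classical in
private theorem pn_four_aux (Q : Finset (Fin n × Fin n) × (Fin n × Fin n) → Prop) :
    ((dts v).filter (fun z => kk v z.1 = 4 ∧ Q z)).card =
      ∑ S ∈ (cells v).filter (fun S => kk v S = 4), ((walls (Ed n) (sl v S)).filter (fun e => Q (S, e))).card := by
  rw [Finset.card_eq_sum_card_fiberwise (f := Prod.fst) (t := (cells v).filter (fun S => kk v S = 4))]
  · refine Finset.sum_congr rfl fun S hS => ?_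
    apply Finset.card_bij (fun z _ => z.2)
    · intro z hz
      rw [mem_filter, mem_filter, mem_dts] at hz
      rw [mem_filter, mem_walls]
      obtain ⟨S', e'⟩ := z
      simp only at hz ⊢
      obtain ⟨⟨⟨h1, h2⟩, h3, h4⟩, rfl⟩ := hz
      exact ⟨h2, h4⟩
    · intro z hz w hw h
      rw [mem_filter] at hz hw
      exact Prod.ext (hz.2.trans hw.2.symm) h
    · intro e he
      rw [mem_filter, mem_walls] at he
      rw [mem_filter] at hS
      exact ⟨(S, e), mem_filter.2 ⟨mem_filter.2 ⟨mem_dts.2 ⟨hS.1, he.1⟩, hS.2, he.2⟩, rfl⟩, rfl⟩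
  · intro z hz
    rw [mem_coe, mem_filter, mem_dts] at hz
    rw [mem_coe, mem_filter]
    exact ⟨hz.1.1, hz.2.1⟩

open Classical in
/-- E2. Sum over the cells `S` with `kk v S = 4` of `quad` (`card_eq_sum_card_fiberwise` or `card_sigma`-like; `mem_walls`, `mem_dts`). -/
theorem pn_four (hn : 3 ≤ n) (hv : Ccw v) :
    ((dts v).filter (fun z => kk v z.1 = 4 ∧ NN (Ed n) (sl v z.1) z.2)).card ≤ ((dts v).filter (fun z => kk v z.1 = 4 ∧ PP (Ed n) (sl v z.1) z.2)).card := by
  rw [pn_four_aux (fun z => NN (Ed n) (sl v z.1) z.2), pn_four_aux (fun z => PP (Ed n) (sl v z.1) z.2)]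
  refine Finset.sum_le_sum fun S hS => ?_
  rw [mem_filter] at hS
  exact quad (cell_poly hn hv S hS.1) hS.2
-- END pn_four

-- BEGIN chain
private theorem chain_gen {α : Type} (D : Finset α) (k : α → ℕ) (g P N : α → Prop)
    {i1 : DecidablePred (fun z => k z = 3)} {i2 : DecidablePred (fun z => 5 ≤ k z)} {i3 : DecidablePred (fun z => ¬ g z)}
    {i4 : DecidablePred (fun z => g z ∧ P z)} {i5 : DecidablePred (fun z => g z ∧ N z)}
    {i6 : DecidablePred (fun z => k z = 4 ∧ N z)} {i7 : DecidablePred (fun z => k z = 4 ∧ P z)}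
    (h3 : ∀ z ∈ D, 3 ≤ k z) (ht : ∀ z ∈ D, k z = 3 → P z ∧ ¬ N z)
    (hg : (D.filter (fun z => g z ∧ P z)).card ≤ (D.filter (fun z => g z ∧ N z)).card)
    (hf : (D.filter (fun z => k z = 4 ∧ N z)).card ≤ (D.filter (fun z => k z = 4 ∧ P z)).card) :
    (D.filter (fun z => k z = 3)).card ≤ (D.filter (fun z => 5 ≤ k z)).card + (D.filter (fun z => ¬ g z)).card := by
  have key : (D.filter (fun z => k z = 3)).card + (D.filter (fun z => g z ∧ N z)).card + (D.filter (fun z => k z = 4 ∧ P z)).card ≤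
      (D.filter (fun z => 5 ≤ k z)).card + (D.filter (fun z => ¬ g z)).card + (D.filter (fun z => g z ∧ P z)).card +
        (D.filter (fun z => k z = 4 ∧ N z)).card := by
    simp only [Finset.card_filter]
    simp only [← Finset.sum_add_distrib]
    apply Finset.sum_le_sum
    intro z hz
    have h3' := h3 z hz
    have ht' := ht z hz
    rcases Nat.lt_or_ge 3 (k z) with h | h
    · have h0 : ¬ k z = 3 := by omega
      rcases Nat.lt_or_ge 4 (k z) with h' | h'
      · have h1 : ¬ k z = 4 := by omega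
        have h2 : 5 ≤ k z := by omega
        by_cases hgz : g z <;> by_cases hN : N z <;> by_cases hP : P z <;> simp [h0, h1, h2, hgz, hN, hP]
      · have h1 : k z = 4 := by omega
        by_cases hgz : g z <;> by_cases hN : N z <;> by_cases hP : P z <;> simp [h1, hgz, hN, hP]
    · have h0 : k z = 3 := by omega
      obtain ⟨hP, hN⟩ := ht' h0
      by_cases hgz : g z <;> simp [h0, hgz, hN, hP]
  omega

open Classical in
/-- E3. `T` = darts with `kk = 3` (all `PP`, none `NN`: `tri`), `Q` = darts with `kk = 4`, `K` = darts with `5 ≤ kk` (`three_le`). `|T ∩ gd| + |Q ∩ gd ∩ PP| ≤ |gd ∩ PP| ≤ |gd ∩ NN| ≤ |Q ∩ gd ∩ NN| + |K ∩ gd|` (`pn_good`),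
`|Q ∩ gd ∩ NN| ≤ |Q ∩ NN| ≤ |Q ∩ PP| ≤ |Q ∩ gd ∩ PP| + |Q ∩ ¬gd|` (`pn_four`): `|T| ≤ |K| + |Q ∩ ¬gd| + |T ∩ ¬gd| ≤ |K| + |¬gd|`. -/
theorem chain (hn : 3 ≤ n) (hv : Ccw v) :
    ((dts v).filter (fun z => kk v z.1 = 3)).card ≤ ((dts v).filter (fun z => 5 ≤ kk v z.1)).card + ((dts v).filter (fun z => ¬ gd v z)).card := by
  refine chain_gen (dts v) (fun z => kk v z.1) (gd v) (fun z => PP (Ed n) (sl v z.1) z.2) (fun z => NN (Ed n) (sl v z.1) z.2)
    (fun z hz => three_le (cell_poly hn hv z.1 (mem_dts.1 hz).1))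
    (fun z hz h => tri (cell_poly hn hv z.1 (mem_dts.1 hz).1) h z.2 (mem_dts.1 hz).2)
    (pn_good hn hv) (pn_four hn hv)
-- END chain

-- BEGIN dts_sum
open Classical in
/-- E4. Darts are counted cell by cell: the darts of `S` are `walls (Ed n) (sl v S)` (`mem_walls`, `mem_dts`). -/
theorem dts_sum (P : ℕ → Prop) : ((dts v).filter (fun z => P (kk v z.1))).card = ∑ S ∈ (cells v).filter (fun S => P (kk v S)), kk v S := by
  rw [Finset.card_eq_sum_card_fiberwise (f := Prod.fst) (t := (cells v).filter (fun S => P (kk v S)))]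
  · refine Finset.sum_congr rfl fun S hS => ?_
    have h1 : kk v S = (walls (Ed n) (sl v S)).card := rfl
    rw [h1]
    apply Finset.card_bij (fun z _ => z.2)
    · intro z hz
      rw [mem_filter, mem_filter, mem_dts] at hz
      rw [mem_walls, ← hz.2]
      exact hz.1.1.2
    · intro z hz w hw h
      rw [mem_filter] at hz hw
      exact Prod.ext (hz.2.trans hw.2.symm) h
    · intro e he
      rw [mem_walls] at he
      rw [mem_filter] at hS
      exact ⟨(S, e), mem_filter.2 ⟨mem_filter.2 ⟨mem_dts.2 ⟨hS.1, he⟩, hS.2⟩, rfl⟩, rfl⟩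
  · intro z hz
    rw [mem_coe, mem_filter, mem_dts] at hz
    rw [mem_coe, mem_filter]
    exact ⟨hz.1.1, hz.2⟩
-- END dts_sum

-- BEGIN dts_line
open Classical in
/-- E5. Darts are counted edge by edge. -/
theorem dts_line (P : Finset (Fin n × Fin n) × (Fin n × Fin n) → Prop) :
    ((dts v).filter P).card = ∑ e ∈ Ed n, ((cells v).filter (fun S => Wall (Ed n) (sl v S) e ∧ P (S, e))).card := by
  rw [Finset.card_eq_sum_card_fiberwise (f := Prod.snd) (t := Ed n)]
  · refine Finset.sum_congr rfl fun e _ => ?_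
    apply Finset.card_bij (fun z _ => z.1)
    · intro z hz
      rw [mem_filter, mem_filter, mem_dts] at hz
      rw [mem_filter]
      obtain ⟨S, e'⟩ := z
      simp only at hz ⊢
      obtain ⟨⟨⟨h1, h2⟩, h3⟩, rfl⟩ := hz
      exact ⟨h1, h2, h3⟩
    · intro z hz w hw h
      rw [mem_filter] at hz hw
      exact Prod.ext h (hz.2.trans hw.2.symm)
    · intro S hS
      rw [mem_filter] at hS
      exact ⟨(S, e), mem_filter.2 ⟨mem_filter.2 ⟨mem_dts.2 ⟨hS.1, hS.2.1⟩, hS.2.2⟩, rfl⟩, rfl⟩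
  · intro z hz
    rw [mem_coe, mem_filter, mem_dts] at hz
    exact hz.1.2.1
-- END dts_line

-- BEGIN flags
open Classical in
/-- E6. Double counting of the pairs `p ∈ O`, `e ∈ Ed n`, `ev (ln v e) p = 0` (`Finset.sum_card_bipartiteAbove_eq_sum_card_bipartiteBelow` or `sum_comm` of indicators; `mu`, `thru`). -/
theorem flags (O : Finset (ℝ × ℝ)) : ∑ e ∈ Ed n, (O.filter (fun p => ev (ln v e) p = 0)).card = ∑ p ∈ O, mu v p := by
  have h1 : ∀ p, mu v p = ∑ e ∈ Ed n, if ev (ln v e) p = 0 then 1 else 0 := by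
    intro p
    rw [← Finset.card_filter]
    unfold mu thru
    congr 1
  simp only [h1, Finset.card_filter]
  exact Finset.sum_comm
-- END flags

-- BEGIN wall_count
/-- E7. `dts_sum` (`P = True`), `dts_line`, `Ed n = Dg n ∪ Hu n`, `dart_dg`, `dart_hu`, `card_Hu`, `flags` with `O = Om v` (for `e ∈ Hu n` the set is empty or drop it: the sum over `Dg n` is at most the sum over `Ed n`). -/
theorem wall_count (hn : 3 ≤ n) (hv : Ccw v) : ∑ S ∈ cells v, kk v S ≤ 2 * (Dg n).card + 2 * ∑ p ∈ Om v, mu v p + n := by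
  classical
  have h1 : ∑ S ∈ cells v, kk v S = (dts v).card := by
    have h2 := dts_sum (v := v) (fun _ => True)
    simp only [Finset.filter_true] at h2
    exact h2.symm
  have h2 : (dts v).card = ∑ e ∈ Ed n, ((cells v).filter (fun S => Wall (Ed n) (sl v S) e)).card := by
    have h3 := dts_line (v := v) (fun _ => True)
    simp only [Finset.filter_true, and_true] at h3
    rw [h3]
  have h3 : ∑ e ∈ Ed n, ((cells v).filter (fun S => Wall (Ed n) (sl v S) e)).card =
      ∑ e ∈ Dg n, ((cells v).filter (fun S => Wall (Ed n) (sl v S) e)).card +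
        ∑ e ∈ Hu n, ((cells v).filter (fun S => Wall (Ed n) (sl v S) e)).card := by
    rw [Dg, Finset.sum_sdiff Hu_sub]
  have h4 : ∑ e ∈ Hu n, ((cells v).filter (fun S => Wall (Ed n) (sl v S) e)).card ≤ n := by
    calc ∑ e ∈ Hu n, ((cells v).filter (fun S => Wall (Ed n) (sl v S) e)).card ≤ ∑ _e ∈ Hu n, 1 :=
          Finset.sum_le_sum fun e he => dart_hu hn hv e he
      _ = n := by rw [Finset.sum_const, smul_eq_mul, mul_one, card_Hu hn]
  have h5 : ∑ e ∈ Dg n, ((cells v).filter (fun S => Wall (Ed n) (sl v S) e)).card ≤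
      ∑ e ∈ Dg n, 2 * (1 + ((Om v).filter (fun p => ev (ln v e) p = 0)).card) :=
    Finset.sum_le_sum fun e he => dart_dg hn hv e (mem_Dg.1 he).1
  have h6 : ∑ e ∈ Dg n, 2 * (1 + ((Om v).filter (fun p => ev (ln v e) p = 0)).card) =
      2 * (Dg n).card + 2 * ∑ e ∈ Dg n, ((Om v).filter (fun p => ev (ln v e) p = 0)).card := by
    rw [← Finset.mul_sum, Finset.sum_add_distrib, Finset.sum_const, smul_eq_mul, mul_one, mul_add]
  have h7 : ∑ e ∈ Dg n, ((Om v).filter (fun p => ev (ln v e) p = 0)).card ≤ ∑ p ∈ Om v, mu v p := by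
    rw [← flags]
    exact Finset.sum_le_sum_of_subset (fun e he => (mem_Dg.1 he).1)
  omega
-- END wall_count

-- BEGIN bad_count
open Classical in
/-- E8. A dart `(S, e)` which is not good has a corner `X` on `e` with not (`X ∈ Om v` and `mu v X = 2`): by `corner_loc` `X = v e.1` or `v e.2` (at most `4` for each diagonal by `improper`, at most `1` for each side by `dart_hu`), or `X ∈ Om v`, `3 ≤ mu v X` (at most `4` for each such `X` and each `e ∈ thru v X`: `bad_at`).
`dts_line`: for `e ∈ Dg n` the number is at most `4 + ∑ over the p ∈ Om v with 3 ≤ mu v p on e of 4`; `flags` with `O = (Om v).filter (3 ≤ mu)`. -/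
theorem bad_count (hn : 3 ≤ n) (hv : Ccw v) :
    ((dts v).filter (fun z => ¬ gd v z)).card ≤ 4 * (Dg n).card + n + 4 * ∑ p ∈ (Om v).filter (fun p => 3 ≤ mu v p), mu v p := by
  set O : Finset (ℝ × ℝ) := (Om v).filter (fun p => 3 ≤ mu v p) with hO
  have h0 : ((dts v).filter (fun z => ¬ gd v z)).card =
      ∑ e ∈ Ed n, ((cells v).filter (fun S => Wall (Ed n) (sl v S) e ∧ ¬ gd v (S, e))).card := by
    convert dts_line (v := v) (fun z => ¬ gd v z)
  rw [h0]
  have hsplit : Ed n = Dg n ∪ Hu n := by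
    unfold Dg
    rw [Finset.sdiff_union_of_subset Hu_sub]
  have hdisj : Disjoint (Dg n) (Hu n) := by
    unfold Dg
    exact Finset.sdiff_disjoint
  rw [hsplit, Finset.sum_union hdisj]
  have hH : ∑ e ∈ Hu n, ((cells v).filter (fun S => Wall (Dg n ∪ Hu n) (sl v S) e ∧ ¬ gd v (S, e))).card ≤ n := by
    calc ∑ e ∈ Hu n, ((cells v).filter (fun S => Wall (Dg n ∪ Hu n) (sl v S) e ∧ ¬ gd v (S, e))).card
        ≤ ∑ e ∈ Hu n, 1 := by
          refine Finset.sum_le_sum fun e he => ?_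
          rw [← hsplit]
          refine (Finset.card_le_card ?_).trans (dart_hu hn hv e he)
          intro S hS
          rw [Finset.mem_filter] at hS ⊢
          exact ⟨hS.1, hS.2.1⟩
      _ = n := by rw [Finset.sum_const, card_Hu hn, smul_eq_mul, mul_one]
  have hD : ∑ e ∈ Dg n, ((cells v).filter (fun S => Wall (Dg n ∪ Hu n) (sl v S) e ∧ ¬ gd v (S, e))).card
      ≤ 4 * (Dg n).card + 4 * ∑ p ∈ O, mu v p := by
    calc ∑ e ∈ Dg n, ((cells v).filter (fun S => Wall (Dg n ∪ Hu n) (sl v S) e ∧ ¬ gd v (S, e))).card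
        ≤ ∑ e ∈ Dg n, (4 + 4 * (O.filter (fun p => ev (ln v e) p = 0)).card) := by
          refine Finset.sum_le_sum fun e he => ?_
          have heE : e ∈ Ed n := (mem_Dg.mp he).1
          rw [← hsplit]
          have h1 := improper hn hv e heE
          have h2 : ((O.filter (fun p => ev (ln v e) p = 0)).biUnion
              (fun p => (cells v).filter (fun S => Wall (Ed n) (sl v S) e ∧ p ∈ cl (Ed n) (sl v S)))).card
              ≤ 4 * (O.filter (fun p => ev (ln v e) p = 0)).card := by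
            refine Finset.card_biUnion_le.trans ?_
            rw [mul_comm, ← smul_eq_mul]
            apply Finset.sum_le_card_nsmul
            intro p hp
            rw [Finset.mem_filter] at hp
            have hpO := hp.1
            rw [hO, Finset.mem_filter] at hpO
            exact bad_at hn hv p hpO.1 e heE hp.2
          refine (Finset.card_le_card ?_).trans ((Finset.card_union_le _ _).trans (Nat.add_le_add h1 h2))
          intro S hS
          rw [Finset.mem_filter] at hS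
          obtain ⟨hSc, hW, hg⟩ := hS
          unfold gd at hg
          push Not at hg
          obtain ⟨X, hX, hXe, hXn⟩ := hg
          rw [Finset.mem_union]
          rcases corner_loc hn hv S hSc e heE X hX hXe with h | h | h
          · left
            rw [Finset.mem_filter]
            exact ⟨hSc, hW, Or.inl (h ▸ hX.1)⟩
          · left
            rw [Finset.mem_filter]
            exact ⟨hSc, hW, Or.inr (h ▸ hX.1)⟩
          · right
            rw [Finset.mem_biUnion]
            refine ⟨X, ?_, ?_⟩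
            · rw [Finset.mem_filter, hO, Finset.mem_filter]
              have h3 := ((mem_Om hn hv).mp h.2).2
              have h4 := hXn h.2
              exact ⟨⟨h.2, by omega⟩, hXe⟩
            · rw [Finset.mem_filter]
              exact ⟨hSc, hW, hX.1⟩
      _ = 4 * (Dg n).card + 4 * ∑ e ∈ Dg n, (O.filter (fun p => ev (ln v e) p = 0)).card := by
          rw [Finset.sum_add_distrib, Finset.sum_const, smul_eq_mul, mul_comm (Dg n).card 4, ← Finset.mul_sum]
      _ ≤ 4 * (Dg n).card + 4 * ∑ p ∈ O, mu v p := by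
          rw [← flags O]
          gcongr
          unfold Dg
          exact Finset.sdiff_subset
  omega
-- END bad_count

-- BEGIN cell_lower
/-- E9. `cell_count` with `R = Rg v`, `D = A = Dg n`, `O = Om v` (`Rg_open`, `Rg_ne`, `nz_ed`, `cr_ed`, `dg_meets`, `mem_Om`) and `pat_mono` with `B = Hu n` (`Dg n ∪ Hu n = Ed n`); for `p ∈ Rg v` all edges through `p` are diagonals: `mu v p = ((Dg n).filter ..).card`. -/
theorem cell_lower (hn : 3 ≤ n) (hv : Ccw v) : 1 + (Dg n).card + ∑ p ∈ Om v, (mu v p - 1) ≤ (cells v).card := by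
  classical
  have hDE : ∀ e ∈ Dg n, e ∈ Ed n := fun e he => (mem_Dg.mp he).1
  have h1 := cell_count (ln v) (Rg v) (Rg_open v) (Rg_ne hn hv) (Dg n) (fun e he => nz_ed hn hv e (hDE e he))
    (fun e he e' he' hne x h1 h2 d h3 h4 => cr_ed hn hv e (hDE e he) e' (hDE e' he') hne x h1 h2 d h3 h4)
    (Om v) (fun p hp => ((mem_Om hn hv).mp hp).1) (fun e he => dg_meets hn hv e he) (Dg n) (Finset.Subset.refl _)
  have h2 := pat_mono (ln v) (Rg v) (Dg n) (Hu n) (fun e he x hx => (hx e he).ne')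
  have hsplit : Dg n ∪ Hu n = Ed n := by
    unfold Dg
    rw [Finset.sdiff_union_of_subset Hu_sub]
  rw [hsplit] at h2
  have h3 : ∑ p ∈ Om v, (mu v p - 1) = ∑ p ∈ Om v, (((Dg n).filter (fun e => ev (ln v e) p = 0)).card - 1) := by
    refine Finset.sum_congr rfl fun p hp => ?_
    have hpR := ((mem_Om hn hv).mp hp).1
    congr 1
    unfold mu
    congr 1
    ext e
    rw [mem_thru, Finset.mem_filter, mem_Dg]
    constructor
    · rintro ⟨h4, h5⟩
      exact ⟨⟨h4, fun h6 => (hpR e h6).ne' h5⟩, h5⟩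
    · rintro ⟨⟨h4, _⟩, h5⟩
      exact ⟨h4, h5⟩
  rw [h3]
  refine le_trans ?_ (h2.trans_eq ?_)
  · convert h1
  · rfl
-- END cell_lower

-- BEGIN per_cell
open Classical in
/-- E10. `∑_S (12 - 3 k_S) = 3 f₃ + ∑_(k ≥ 5) (12 - 3 k)` (`three_le` with `cell_poly`), `3 f₃` = number of darts with `kk = 3` (`dts_sum`), at most `∑_(k ≥ 5) k + (number of darts that are not good)` (`chain`, `dts_sum`); `12 - 2 k ≤ 2` for `k = 5` and `≤ 0` for `k ≥ 6`. -/
theorem per_cell (hn : 3 ≤ n) (hv : Ccw v) :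
    ∑ S ∈ cells v, (12 - 3 * (kk v S : ℤ)) ≤
      2 * (((cells v).filter (fun S => kk v S = 5)).card : ℤ) + (((dts v).filter (fun z => ¬ gd v z)).card : ℤ) := by
  have h3 : ∀ S ∈ cells v, (12 - 3 * (kk v S : ℤ)) ≤
      2 * (if kk v S = 5 then (1 : ℤ) else 0) + (if kk v S = 3 then (kk v S : ℤ) else 0) -
        (if 5 ≤ kk v S then (kk v S : ℤ) else 0) := by
    intro S hS
    have h4 : 3 ≤ kk v S := three_le (cell_poly hn hv S hS)
    rcases (by omega : kk v S = 3 ∨ kk v S = 4 ∨ kk v S = 5 ∨ 6 ≤ kk v S) with h | h | h | h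
    · rw [h]
      norm_num
    · rw [h]
      norm_num
    · rw [h]
      norm_num
    · rw [if_neg (by omega), if_neg (by omega), if_pos (by omega)]
      have h5 : (6 : ℤ) ≤ (kk v S : ℤ) := by exact_mod_cast h
      linarith
  refine (Finset.sum_le_sum h3).trans ?_
  rw [Finset.sum_sub_distrib, Finset.sum_add_distrib, ← Finset.mul_sum, Finset.sum_boole, ← Finset.sum_filter,
    ← Finset.sum_filter]
  have h5 : ((dts v).filter (fun z => kk v z.1 = 3)).card =
      ∑ S ∈ (cells v).filter (fun S => kk v S = 3), kk v S := by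
    convert dts_sum (v := v) (fun k => k = 3)
  have h6 : ((dts v).filter (fun z => 5 ≤ kk v z.1)).card =
      ∑ S ∈ (cells v).filter (fun S => 5 ≤ kk v S), kk v S := by
    convert dts_sum (v := v) (fun k => 5 ≤ k)
  have h7 := chain hn hv
  rw [h5, h6] at h7
  have h8 : (∑ S ∈ (cells v).filter (fun S => kk v S = 3), (kk v S : ℤ)) ≤
      (∑ S ∈ (cells v).filter (fun S => 5 ≤ kk v S), (kk v S : ℤ)) + (((dts v).filter (fun z => ¬ gd v z)).card : ℤ) := by
    exact_mod_cast h7
  linarith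
-- END per_cell

-- BEGIN final_count
open Classical in
/-- E11. `F = (cells v).card`, `K = ∑ kk`, `D = (Dg n).card`, `M = ∑_(p ∈ Om) mu`, `V = (Om v).card`, `M₃, V₃` the same over `3 ≤ mu`: `12 F - 3 K ≤ 2 f₅ + 4 D + n + 4 M₃` (`per_cell`, `bad_count`), `F ≥ 1 + D + M - V` (`cell_lower`; `mu ≥ 2` on `Om`), `K ≤ 2 D + 2 M + n` (`wall_count`),
`2 D + 3 n = n²` (`card_Dg`), `M - 2 V = M₃ - 2 V₃` (`mu = 2` otherwise): `12 + 6 D + 6 M - 12 V - 3 n ≤ 2 f₅ + 4 D + n + 4 M₃`, that is `(n - 3)(n - 4) ≤ 2 f₅ + 12 V₃ - 2 M₃`. -/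
theorem final_count (hn : 3 ≤ n) (hv : Ccw v) :
    ((n : ℤ) - 3) * ((n : ℤ) - 4) ≤ 2 * (((cells v).filter (fun S => kk v S = 5)).card : ℤ) +
      ∑ p ∈ (Om v).filter (fun p => 3 ≤ mu v p), (12 - 2 * (mu v p : ℤ)) := by
  have h1 := per_cell hn hv
  have h2 := bad_count hn hv
  have h3 := cell_lower hn hv
  have h4 := wall_count hn hv
  have h5 := card_Dg hn
  have hmu : ∀ p ∈ Om v, 2 ≤ mu v p := fun p hp => ((mem_Om hn hv).1 hp).2
  have e1 : ∑ S ∈ cells v, (12 - 3 * (kk v S : ℤ)) = 12 * ((cells v).card : ℤ) - 3 * ((∑ S ∈ cells v, kk v S : ℕ) : ℤ) := by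
    rw [Finset.sum_sub_distrib, ← Finset.mul_sum, Finset.sum_const, nsmul_eq_mul]
    push_cast
    ring
  have e2 : ((∑ p ∈ Om v, (mu v p - 1) : ℕ) : ℤ) = ((∑ p ∈ Om v, mu v p : ℕ) : ℤ) - ((Om v).card : ℤ) := by
    rw [Finset.card_eq_sum_ones]
    push_cast
    rw [← Finset.sum_sub_distrib]
    refine Finset.sum_congr rfl fun p hp => ?_
    have := hmu p hp
    rw [Nat.cast_sub (by omega)]
    norm_num
  have e3 : ∑ p ∈ Om v, ((mu v p : ℤ) - 2) = ∑ p ∈ (Om v).filter (fun p => 3 ≤ mu v p), ((mu v p : ℤ) - 2) := by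
    rw [Finset.sum_filter]
    refine Finset.sum_congr rfl fun p hp => ?_
    split_ifs with h
    · rfl
    · have h6 : mu v p = 2 := by
        have := hmu p hp
        omega
      rw [h6]
      norm_num
  have e4 : ∑ p ∈ Om v, ((mu v p : ℤ) - 2) = ((∑ p ∈ Om v, mu v p : ℕ) : ℤ) - 2 * ((Om v).card : ℤ) := by
    rw [Finset.sum_sub_distrib, Finset.sum_const, nsmul_eq_mul]
    push_cast
    ring
  have e5 : ∑ p ∈ (Om v).filter (fun p => 3 ≤ mu v p), ((mu v p : ℤ) - 2) =
      ((∑ p ∈ (Om v).filter (fun p => 3 ≤ mu v p), mu v p : ℕ) : ℤ) - 2 * (((Om v).filter (fun p => 3 ≤ mu v p)).card : ℤ) := by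
    rw [Finset.sum_sub_distrib, Finset.sum_const, nsmul_eq_mul]
    push_cast
    ring
  have e6 : ∑ p ∈ (Om v).filter (fun p => 3 ≤ mu v p), (12 - 2 * (mu v p : ℤ)) =
      12 * (((Om v).filter (fun p => 3 ≤ mu v p)).card : ℤ) - 2 * ((∑ p ∈ (Om v).filter (fun p => 3 ≤ mu v p), mu v p : ℕ) : ℤ) := by
    rw [Finset.sum_sub_distrib, Finset.sum_const, nsmul_eq_mul, ← Finset.mul_sum]
    push_cast
    ring
  have h2' : (((dts v).filter (fun z => ¬ gd v z)).card : ℤ) ≤
      4 * ((Dg n).card : ℤ) + n + 4 * ((∑ p ∈ (Om v).filter (fun p => 3 ≤ mu v p), mu v p : ℕ) : ℤ) := by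
    exact_mod_cast h2
  have h3' : (1 : ℤ) + ((Dg n).card : ℤ) + ((∑ p ∈ Om v, (mu v p - 1) : ℕ) : ℤ) ≤ ((cells v).card : ℤ) := by
    exact_mod_cast h3
  have h4' : ((∑ S ∈ cells v, kk v S : ℕ) : ℤ) ≤ 2 * ((Dg n).card : ℤ) + 2 * ((∑ p ∈ Om v, mu v p : ℕ) : ℤ) + n := by
    exact_mod_cast h4
  have h5' : 2 * ((Dg n).card : ℤ) + 3 * (n : ℤ) = (n : ℤ) * n := by
    exact_mod_cast h5
  rw [e1] at h1
  rw [e2] at h3'
  rw [e4, e5] at e3
  rw [e6]
  nlinarith
-- END final_count

end Fiv
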