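import Pool.Agent.Fiv.Stm

/-!
# Fiv: five-sided faces in convex drawings of complete graphs. Definitions and the easy lemmas.
-/

set_option autoImplicit false

namespace Fiv

open Finset

/-- value at `x` of the affine function with coefficients `l` -/
def ev (l : ℝ × ℝ × ℝ) (x : ℝ × ℝ) : ℝ := l.1 * x.1 + l.2.1 * x.2 + l.2.2

/-- its linear part -/
def lin (l : ℝ × ℝ × ℝ) (d : ℝ × ℝ) : ℝ := l.1 * d.1 + l.2.1 * d.2

theorem ev_add (l : ℝ × ℝ × ℝ) (x d : ℝ × ℝ) (t : ℝ) : ev l (x + t • d) = ev l x + t * lin l d := by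
  simp only [ev, lin, Prod.fst_add, Prod.snd_add, Prod.smul_fst, Prod.smul_snd, smul_eq_mul]
  ring

theorem ev_comb (l : ℝ × ℝ × ℝ) (x y : ℝ × ℝ) (s t : ℝ) (h : s + t = 1) : ev l (s • x + t • y) = s * ev l x + t * ev l y := by
  have hs : s = 1 - t := by linarith
  subst hs
  simp only [ev, Prod.fst_add, Prod.snd_add, Prod.smul_fst, Prod.smul_snd, smul_eq_mul]
  ring

theorem ev_smul (c : ℝ) (l : ℝ × ℝ × ℝ) (x : ℝ × ℝ) : ev (c • l) x = c * ev l x := by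
  simp only [ev, Prod.smul_fst, Prod.smul_snd, smul_eq_mul]
  ring

theorem lin_smul (c : ℝ) (l : ℝ × ℝ × ℝ) (x : ℝ × ℝ) : lin (c • l) x = c * lin l x := by
  simp only [lin, Prod.smul_fst, Prod.smul_snd, smul_eq_mul]
  ring

theorem lin_sub (l : ℝ × ℝ × ℝ) (x y : ℝ × ℝ) : lin l (y - x) = ev l y - ev l x := by
  simp only [ev, lin, Prod.fst_sub, Prod.snd_sub]
  ring

theorem lin_neg (l : ℝ × ℝ × ℝ) (d : ℝ × ℝ) : lin l (-d) = -lin l d := by
  simp only [lin, Prod.fst_neg, Prod.snd_neg]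
  ring

theorem lin_add (l : ℝ × ℝ × ℝ) (x y : ℝ × ℝ) (t : ℝ) : lin l (x + t • y) = lin l x + t * lin l y := by
  simp only [lin, Prod.fst_add, Prod.snd_add, Prod.smul_fst, Prod.smul_snd, smul_eq_mul]
  ring

theorem ev_cont (l : ℝ × ℝ × ℝ) : Continuous (ev l) := by
  unfold ev
  fun_prop

/-- a line has a direction -/
theorem exists_dir (l : ℝ × ℝ × ℝ) (h : ∃ d, lin l d ≠ 0) : ∃ d : ℝ × ℝ, d ≠ 0 ∧ lin l d = 0 := by
  refine ⟨(-l.2.1, l.1), ?_, by simp only [lin]; ring⟩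
  obtain ⟨d, hd⟩ := h
  intro h0
  apply hd
  have h1 : -l.2.1 = 0 := congrArg Prod.fst h0
  have h2 : l.1 = 0 := congrArg Prod.snd h0
  have h3 : l.2.1 = 0 := by linarith
  simp only [lin, h2, h3]
  ring

/-- and only one -/
theorem par (l : ℝ × ℝ × ℝ) (h : ∃ d, lin l d ≠ 0) (d z : ℝ × ℝ) (hd : d ≠ 0) (h1 : lin l d = 0) (h2 : lin l z = 0) :
    ∃ t : ℝ, z = t • d := by
  obtain ⟨d', hd'⟩ := h
  simp only [lin] at h1 h2 hd'
  have h3 : d.1 * z.2 - d.2 * z.1 = 0 := by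
    by_contra h4
    have h5 : l.1 * (d.1 * z.2 - d.2 * z.1) = 0 := by linear_combination z.2 * h1 - d.2 * h2
    have h6 : l.2.1 * (d.1 * z.2 - d.2 * z.1) = 0 := by linear_combination d.1 * h2 - z.1 * h1
    have h7 := (mul_eq_zero.1 h5).resolve_right h4
    have h8 := (mul_eq_zero.1 h6).resolve_right h4
    apply hd'
    rw [h7, h8]
    ring
  have h4 : d.1 ^ 2 + d.2 ^ 2 ≠ 0 := by
    intro h5
    apply hd
    have h6 : d.1 = 0 := by nlinarith [sq_nonneg d.1, sq_nonneg d.2]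
    have h7 : d.2 = 0 := by nlinarith [sq_nonneg d.1, sq_nonneg d.2]
    exact Prod.ext h6 h7
  refine ⟨(d.1 * z.1 + d.2 * z.2) / (d.1 ^ 2 + d.2 ^ 2), ?_⟩
  apply Prod.ext
  · simp only [Prod.smul_fst, smul_eq_mul]
    field_simp
    linear_combination (-d.2) * h3
  · simp only [Prod.smul_snd, smul_eq_mul]
    field_simp
    linear_combination d.1 * h3

variable {ι : Type}

/-- finitely many positive numbers stay positive under a small change -/
theorem small (E : Finset ι) (α β : ι → ℝ) (h : ∀ e ∈ E, 0 < α e) :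
    ∃ s : ℝ, 0 < s ∧ ∀ s' : ℝ, |s'| ≤ s → ∀ e ∈ E, 0 < α e + s' * β e := by
  classical
  induction E using Finset.induction_on with
  | empty => exact ⟨1, one_pos, fun _ _ e he => absurd he (Finset.notMem_empty e)⟩
  | insert a E ha ih =>
    obtain ⟨s, hs, hs'⟩ := ih fun e he => h e (Finset.mem_insert_of_mem he)
    have ha' := h a (Finset.mem_insert_self a E)
    refine ⟨min s (α a / (2 * (|β a| + 1))), lt_min hs (by positivity), fun s' h1 e he => ?_⟩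
    rcases Finset.mem_insert.1 he with rfl | he
    · have h2 : |s'| ≤ α e / (2 * (|β e| + 1)) := h1.trans (min_le_right _ _)
      have h3 : |s' * β e| ≤ α e / 2 := by
        rw [abs_mul]
        calc |s'| * |β e| ≤ α e / (2 * (|β e| + 1)) * (|β e| + 1) :=
              mul_le_mul h2 (by linarith) (abs_nonneg _) (by positivity)
          _ = α e / 2 := by field_simp
      have h4 := (abs_le.1 h3).1
      linarith
    · exact hs' s' (h1.trans (min_le_left _ _)) e he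

/-- A bounded convex polygon with nonempty interior, given by finitely many affine inequalities whose lines are distinct. -/
structure Poly (E : Finset ι) (l : ι → ℝ × ℝ × ℝ) : Prop where
  nz : ∀ e ∈ E, ∃ d, lin (l e) d ≠ 0
  cr : ∀ e ∈ E, ∀ e' ∈ E, e ≠ e' → ∀ x, ev (l e) x = 0 → ev (l e') x = 0 → ∀ d, lin (l e) d = 0 → lin (l e') d = 0 → d = 0
  bd : ∀ d, d ≠ 0 → ∃ e ∈ E, lin (l e) d < 0
  ne : ∃ x, ∀ e ∈ E, 0 < ev (l e) x

/-- the open polygon -/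
def op (E : Finset ι) (l : ι → ℝ × ℝ × ℝ) : Set (ℝ × ℝ) := {x | ∀ e ∈ E, 0 < ev (l e) x}

/-- the closed polygon -/
def cl (E : Finset ι) (l : ι → ℝ × ℝ × ℝ) : Set (ℝ × ℝ) := {x | ∀ e ∈ E, 0 ≤ ev (l e) x}

/-- `e` is a side -/
def Wall (E : Finset ι) (l : ι → ℝ × ℝ × ℝ) (e : ι) : Prop :=
  e ∈ E ∧ ∃ x, ev (l e) x = 0 ∧ ∀ e' ∈ E, e' ≠ e → 0 < ev (l e') x

open Classical in
/-- the set of sides -/
noncomputable def walls (E : Finset ι) (l : ι → ℝ × ℝ × ℝ) : Finset ι := E.filter (fun e => Wall E l e)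

/-- the points of the closed polygon on at least two lines -/
def Cor (E : Finset ι) (l : ι → ℝ × ℝ × ℝ) : Set (ℝ × ℝ) :=
  {x | x ∈ cl E l ∧ ∃ e ∈ E, ∃ e' ∈ E, e ≠ e' ∧ ev (l e) x = 0 ∧ ev (l e') x = 0}

/-- two sides with a common corner -/
def Adj (E : Finset ι) (l : ι → ℝ × ℝ × ℝ) (e e' : ι) : Prop :=
  Wall E l e ∧ Wall E l e' ∧ e ≠ e' ∧ ∃ X ∈ cl E l, ev (l e) X = 0 ∧ ev (l e') X = 0

/-- the neighbours of the side `e` meet on the side of the polygon -/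
def PP (E : Finset ι) (l : ι → ℝ × ℝ × ℝ) (e : ι) : Prop :=
  ∃ e₁ e₂ X, Adj E l e e₁ ∧ Adj E l e e₂ ∧ e₁ ≠ e₂ ∧ ev (l e₁) X = 0 ∧ ev (l e₂) X = 0 ∧ 0 < ev (l e) X

/-- the neighbours of the side `e` meet on the other side -/
def NN (E : Finset ι) (l : ι → ℝ × ℝ × ℝ) (e : ι) : Prop :=
  ∃ e₁ e₂ X, Adj E l e e₁ ∧ Adj E l e e₂ ∧ e₁ ≠ e₂ ∧ ev (l e₁) X = 0 ∧ ev (l e₂) X = 0 ∧ ev (l e) X < 0

open Classical in
/-- the sign patterns of the lines in `A` at the points of `U` on none of these lines -/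
noncomputable def pat (l : ι → ℝ × ℝ × ℝ) (U : Set (ℝ × ℝ)) (A : Finset ι) : Finset (Finset ι) :=
  A.powerset.filter (fun T => ∃ x ∈ U, ∀ e ∈ A, ev (l e) x ≠ 0 ∧ (e ∈ T ↔ 0 < ev (l e) x))

theorem mem_walls {E : Finset ι} {l : ι → ℝ × ℝ × ℝ} {e : ι} : e ∈ walls E l ↔ Wall E l e := by
  classical
  unfold walls
  rw [Finset.mem_filter]
  exact ⟨fun h => h.2, fun h => ⟨h.1, h⟩⟩

theorem mem_pat {l : ι → ℝ × ℝ × ℝ} {U : Set (ℝ × ℝ)} {A T : Finset ι} :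
    T ∈ pat l U A ↔ T ⊆ A ∧ ∃ x ∈ U, ∀ e ∈ A, ev (l e) x ≠ 0 ∧ (e ∈ T ↔ 0 < ev (l e) x) := by
  classical
  unfold pat
  rw [Finset.mem_filter, Finset.mem_powerset]

/-! ## the drawing -/

/-- the line through `a` and `b`, positive on the left of `a → b` -/
def lf (a b : ℝ × ℝ) : ℝ × ℝ × ℝ := (a.2 - b.2, b.1 - a.1, (b.2 - a.2) * a.1 - (b.1 - a.1) * a.2)

/-- the points are the vertices of a strictly convex polygon in counterclockwise order -/
def Ccw {n : ℕ} (v : Fin n → ℝ × ℝ) : Prop := ∀ i j k : Fin n, i < j → j < k → 0 < ev (lf (v i) (v j)) (v k)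

/-- the edges of `K_n` -/
def Ed (n : ℕ) : Finset (Fin n × Fin n) := Finset.univ.filter (fun e => e.1 < e.2)

/-- the sides of the polygon -/
def Hu (n : ℕ) : Finset (Fin n × Fin n) := (Ed n).filter (fun e => e.1.val + 1 = e.2.val ∨ (e.1.val = 0 ∧ e.2.val + 1 = n))

/-- the diagonals -/
def Dg (n : ℕ) : Finset (Fin n × Fin n) := Ed n \ Hu n

/-- the line of an edge; sides are oriented so that they are positive inside -/
def ln {n : ℕ} (v : Fin n → ℝ × ℝ) (e : Fin n × Fin n) : ℝ × ℝ × ℝ :=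
  if e.1.val = 0 ∧ e.2.val + 1 = n then lf (v e.2) (v e.1) else lf (v e.1) (v e.2)

/-- the open polygon -/
def Rg {n : ℕ} (v : Fin n → ℝ × ℝ) : Set (ℝ × ℝ) := {x | ∀ e ∈ Hu n, 0 < ev (ln v e) x}

open Classical in
/-- the edges whose lines contain `p` -/
noncomputable def thru {n : ℕ} (v : Fin n → ℝ × ℝ) (p : ℝ × ℝ) : Finset (Fin n × Fin n) := (Ed n).filter (fun e => ev (ln v e) p = 0)

theorem mem_thru {n : ℕ} {v : Fin n → ℝ × ℝ} {p : ℝ × ℝ} {e : Fin n × Fin n} : e ∈ thru v p ↔ e ∈ Ed n ∧ ev (ln v e) p = 0 := by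
  unfold thru
  rw [Finset.mem_filter]

/-- the number of edge lines through `p` -/
noncomputable def mu {n : ℕ} (v : Fin n → ℝ × ℝ) (p : ℝ × ℝ) : ℕ := (thru v p).card

/-- the crossing points: points of the open polygon on at least two edges -/
def OmS {n : ℕ} (v : Fin n → ℝ × ℝ) : Set (ℝ × ℝ) := {p | p ∈ Rg v ∧ 2 ≤ mu v p}

open Classical in
/-- the same as a finite set (`om_fin` in `Geo`) -/
noncomputable def Om {n : ℕ} (v : Fin n → ℝ × ℝ) : Finset (ℝ × ℝ) := if h : (OmS v).Finite then h.toFinset else ∅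

/-- the cells: sign patterns of all edges in the open polygon -/
noncomputable def cells {n : ℕ} (v : Fin n → ℝ × ℝ) : Finset (Finset (Fin n × Fin n)) := pat (ln v) (Rg v) (Ed n)

/-- the lines with the signs of the cell `S` -/
noncomputable def sl {n : ℕ} (v : Fin n → ℝ × ℝ) (S : Finset (Fin n × Fin n)) (e : Fin n × Fin n) : ℝ × ℝ × ℝ :=
  (if e ∈ S then (1 : ℝ) else -1) • ln v e

/-- the number of sides of the cell `S` -/
noncomputable def kk {n : ℕ} (v : Fin n → ℝ × ℝ) (S : Finset (Fin n × Fin n)) : ℕ := (walls (Ed n) (sl v S)).card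

open Classical in
/-- the darts: pairs (cell, side) -/
noncomputable def dts {n : ℕ} (v : Fin n → ℝ × ℝ) : Finset (Finset (Fin n × Fin n) × (Fin n × Fin n)) :=
  ((cells v) ×ˢ (Ed n)).filter (fun z => Wall (Ed n) (sl v z.1) z.2)

theorem mem_dts {n : ℕ} {v : Fin n → ℝ × ℝ} {z : Finset (Fin n × Fin n) × (Fin n × Fin n)} :
    z ∈ dts v ↔ z.1 ∈ cells v ∧ Wall (Ed n) (sl v z.1) z.2 := by
  classical
  unfold dts
  rw [Finset.mem_filter, Finset.mem_product]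
  exact ⟨fun h => ⟨h.1.1, h.2⟩, fun h => ⟨⟨h.1, h.2.1⟩, h.2⟩⟩

/-- good darts: the ends of the side are simple crossing points -/
def gd {n : ℕ} (v : Fin n → ℝ × ℝ) (z : Finset (Fin n × Fin n) × (Fin n × Fin n)) : Prop :=
  ∀ X ∈ Cor (Ed n) (sl v z.1), ev (ln v z.2) X = 0 → X ∈ Om v ∧ mu v X = 2

/-- the dart on the other side of the line -/
def fl {n : ℕ} (z : Finset (Fin n × Fin n) × (Fin n × Fin n)) : Finset (Fin n × Fin n) × (Fin n × Fin n) := (symmDiff z.1 {z.2}, z.2)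

theorem mem_Ed {n : ℕ} {e : Fin n × Fin n} : e ∈ Ed n ↔ e.1 < e.2 := by
  simp [Ed]

theorem mem_Hu {n : ℕ} {e : Fin n × Fin n} : e ∈ Hu n ↔ e.1 < e.2 ∧ (e.1.val + 1 = e.2.val ∨ (e.1.val = 0 ∧ e.2.val + 1 = n)) := by
  simp [Hu, Ed]

theorem Hu_sub {n : ℕ} : Hu n ⊆ Ed n := Finset.filter_subset _ _

theorem mem_Dg {n : ℕ} {e : Fin n × Fin n} : e ∈ Dg n ↔ e ∈ Ed n ∧ e ∉ Hu n := by
  simp [Dg]

theorem sl_zero {n : ℕ} {v : Fin n → ℝ × ℝ} {S : Finset (Fin n × Fin n)} {e : Fin n × Fin n} {x : ℝ × ℝ} :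
    ev (sl v S e) x = 0 ↔ ev (ln v e) x = 0 := by
  unfold sl
  rw [ev_smul]
  split_ifs <;> simp

theorem sl_lin_zero {n : ℕ} {v : Fin n → ℝ × ℝ} {S : Finset (Fin n × Fin n)} {e : Fin n × Fin n} {x : ℝ × ℝ} :
    lin (sl v S e) x = 0 ↔ lin (ln v e) x = 0 := by
  unfold sl
  rw [lin_smul]
  split_ifs <;> simp

theorem sl_mem {n : ℕ} {v : Fin n → ℝ × ℝ} {S : Finset (Fin n × Fin n)} {e : Fin n × Fin n} (he : e ∈ S) (x : ℝ × ℝ) :
    ev (sl v S e) x = ev (ln v e) x := by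
  unfold sl
  rw [ev_smul, if_pos he, one_mul]

theorem sl_notMem {n : ℕ} {v : Fin n → ℝ × ℝ} {S : Finset (Fin n × Fin n)} {e : Fin n × Fin n} (he : e ∉ S) (x : ℝ × ℝ) :
    ev (sl v S e) x = -ev (ln v e) x := by
  unfold sl
  rw [ev_smul, if_neg he, neg_one_mul]

theorem sl_pos {n : ℕ} {v : Fin n → ℝ × ℝ} {S : Finset (Fin n × Fin n)} {e : Fin n × Fin n} {x : ℝ × ℝ} :
    0 < ev (sl v S e) x ↔ ev (ln v e) x ≠ 0 ∧ (e ∈ S ↔ 0 < ev (ln v e) x) := by
  by_cases he : e ∈ S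
  · rw [sl_mem he]
    exact ⟨fun h => ⟨h.ne', fun _ => h, fun _ => he⟩, fun h => h.2.1 he⟩
  · rw [sl_notMem he]
    constructor
    · intro h
      exact ⟨by linarith, fun h1 => absurd h1 he, fun h1 => by linarith⟩
    · rintro ⟨h1, h2⟩
      have h3 : ¬ 0 < ev (ln v e) x := fun h => he (h2.2 h)
      have h4 : ev (ln v e) x < 0 := lt_of_le_of_ne (not_lt.1 h3) h1
      linarith

theorem mem_cells {n : ℕ} {v : Fin n → ℝ × ℝ} {S : Finset (Fin n × Fin n)} :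
    S ∈ cells v ↔ S ⊆ Ed n ∧ ∃ x ∈ Rg v, x ∈ op (Ed n) (sl v S) := by
  unfold cells
  rw [mem_pat]
  constructor
  · rintro ⟨h, x, hx, h1⟩
    exact ⟨h, x, hx, fun e he => sl_pos.2 (h1 e he)⟩
  · rintro ⟨h, x, hx, h1⟩
    exact ⟨h, x, hx, fun e he => sl_pos.1 (h1 e he)⟩

/-! ## orientation -/

theorem lf_cyc (a b c : ℝ × ℝ) : ev (lf a b) c = ev (lf b c) a := by
  simp only [ev, lf]
  ring

theorem lf_anti (a b c : ℝ × ℝ) : ev (lf b a) c = -ev (lf a b) c := by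
  simp only [ev, lf]
  ring

theorem lf_left (a b : ℝ × ℝ) : ev (lf a b) a = 0 := by
  simp only [ev, lf]
  ring

theorem lf_right (a b : ℝ × ℝ) : ev (lf a b) b = 0 := by
  simp only [ev, lf]
  ring

theorem ln_fst {n : ℕ} (v : Fin n → ℝ × ℝ) (e : Fin n × Fin n) : ev (ln v e) (v e.1) = 0 := by
  unfold ln
  split_ifs
  · exact lf_right _ _
  · exact lf_left _ _

theorem ln_snd {n : ℕ} (v : Fin n → ℝ × ℝ) (e : Fin n × Fin n) : ev (ln v e) (v e.2) = 0 := by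
  unfold ln
  split_ifs
  · exact lf_left _ _
  · exact lf_right _ _

end Fiv
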