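import Pool.Agent.Fiv.Defs

/-!
# Fiv POLY: a bounded convex polygon given by affine inequalities
-/

set_option autoImplicit false

namespace Fiv

open Finset

variable {ι : Type} {E : Finset ι} {l : ι → ℝ × ℝ × ℝ}

-- BEGIN rot
/-- P1. Rotate `u` towards `w` until the first line through `X` is hit. `T` = the `e ∈ E` with `ev (l e) X = 0`, `lin (l e) w < 0`; `τ e = lin (l e) u / (- lin (l e) w) > 0`; `e` with minimal `τ` (`exists_min_image`), `z = u + τ • w ≠ 0`.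
`lin (l e) z = 0`; for the other `e'` through `X`: `lin (l e') z > 0` (if `lin w ≥ 0` clear; if `< 0` then `≥ 0` by minimality and `≠ 0` by `cr`, `z ≠ 0`). Witness `X + s • z`, `s > 0` small (`small` for the `e'` with `ev (l e') X > 0`). -/
theorem rot (H : Poly E l) (X : ℝ × ℝ) (hX : X ∈ cl E l) (u w : ℝ × ℝ) (hu : ∀ e ∈ E, ev (l e) X = 0 → 0 < lin (l e) u)
    (e₀ : ι) (he₀ : e₀ ∈ E) (h0 : ev (l e₀) X = 0) (hw : lin (l e₀) w < 0) (huw : ∀ τ : ℝ, u + τ • w ≠ 0) :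
    ∃ e, Wall E l e ∧ ev (l e) X = 0 ∧ lin (l e) w < 0 := by
  classical
  obtain ⟨e, he, hmin⟩ := Finset.exists_min_image (E.filter fun e => ev (l e) X = 0 ∧ lin (l e) w < 0)
    (fun e => lin (l e) u / (-lin (l e) w)) ⟨e₀, Finset.mem_filter.2 ⟨he₀, h0, hw⟩⟩
  obtain ⟨heE, heX, hew⟩ := Finset.mem_filter.1 he
  have hτ : 0 < lin (l e) u / (-lin (l e) w) := div_pos (hu e heE heX) (by linarith)
  obtain ⟨τ, hτe⟩ : ∃ τ : ℝ, τ = lin (l e) u / (-lin (l e) w) := ⟨_, rfl⟩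
  rw [← hτe] at hτ
  have hz0 : lin (l e) (u + τ • w) = 0 := by
    rw [lin_add, hτe, div_neg, neg_mul, div_mul_cancel₀ _ hew.ne]
    ring
  have hz : ∀ e' ∈ E, e' ≠ e → ev (l e') X = 0 → 0 < lin (l e') (u + τ • w) := by
    intro e' he' hne h1
    have h2 := hu e' he' h1
    rcases le_or_gt 0 (lin (l e') w) with h3 | h3
    · rw [lin_add]
      have := mul_nonneg hτ.le h3
      linarith
    · have h4 : τ ≤ lin (l e') u / (-lin (l e') w) := by
        rw [hτe]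
        exact hmin e' (Finset.mem_filter.2 ⟨he', h1, h3⟩)
      rw [le_div_iff₀ (by linarith)] at h4
      have h5 : 0 ≤ lin (l e') (u + τ • w) := by
        rw [lin_add]
        linarith
      refine lt_of_le_of_ne h5 fun h6 => huw τ ?_
      exact H.cr e heE e' he' hne.symm X heX h1 _ hz0 h6.symm
  obtain ⟨s, hs, hs'⟩ := small (E.filter fun e' => 0 < ev (l e') X) (fun e' => ev (l e') X)
    (fun e' => lin (l e') (u + τ • w)) fun e' he' => (Finset.mem_filter.1 he').2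
  refine ⟨e, ⟨heE, X + s • (u + τ • w), ?_, fun e' he' hne => ?_⟩, heX, hew⟩
  · rw [ev_add, heX, hz0]
    ring
  · rw [ev_add]
    rcases (hX e' he').lt_or_eq with h1 | h1
    · exact hs' s (abs_of_pos hs).le e' (Finset.mem_filter.2 ⟨he', h1⟩)
    · rw [← h1, zero_add]
      exact mul_pos hs (hz e' he' hne h1.symm)
-- END rot

-- BEGIN hit
/-- P2. First line hit in direction `d`: minimum over the `e ∈ E` with `lin (l e) d < 0` (nonempty by `bd`) of `ev (l e) x / (- lin (l e) d) > 0`. -/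
theorem hit (H : Poly E l) (x : ℝ × ℝ) (hx : x ∈ cl E l) (d : ℝ × ℝ) (hd : d ≠ 0) (hpos : ∀ e ∈ E, lin (l e) d < 0 → 0 < ev (l e) x) :
    ∃ t : ℝ, 0 < t ∧ x + t • d ∈ cl E l ∧ ∃ e ∈ E, lin (l e) d < 0 ∧ ev (l e) (x + t • d) = 0 := by
  classical
  obtain ⟨e0, he0, hd0⟩ := H.bd d hd
  obtain ⟨e, he, hmin⟩ := Finset.exists_min_image (E.filter fun e => lin (l e) d < 0)
    (fun e => ev (l e) x / (- lin (l e) d)) ⟨e0, Finset.mem_filter.2 ⟨he0, hd0⟩⟩
  rw [Finset.mem_filter] at he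
  have hpe := hpos e he.1 he.2
  have hneg : 0 < - lin (l e) d := by linarith [he.2]
  have htp : 0 < ev (l e) x / (- lin (l e) d) := div_pos hpe hneg
  refine ⟨ev (l e) x / (- lin (l e) d), htp, ?_, e, he.1, he.2, ?_⟩
  · intro e' he'
    rw [ev_add]
    by_cases h : lin (l e') d < 0
    · have h1 := hmin e' (Finset.mem_filter.2 ⟨he', h⟩)
      have h2 : ev (l e) x / (- lin (l e) d) * (- lin (l e') d) ≤ ev (l e') x :=
        (le_div_iff₀ (by linarith)).1 h1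
      linarith
    · have h2 := hx e' he'
      have h3 : 0 ≤ ev (l e) x / (- lin (l e) d) * lin (l e') d := mul_nonneg htp.le (not_lt.1 h)
      linarith
  · rw [ev_add]
    have h4 : ev (l e) x / (- lin (l e) d) * (- lin (l e) d) = ev (l e) x := div_mul_cancel₀ _ hneg.ne'
    linarith
-- END hit

-- BEGIN pencil
/-- P3. Three concurrent lines are never sides of the same polygon. `xᵢ` the witnesses, `dᵢ = xᵢ - q`: `lin (l eᵢ) dᵢ = 0`, `lin (l eⱼ) dᵢ > 0` (`lin_sub`). With `nᵢ = ((l eᵢ).1, (l eᵢ).2.1)` and `A = det n₂ n₃`, `B = det n₃ n₁`, `C = det n₁ n₂`: `A lin₁ + B lin₂ + C lin₃ = 0` identically; at `d₁`: `B p + C r = 0`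
with `p, r > 0`, at `d₂`, `d₃` similarly, so `A = B = C = 0`; then `n₁ ∥ n₂`, which contradicts `lin₁ d₁ = 0`, `lin₂ d₁ > 0`, `lin₁ d₂ > 0`. -/
theorem pencil (e₁ e₂ e₃ : ι) (h₁ : Wall E l e₁) (h₂ : Wall E l e₂) (h₃ : Wall E l e₃) (h12 : e₁ ≠ e₂) (h13 : e₁ ≠ e₃) (h23 : e₂ ≠ e₃)
    (q : ℝ × ℝ) (q₁ : ev (l e₁) q = 0) (q₂ : ev (l e₂) q = 0) (q₃ : ev (l e₃) q = 0) : False := by
  obtain ⟨m₁, x₁, z₁, w₁⟩ := h₁
  obtain ⟨m₂, x₂, z₂, w₂⟩ := h₂
  obtain ⟨m₃, x₃, z₃, w₃⟩ := h₃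
  have a12 := w₁ e₂ m₂ h12.symm
  have a13 := w₁ e₃ m₃ h13.symm
  have a21 := w₂ e₁ m₁ h12
  have a23 := w₂ e₃ m₃ h23.symm
  have a31 := w₃ e₁ m₁ h13
  have a32 := w₃ e₂ m₂ h23
  simp only [ev] at q₁ q₂ q₃ z₁ z₂ z₃ a12 a13 a21 a23 a31 a32
  generalize (l e₁).1 = a at *
  generalize (l e₁).2.1 = b at *
  generalize (l e₁).2.2 = c at *
  generalize (l e₂).1 = a' at *
  generalize (l e₂).2.1 = b' at *
  generalize (l e₂).2.2 = c' at *
  generalize (l e₃).1 = a'' at *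
  generalize (l e₃).2.1 = b'' at *
  generalize (l e₃).2.2 = c'' at *
  have k1 : (a'' * b - b'' * a) * (a' * x₁.1 + b' * x₁.2 + c') + (a * b' - b * a') * (a'' * x₁.1 + b'' * x₁.2 + c'') = 0 := by
    linear_combination (-(a' * b'' - b' * a'')) * z₁ + (a' * b'' - b' * a'') * q₁ + (a'' * b - b'' * a) * q₂ + (a * b' - b * a') * q₃
  have k2 : (a' * b'' - b' * a'') * (a * x₂.1 + b * x₂.2 + c) + (a * b' - b * a') * (a'' * x₂.1 + b'' * x₂.2 + c'') = 0 := by
    linear_combination (-(a'' * b - b'' * a)) * z₂ + (a' * b'' - b' * a'') * q₁ + (a'' * b - b'' * a) * q₂ + (a * b' - b * a') * q₃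
  have k3 : (a' * b'' - b' * a'') * (a * x₃.1 + b * x₃.2 + c) + (a'' * b - b'' * a) * (a' * x₃.1 + b' * x₃.2 + c') = 0 := by
    linear_combination (-(a * b' - b * a')) * z₃ + (a' * b'' - b' * a'') * q₁ + (a'' * b - b'' * a) * q₂ + (a * b' - b * a') * q₃
  have k4 : (a' * x₁.1 + b' * x₁.2 + c') * (a * x₂.1 + b * x₂.2 + c) =
      (a * b' - b * a') * ((x₂.1 - q.1) * (x₁.2 - q.2) - (x₁.1 - q.1) * (x₂.2 - q.2)) := by
    linear_combination (a * x₂.1 + b * x₂.2 + c) * q₂ + (a' * (x₁.1 - q.1) + b' * (x₁.2 - q.2)) * q₁ + (a' * (x₂.1 - q.1) + b' * (x₂.2 - q.2)) * (z₁ - q₁)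
  rcases lt_trichotomy (a * b' - b * a') 0 with hC | hC | hC
  · have hB : 0 < a'' * b - b'' * a := by
      by_contra h
      nlinarith [mul_neg_of_neg_of_pos hC a13, mul_nonneg (neg_nonneg.2 (not_lt.1 h)) a12.le]
    have hA : 0 < a' * b'' - b' * a'' := by
      by_contra h
      nlinarith [mul_neg_of_neg_of_pos hC a23, mul_nonneg (neg_nonneg.2 (not_lt.1 h)) a21.le]
    nlinarith [mul_pos hA a31, mul_pos hB a32]
  · rw [hC, zero_mul] at k4
    have := mul_pos a12 a21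
    linarith
  · have hB : a'' * b - b'' * a < 0 := by
      by_contra h
      nlinarith [mul_pos hC a13, mul_nonneg (not_lt.1 h) a12.le]
    have hA : a' * b'' - b' * a'' < 0 := by
      by_contra h
      nlinarith [mul_pos hC a23, mul_nonneg (not_lt.1 h) a21.le]
    nlinarith [mul_neg_of_neg_of_pos hA a31, mul_neg_of_neg_of_pos hB a32]
-- END pencil

-- BEGIN uniq
/-- P4. `Y - X = t • d` (`par`, `lin_sub`); `t > 0` gives `ev (l e') Y < 0`, `t < 0` gives `ev (l e'') X < 0`. -/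
theorem uniq (H : Poly E l) (e : ι) (he : e ∈ E) (X Y : ℝ × ℝ) (hX : X ∈ cl E l) (hY : Y ∈ cl E l) (hXe : ev (l e) X = 0) (hYe : ev (l e) Y = 0)
    (d : ℝ × ℝ) (hd : d ≠ 0) (hde : lin (l e) d = 0) (e' e'' : ι) (he' : e' ∈ E) (he'' : e'' ∈ E) (hX' : ev (l e') X = 0) (hY' : ev (l e'') Y = 0)
    (hd' : lin (l e') d < 0) (hd'' : lin (l e'') d < 0) : X = Y := by
  obtain ⟨t, ht⟩ := par (l e) (H.nz e he) d (Y - X) hd hde (by rw [lin_sub, hXe, hYe, sub_zero])
  have hYX : Y = X + t • d := by rw [← ht]; abel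
  rcases lt_trichotomy t 0 with h | h | h
  · exfalso
    have h1 := hX e'' he''
    have h2 : X = Y + (-t) • d := by rw [hYX, neg_smul]; abel
    rw [h2, ev_add, hY'] at h1
    nlinarith
  · rw [hYX, h, zero_smul, add_zero]
  · exfalso
    have h1 := hY e' he'
    rw [hYX, ev_add, hX'] at h1
    nlinarith
-- END uniq

-- BEGIN two_at
private theorem two_at_aux (H : Poly E l) (X : ℝ × ℝ) (hX : X ∈ cl E l) (e₁ e₂ : ι) (he₁ : e₁ ∈ E) (he₂ : e₂ ∈ E) (hne : e₁ ≠ e₂)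
    (h₁ : ev (l e₁) X = 0) (h₂ : ev (l e₂) X = 0) : ∃ e, Wall E l e ∧ ev (l e) X = 0 ∧ e ≠ e₁ := by
  obtain ⟨x₀, hx₀⟩ := H.ne
  have hu : ∀ e ∈ E, ev (l e) X = 0 → 0 < lin (l e) (x₀ - X) := by
    intro e he h
    rw [lin_sub, h, sub_zero]
    exact hx₀ e he
  have main : ∀ w : ℝ × ℝ, lin (l e₁) w = 0 → lin (l e₂) w < 0 → ∃ e, Wall E l e ∧ ev (l e) X = 0 ∧ e ≠ e₁ := by
    intro w hw1 hw2
    obtain ⟨e, h3, h4, h5⟩ := rot H X hX (x₀ - X) w hu e₂ he₂ h₂ hw2 (by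
      intro τ h0
      have h6 : lin (l e₁) (x₀ - X + τ • w) = 0 := by
        rw [h0]
        simp [lin]
      rw [lin_add, hw1, mul_zero, add_zero] at h6
      exact (hu e₁ he₁ h₁).ne' h6)
    refine ⟨e, h3, h4, ?_⟩
    rintro rfl
    rw [hw1] at h5
    exact lt_irrefl _ h5
  obtain ⟨w, hw0, hw1⟩ := exists_dir (l e₁) (H.nz e₁ he₁)
  have hw2 : lin (l e₂) w ≠ 0 := fun h => hw0 (H.cr e₁ he₁ e₂ he₂ hne X h₁ h₂ w hw1 h)
  rcases lt_or_gt_of_ne hw2 with h | h
  · exact main w hw1 h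
  · refine main (-w) ?_ ?_
    · rw [lin_neg, hw1, neg_zero]
    · rw [lin_neg]
      linarith

/-- P5. `e₁ ≠ e₂` through `X`; `x₀` inside (`ne`), `u = x₀ - X`: `lin (l e) u > 0` for all `e` through `X`. `w` along `e₁` (`exists_dir`) with `lin (l e₂) w < 0` (sign; `≠ 0` by `cr`): `rot` gives a side `e` through `X` (`u + τ • w ≠ 0` because `lin (l e₁)` of it is positive). Now `w'` along `e`,
`lin (l e₃) w' < 0` for `e₃` = one of `e₁`, `e₂` different from `e`: `rot` gives a side `e'` with `lin (l e') w' < 0`, so `e' ≠ e`. A third side: `pencil`. -/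
theorem two_at (H : Poly E l) (X : ℝ × ℝ) (hX : X ∈ Cor E l) :
    ∃ e e', e ≠ e' ∧ Wall E l e ∧ Wall E l e' ∧ ev (l e) X = 0 ∧ ev (l e') X = 0 ∧
      ∀ e'', Wall E l e'' → ev (l e'') X = 0 → e'' = e ∨ e'' = e' := by
  obtain ⟨hXc, e₁, he₁, e₂, he₂, hne, h₁, h₂⟩ := hX
  obtain ⟨e, hw, hXe, hee⟩ := two_at_aux H X hXc e₁ e₂ he₁ he₂ hne h₁ h₂
  obtain ⟨e', hw', hXe', hee'⟩ := two_at_aux H X hXc e e₁ hw.1 he₁ hee hXe h₁
  refine ⟨e, e', hee'.symm, hw, hw', hXe, hXe', fun e'' hw'' hXe'' => ?_⟩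
  by_contra hc
  push Not at hc
  exact pencil e e' e'' hw hw' hw'' hee'.symm hc.1.symm hc.2.symm X hXe hXe' hXe''
-- END two_at

-- BEGIN end_at
/-- P6. The end of the side `e` in direction `d`: `hit` from the witness `x` of the side (`lin (l e) d = 0`; the other lines are positive at `x`) gives `q = x + t • d` and a line through `q` with `lin d < 0`; `rot` with `X = q`, `u = x₀ - q`, `w = d` (`u + τ • d ≠ 0`: `lin (l e)` of it is `ev (l e) x₀ > 0`)
gives `e'`; `e' ≠ e` because `lin (l e) d = 0`. -/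
theorem end_at (H : Poly E l) (e : ι) (he : Wall E l e) (d : ℝ × ℝ) (hd : d ≠ 0) (hde : lin (l e) d = 0) :
    ∃ q e', q ∈ cl E l ∧ ev (l e) q = 0 ∧ Wall E l e' ∧ e' ≠ e ∧ ev (l e') q = 0 ∧ lin (l e') d < 0 := by
  obtain ⟨heE, x, hx0, hx⟩ := he
  have hxc : x ∈ cl E l := by
    intro e' he'
    by_cases h : e' = e
    · subst h
      exact hx0.ge
    · exact (hx e' he' h).le
  obtain ⟨t, ht, hq, e₁, he₁, hl₁, hq₁⟩ := hit H x hxc d hd (by
    intro e' he' hlt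
    refine hx e' he' ?_
    rintro rfl
    rw [hde] at hlt
    exact lt_irrefl _ hlt)
  have hqe : ev (l e) (x + t • d) = 0 := by
    rw [ev_add, hx0, hde, mul_zero, add_zero]
  obtain ⟨x₀, hx₀⟩ := H.ne
  obtain ⟨e', h3, h4, h5⟩ := rot H (x + t • d) hq (x₀ - (x + t • d)) d (by
      intro e' he' h
      rw [lin_sub, h, sub_zero]
      exact hx₀ e' he') e₁ he₁ hq₁ hl₁ (by
      intro τ h0
      have h6 : lin (l e) (x₀ - (x + t • d) + τ • d) = 0 := by
        rw [h0]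
        simp [lin]
      rw [lin_add, hde, mul_zero, add_zero, lin_sub, hqe, sub_zero] at h6
      exact (hx₀ e heE).ne' h6)
  refine ⟨x + t • d, e', hq, hqe, h3, ?_, h4, h5⟩
  rintro rfl
  rw [hde] at h5
  exact lt_irrefl _ h5
-- END end_at

-- BEGIN adj
/-- P7. A side has two ends and two neighbours. `d` along `e` (`exists_dir`), `end_at` for `d` and `-d`: `q₁, e₁, q₂, e₂`; `q₁ ≠ q₂` (otherwise `pencil` or, if `e₁ = e₂`, signs of `lin (l e₁) d`), so `e₁ ≠ e₂` (`cr`: two common points of `e`, `e₁`). A point `X` of `Cor` on `e` is on some `e' ≠ e` of `E`;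
`lin (l e') d ≠ 0` (`cr`), its sign decides `X = q₁` or `X = q₂` (`uniq`). A side `e' ≠ e` through `q₁` is `e₁` (`pencil`). -/
theorem adj (H : Poly E l) (e : ι) (he : Wall E l e) :
    ∃ e₁ e₂ q₁ q₂, Wall E l e₁ ∧ Wall E l e₂ ∧ e₁ ≠ e ∧ e₂ ≠ e ∧ e₁ ≠ e₂ ∧ q₁ ∈ cl E l ∧ q₂ ∈ cl E l ∧ q₁ ≠ q₂ ∧
      ev (l e) q₁ = 0 ∧ ev (l e) q₂ = 0 ∧ ev (l e₁) q₁ = 0 ∧ ev (l e₂) q₂ = 0 ∧
      (∀ X ∈ Cor E l, ev (l e) X = 0 → X = q₁ ∨ X = q₂) ∧
      (∀ e', Wall E l e' → e' ≠ e → ∀ X ∈ cl E l, ev (l e) X = 0 → ev (l e') X = 0 → (e' = e₁ ∧ X = q₁) ∨ (e' = e₂ ∧ X = q₂)) := by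
  have heE : e ∈ E := he.1
  obtain ⟨d, hd, hde⟩ := exists_dir (l e) (H.nz e heE)
  have hd' : -d ≠ 0 := neg_ne_zero.2 hd
  have hde' : lin (l e) (-d) = 0 := by rw [lin_neg, hde, neg_zero]
  obtain ⟨q₁, e₁, hq₁, hq₁e, hw₁, hne₁, hq₁', hl₁⟩ := end_at H e he d hd hde
  obtain ⟨q₂, e₂, hq₂, hq₂e, hw₂, hne₂, hq₂', hl₂⟩ := end_at H e he (-d) hd' hde'
  have h12 : e₁ ≠ e₂ := by
    rintro rfl
    rw [lin_neg] at hl₂
    linarith
  have hq12 : q₁ ≠ q₂ := by
    rintro rfl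
    exact pencil e e₁ e₂ he hw₁ hw₂ hne₁.symm hne₂.symm h12 q₁ hq₁e hq₁' hq₂'
  -- a line `e' ≠ e` through a point `X` of `e` in the closed polygon
  have key : ∀ e' ∈ E, e' ≠ e → ∀ X ∈ cl E l, ev (l e) X = 0 → ev (l e') X = 0 → X = q₁ ∨ X = q₂ := by
    intro e' he' hne' X hX hXe hXe'
    have h0 : lin (l e') d ≠ 0 := fun h => hd (H.cr e heE e' he' hne'.symm X hXe hXe' d hde h)
    rcases lt_or_gt_of_ne h0 with h | h
    · exact Or.inl (uniq H e heE X q₁ hX hq₁ hXe hq₁e d hd hde e' e₁ he' hw₁.1 hXe' hq₁' h hl₁)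
    · refine Or.inr (uniq H e heE X q₂ hX hq₂ hXe hq₂e (-d) hd' hde' e' e₂ he' hw₂.1 hXe' hq₂' ?_ hl₂)
      rw [lin_neg]
      linarith
  refine ⟨e₁, e₂, q₁, q₂, hw₁, hw₂, hne₁, hne₂, h12, hq₁, hq₂, hq12, hq₁e, hq₂e, hq₁', hq₂', ?_, ?_⟩
  · rintro X ⟨hX, a, ha, b, hb, hab, hXa, hXb⟩ hXe
    by_cases hae : a = e
    · exact key b hb (fun h => hab (hae.trans h.symm)) X hX hXe hXb
    · exact key a ha hae X hX hXe hXa
  · intro e' hw' hne' X hX hXe hXe'
    rcases key e' hw'.1 hne' X hX hXe hXe' with rfl | rfl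
    · left
      refine ⟨?_, rfl⟩
      by_contra hc
      exact pencil e e' e₁ he hw' hw₁ hne'.symm hne₁.symm hc _ hXe hXe' hq₁'
    · right
      refine ⟨?_, rfl⟩
      by_contra hc
      exact pencil e e' e₂ he hw' hw₂ hne'.symm hne₂.symm hc _ hXe hXe' hq₂'
-- END adj

-- BEGIN ex_wall
/-- P8. From `x₀` inside in direction `(1, 0)`: `hit` gives `X`. If only one line passes through `X` it is a side with witness `X`; otherwise `X ∈ Cor` and `two_at`. -/
theorem ex_wall (H : Poly E l) : ∃ e, Wall E l e := by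
  obtain ⟨x₀, hx₀⟩ := H.ne
  have hd : ((1 : ℝ), (0 : ℝ)) ≠ 0 := by
    intro h
    exact one_ne_zero (congrArg Prod.fst h)
  obtain ⟨t, ht, hX, e, he, -, heX⟩ := hit H x₀ (fun e he => (hx₀ e he).le) (1, 0) hd (fun e he _ => hx₀ e he)
  by_cases h : ∃ e' ∈ E, e' ≠ e ∧ ev (l e') (x₀ + t • ((1 : ℝ), (0 : ℝ))) = 0
  · obtain ⟨e', he', hne, he'X⟩ := h
    obtain ⟨e₁, e₂, -, h1, -⟩ := two_at H _ ⟨hX, e', he', e, he, hne, he'X, heX⟩
    exact ⟨e₁, h1⟩
  · refine ⟨e, he, _, heX, fun e' he' hne => lt_of_le_of_ne (hX e' he') (fun h0 => h ⟨e', he', hne, h0.symm⟩)⟩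
-- END ex_wall

-- BEGIN three_le
/-- P9. `ex_wall` and `adj`. -/
theorem three_le (H : Poly E l) : 3 ≤ (walls E l).card := by
  classical
  obtain ⟨e, he⟩ := ex_wall H
  obtain ⟨e₁, e₂, q₁, q₂, h1, h2, h1e, h2e, h12, -⟩ := adj H e he
  have h3 : ({e, e₁, e₂} : Finset ι) ⊆ walls E l := by
    intro x hx
    rw [Finset.mem_insert, Finset.mem_insert, Finset.mem_singleton] at hx
    rw [mem_walls]
    rcases hx with rfl | rfl | rfl
    · exact he
    · exact h1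
    · exact h2
  have h4 : ({e, e₁, e₂} : Finset ι).card = 3 := Finset.card_eq_three.2 ⟨e, e₁, e₂, h1e.symm, h2e.symm, h12, rfl⟩
  rw [← h4]
  exact Finset.card_le_card h3
-- END three_le

-- BEGIN two_adj
/-- P10. `adj` in terms of `Adj`. -/
theorem two_adj (H : Poly E l) (e : ι) (he : Wall E l e) : ∃ e₁ e₂, e₁ ≠ e₂ ∧ Adj E l e e₁ ∧ Adj E l e e₂ ∧ ∀ e', Adj E l e e' → e' = e₁ ∨ e' = e₂ := by
  obtain ⟨e₁, e₂, q₁, q₂, h1, h2, h1e, h2e, h12, hq1, hq2, -, ha1, ha2, hb1, hb2, -, hu⟩ := adj H e he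
  refine ⟨e₁, e₂, h12, ⟨he, h1, h1e.symm, q₁, hq1, ha1, hb1⟩, ⟨he, h2, h2e.symm, q₂, hq2, ha2, hb2⟩, ?_⟩
  rintro e' ⟨-, he', hne, X, hX, hXe, hXe'⟩
  rcases hu e' he' hne.symm X hX hXe hXe' with h | h
  · exact Or.inl h.1
  · exact Or.inr h.1
-- END two_adj

-- BEGIN tri
private theorem tri_sub (h3 : (walls E l).card = 3) (e e₁ e₂ : ι) (he : Wall E l e) (h₁ : Wall E l e₁) (h₂ : Wall E l e₂)
    (h01 : e₁ ≠ e) (h02 : e₂ ≠ e) (h12 : e₁ ≠ e₂) (f : ι) (hf : Wall E l f) : f = e ∨ f = e₁ ∨ f = e₂ := by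
  classical
  have hsub : ({e, e₁, e₂} : Finset ι) ⊆ walls E l := by
    intro x hx
    simp only [Finset.mem_insert, Finset.mem_singleton] at hx
    rcases hx with rfl | rfl | rfl
    · exact mem_walls.2 he
    · exact mem_walls.2 h₁
    · exact mem_walls.2 h₂
  have hcard : ({e, e₁, e₂} : Finset ι).card = 3 := Finset.card_eq_three.2 ⟨e, e₁, e₂, h01.symm, h02.symm, h12, rfl⟩
  have heq := Finset.eq_of_subset_of_card_le hsub (by rw [h3, hcard])
  have := mem_walls.2 hf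
  rw [← heq] at this
  simpa only [Finset.mem_insert, Finset.mem_singleton] using this

/-- P11. Triangle `e, e₁, e₂`: `e₁` is adjacent to both other sides (`two_adj`), `X = e₁ ∩ e₂` in the closed polygon, `ev (l e) X ≥ 0` and `≠ 0` (`pencil`). For `NN`: its two neighbours are `e₁`, `e₂`, its point is on both, so it is `X` (`cr` with `d = X' - X`). -/
theorem tri (H : Poly E l) (h3 : (walls E l).card = 3) (e : ι) (he : Wall E l e) : PP E l e ∧ ¬ NN E l e := by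
  obtain ⟨e₁, e₂, h12, ha₁, ha₂, hun⟩ := two_adj H e he
  have h₁ : Wall E l e₁ := ha₁.2.1
  have h₂ : Wall E l e₂ := ha₂.2.1
  have h01 : e₁ ≠ e := ha₁.2.2.1.symm
  have h02 : e₂ ≠ e := ha₂.2.2.1.symm
  have hsub := tri_sub h3 e e₁ e₂ he h₁ h₂ h01 h02 h12
  obtain ⟨f, f', hff, hf, hf', -⟩ := two_adj H e₁ h₁
  have hA : Adj E l e₁ e₂ := by
    rcases hsub f hf.2.1 with h | h | h
    · rcases hsub f' hf'.2.1 with h' | h' | h'
      · exact absurd (h.trans h'.symm) hff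
      · exact absurd h'.symm hf'.2.2.1
      · rw [← h']; exact hf'
    · exact absurd h.symm hf.2.2.1
    · rw [← h]; exact hf
  obtain ⟨-, -, -, X, hX, hX1, hX2⟩ := hA
  have hXpos : 0 < ev (l e) X := by
    refine lt_of_le_of_ne (hX e he.1) (fun h0 => ?_)
    exact pencil e e₁ e₂ he h₁ h₂ h01.symm h02.symm h12 X h0.symm hX1 hX2
  refine ⟨⟨e₁, e₂, X, ha₁, ha₂, h12, hX1, hX2, hXpos⟩, ?_⟩
  rintro ⟨g₁, g₂, X', hg₁, hg₂, hg12, hg1, hg2, hneg⟩
  have hboth : ev (l e₁) X' = 0 ∧ ev (l e₂) X' = 0 := by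
    rcases hun g₁ hg₁ with h | h <;> rcases hun g₂ hg₂ with h' | h'
    · exact absurd (h.trans h'.symm) hg12
    · rw [← h, ← h']; exact ⟨hg1, hg2⟩
    · rw [← h, ← h']; exact ⟨hg2, hg1⟩
    · exact absurd (h.trans h'.symm) hg12
  have h1 := H.cr e₁ h₁.1 e₂ h₂.1 h12 X hX1 hX2 (X' - X) (by rw [lin_sub, hboth.1, hX1, sub_zero]) (by rw [lin_sub, hboth.2, hX2, sub_zero])
  have h2 : X' = X := sub_eq_zero.1 h1
  rw [h2] at hneg
  linarith
-- END tri

-- BEGIN opp4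
private theorem opp4_symm {e e' : ι} (h : Adj E l e e') : Adj E l e' e :=
  ⟨h.2.1, h.1, h.2.2.1.symm, h.2.2.2.imp fun _ hX => ⟨hX.1, hX.2.2, hX.2.1⟩⟩

/-- P12. In a quadrangle the only side `e'` which is not adjacent to `e` has the same two neighbours. -/
theorem opp4 (H : Poly E l) (h4 : (walls E l).card = 4) (e : ι) (he : Wall E l e) :
    ∃ e', Wall E l e' ∧ e' ≠ e ∧ ¬ Adj E l e e' ∧ (∀ e'', Wall E l e'' → e'' ≠ e → ¬ Adj E l e e'' → e'' = e') ∧
      ∀ e₁, Adj E l e e₁ → Adj E l e' e₁ := by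
  classical
  obtain ⟨e₁, e₂, h12, ha₁, ha₂, hun⟩ := two_adj H e he
  have h₁ : Wall E l e₁ := ha₁.2.1
  have h₂ : Wall E l e₂ := ha₂.2.1
  have h01 : e₁ ≠ e := ha₁.2.2.1.symm
  have h02 : e₂ ≠ e := ha₂.2.2.1.symm
  have hsub : ({e, e₁, e₂} : Finset ι) ⊆ walls E l := by
    intro x hx
    simp only [Finset.mem_insert, Finset.mem_singleton] at hx
    rcases hx with rfl | rfl | rfl
    · exact mem_walls.2 he
    · exact mem_walls.2 h₁
    · exact mem_walls.2 h₂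
  have hcard : ({e, e₁, e₂} : Finset ι).card = 3 := Finset.card_eq_three.2 ⟨e, e₁, e₂, h01.symm, h02.symm, h12, rfl⟩
  have hd : (walls E l \ {e, e₁, e₂}).card = 1 := by
    rw [Finset.card_sdiff_of_subset hsub, h4, hcard]
  obtain ⟨e', he'⟩ := Finset.card_eq_one.1 hd
  have hmem : ∀ f, Wall E l f → f ≠ e → f ≠ e₁ → f ≠ e₂ → f = e' := by
    intro f hf h1 h2 h3
    have : f ∈ walls E l \ {e, e₁, e₂} := by
      rw [Finset.mem_sdiff]
      refine ⟨mem_walls.2 hf, ?_⟩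
      simp only [Finset.mem_insert, Finset.mem_singleton, not_or]
      exact ⟨h1, h2, h3⟩
    rw [he', Finset.mem_singleton] at this
    exact this
  have hin : e' ∈ walls E l \ {e, e₁, e₂} := by
    rw [he']; exact Finset.mem_singleton_self _
  rw [Finset.mem_sdiff] at hin
  simp only [Finset.mem_insert, Finset.mem_singleton, not_or] at hin
  obtain ⟨hw, hn0, hn1, hn2⟩ := hin
  have hw' : Wall E l e' := mem_walls.1 hw
  have hnadj : ¬ Adj E l e e' := by
    intro h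
    rcases hun e' h with h' | h'
    · exact hn1 h'
    · exact hn2 h'
  refine ⟨e', hw', hn0, hnadj, ?_, ?_⟩
  · intro f hf hfe hfn
    refine hmem f hf hfe ?_ ?_
    · rintro rfl; exact hfn ha₁
    · rintro rfl; exact hfn ha₂
  · obtain ⟨f₁, f₂, hff, hf₁, hf₂, -⟩ := two_adj H e' hw'
    have hcase : ∀ f, Adj E l e' f → f = e₁ ∨ f = e₂ := by
      intro f hf
      by_contra hcon
      push Not at hcon
      by_cases hfe : f = e
      · rw [hfe] at hf
        exact hnadj (opp4_symm hf)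
      · exact hf.2.2.1 (hmem f hf.2.1 hfe hcon.1 hcon.2).symm
    have hboth : Adj E l e' e₁ ∧ Adj E l e' e₂ := by
      rcases hcase f₁ hf₁ with h | h <;> rcases hcase f₂ hf₂ with h' | h'
      · exact absurd (h.trans h'.symm) hff
      · rw [← h, ← h']; exact ⟨hf₁, hf₂⟩
      · rw [← h, ← h']; exact ⟨hf₂, hf₁⟩
      · exact absurd (h.trans h'.symm) hff
    intro g hg
    rcases hun g hg with h | h
    · rw [h]; exact hboth.1
    · rw [h]; exact hboth.2
-- END opp4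

-- BEGIN flip4
/-- P13. `e'` opposite to `e` in a quadrangle, `e₁`, `e₂` the neighbours, `X₀ = e₁ ∩ e₂` with `ev (l e) X₀ < 0`. `A ∈ e ∩ e₁`, `D ∈ e' ∩ e₁` corners: `ev (l e) D > 0`, `ev (l e') A > 0` (`≥ 0`, `≠ 0` by `pencil`). On the line `e₁` the point `A` is between `X₀` and `D`: `A = (1 - s) • X₀ + s • D`
with `0 < s < 1` (`par`), so `(1 - s) ev (l e') X₀ = ev (l e') A > 0`. -/
theorem flip4 (H : Poly E l) (e e' : ι) (h' : Wall E l e') (hne : e' ≠ e) (hna : ¬ Adj E l e e')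
    (hA : ∀ e₁, Adj E l e e₁ → Adj E l e' e₁) (hN : NN E l e) : PP E l e' := by
  obtain ⟨e₁, e₂, X₀, ha₁, ha₂, h12, hz1, hz2, hneg⟩ := hN
  have hb₁ := hA e₁ ha₁
  have hb₂ := hA e₂ ha₂
  refine ⟨e₁, e₂, X₀, hb₁, hb₂, h12, hz1, hz2, ?_⟩
  obtain ⟨he, h₁, hne1, A, hAc, hA0, hA1⟩ := ha₁
  obtain ⟨-, -, hne1', D, hDc, hD0, hD1⟩ := hb₁
  have hD : 0 < ev (l e) D := by
    refine lt_of_le_of_ne (hDc e he.1) (fun h0 => ?_)
    exact pencil e e' e₁ he h' h₁ hne.symm hne1 hne1' D h0.symm hD0 hD1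
  have hA' : 0 < ev (l e') A := by
    refine lt_of_le_of_ne (hAc e' h'.1) (fun h0 => ?_)
    exact pencil e e' e₁ he h' h₁ hne.symm hne1 hne1' A hA0 h0.symm hA1
  have hden : 0 < ev (l e) D - ev (l e) X₀ := by linarith
  set s : ℝ := -ev (l e) X₀ / (ev (l e) D - ev (l e) X₀) with hs
  have hs1 : s < 1 := by
    rw [hs, div_lt_one hden]
    linarith
  have hC : (1 - s) • X₀ + s • D = A := by
    have hsum : (1 - s) + s = 1 := by ring
    have h1 : ev (l e) ((1 - s) • X₀ + s • D) = 0 := by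
      rw [ev_comb _ _ _ _ _ hsum, hs]
      field_simp
      ring
    have h2 : ev (l e₁) ((1 - s) • X₀ + s • D) = 0 := by
      rw [ev_comb _ _ _ _ _ hsum, hz1, hD1]
      ring
    have h3 := H.cr e he.1 e₁ h₁.1 hne1 A hA0 hA1 (((1 - s) • X₀ + s • D) - A) (by rw [lin_sub, h1, hA0, sub_zero])
      (by rw [lin_sub, h2, hA1, sub_zero])
    exact sub_eq_zero.1 h3
  rw [← hC, ev_comb _ _ _ _ _ (by ring : (1 - s) + s = 1), hD0, mul_zero, add_zero] at hA'
  exact (pos_iff_pos_of_mul_pos hA').1 (by linarith)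
-- END flip4

-- BEGIN quad
private theorem quad_symm {e e' : ι} (h : Adj E l e e') : Adj E l e' e :=
  ⟨h.2.1, h.1, h.2.2.1.symm, h.2.2.2.imp fun _ hX => ⟨hX.1, hX.2.2, hX.2.1⟩⟩

open Classical in
/-- P14. `e ↦ e'` (`opp4`, `choose` on the sides) maps the sides with `NN` to sides with `PP` (`flip4`) and is injective (if `e'` is opposite to `e` and to `f` then `e` and `f` are both opposite to `e'`, symmetry of `Adj`; uniqueness in `opp4`). `card_le_card_of_injOn`. -/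
theorem quad (H : Poly E l) (h4 : (walls E l).card = 4) :
    ((walls E l).filter (fun e => NN E l e)).card ≤ ((walls E l).filter (fun e => PP E l e)).card := by
  set f : ι → ι := fun e => if h : Wall E l e then (opp4 H h4 e h).choose else e with hf
  have hspec : ∀ e, Wall E l e → Wall E l (f e) ∧ f e ≠ e ∧ ¬ Adj E l e (f e) ∧
      (∀ e'', Wall E l e'' → e'' ≠ e → ¬ Adj E l e e'' → e'' = f e) ∧ ∀ e₁, Adj E l e e₁ → Adj E l (f e) e₁ := by
    intro e he
    have h1 : f e = (opp4 H h4 e he).choose := by rw [hf]; exact dif_pos he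
    rw [h1]
    exact (opp4 H h4 e he).choose_spec
  apply Finset.card_le_card_of_injOn f
  · intro e he
    have he' := Finset.mem_filter.1 (Finset.mem_coe.1 he)
    have hw := mem_walls.1 he'.1
    obtain ⟨h1, h2, h3, -, h5⟩ := hspec e hw
    exact Finset.mem_coe.2 (Finset.mem_filter.2 ⟨mem_walls.2 h1, flip4 H e (f e) h1 h2 h3 h5 he'.2⟩)
  · intro e he g hg heg
    have hwe := mem_walls.1 (Finset.mem_filter.1 (Finset.mem_coe.1 he)).1
    have hwg := mem_walls.1 (Finset.mem_filter.1 (Finset.mem_coe.1 hg)).1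
    obtain ⟨h1, h2, h3, -, -⟩ := hspec e hwe
    obtain ⟨k1, k2, k3, -, -⟩ := hspec g hwg
    obtain ⟨-, -, -, hu, -⟩ := hspec (f e) h1
    have he1 := hu e hwe h2.symm (fun h => h3 (quad_symm h))
    have hg1 := hu g hwg (by rw [heg]; exact k2.symm) (fun h => k3 (by rw [heg] at h; exact quad_symm h))
    rw [he1, hg1]
-- END quad

-- BEGIN ext_eq
/-- P15. `⊇`: two transversal lines through `X`, a segment in `cl` through `X` is in both (`cr`). `⊆`: if at most one line `e` passes through `X`, then `X ± s • d` (`d` along `e`, or any `d ≠ 0`) are in `cl` for small `s` (`small`). -/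
theorem ext_eq (H : Poly E l) : (cl E l).extremePoints ℝ = Cor E l := by
  classical
  apply Set.Subset.antisymm
  · intro X hX
    rw [mem_extremePoints_iff_left] at hX
    obtain ⟨hXc, hext⟩ := hX
    refine ⟨hXc, ?_⟩
    by_contra hno
    push Not at hno
    have hdir : ∃ d : ℝ × ℝ, d ≠ 0 ∧ ∀ e ∈ E, ev (l e) X = 0 → lin (l e) d = 0 := by
      by_cases h : ∃ e ∈ E, ev (l e) X = 0
      · obtain ⟨e, he, h0⟩ := h
        obtain ⟨d, hd, hd0⟩ := exists_dir (l e) (H.nz e he)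
        refine ⟨d, hd, fun e' he' h0' => ?_⟩
        by_cases hee : e = e'
        · rw [← hee]; exact hd0
        · exact absurd h0' (hno e he e' he' hee h0)
      · push Not at h
        refine ⟨(1, 0), ?_, fun e he h0 => absurd h0 (h e he)⟩
        intro h1
        have h2 : (1 : ℝ) = 0 := congrArg Prod.fst h1
        exact one_ne_zero h2
    obtain ⟨d, hd, hd0⟩ := hdir
    obtain ⟨s, hs, hs'⟩ := small (E.filter (fun e => ev (l e) X ≠ 0)) (fun e => ev (l e) X) (fun e => lin (l e) d)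
      (fun e he => lt_of_le_of_ne (hXc e (Finset.mem_filter.1 he).1) (Ne.symm (Finset.mem_filter.1 he).2))
    have hin : ∀ s' : ℝ, |s'| ≤ s → X + s' • d ∈ cl E l := by
      intro s' h1 e he
      rw [ev_add]
      by_cases h2 : ev (l e) X = 0
      · rw [h2, hd0 e he h2]
        simp
      · exact (hs' s' h1 e (Finset.mem_filter.2 ⟨he, h2⟩)).le
    have h1 := hin s (by rw [abs_of_pos hs])
    have h2 := hin (-s) (by rw [abs_neg, abs_of_pos hs])
    have h3 : X ∈ openSegment ℝ (X + s • d) (X + (-s) • d) := by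
      refine ⟨1 / 2, 1 / 2, by norm_num, by norm_num, by norm_num, ?_⟩
      ext
      · simp only [Prod.fst_add, Prod.smul_fst, smul_eq_mul]; ring
      · simp only [Prod.snd_add, Prod.smul_snd, smul_eq_mul]; ring
    have h4 := hext _ h1 _ h2 h3
    have h5 : s • d = 0 := by
      have h6 : X + s • d = X + 0 := by rw [h4, add_zero]
      exact add_left_cancel h6
    rcases smul_eq_zero.1 h5 with h6 | h6
    · exact hs.ne' h6
    · exact hd h6
  · rintro X ⟨hXc, e, he, e', he', hne, h0, h0'⟩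
    rw [mem_extremePoints_iff_left]
    refine ⟨hXc, ?_⟩
    rintro x₁ hx₁ x₂ hx₂ ⟨a, b, ha, hb, hab, hx⟩
    have hz : ∀ f ∈ E, ev (l f) X = 0 → ev (l f) x₁ = 0 := by
      intro f hf hf0
      rw [← hx, ev_comb _ _ _ _ _ hab] at hf0
      have h1 := hx₁ f hf
      have h2 := hx₂ f hf
      have h3 := mul_nonneg ha.le h1
      have h4 := mul_nonneg hb.le h2
      have h5 : a * ev (l f) x₁ = 0 := by linarith
      rcases mul_eq_zero.1 h5 with h6 | h6
      · exact absurd h6 ha.ne'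
      · exact h6
    have h1 := H.cr e he e' he' hne X h0 h0' (x₁ - X)
      (by rw [lin_sub, hz e he h0, h0, sub_zero]) (by rw [lin_sub, hz e' he' h0', h0', sub_zero])
    exact sub_eq_zero.1 h1
-- END ext_eq

-- BEGIN card_cor
theorem card_cor_fin (H : Poly E l) : (Cor E l).Finite := by
  classical
  have h1 : Cor E l ⊆ ⋃ p ∈ (E ×ˢ E).filter (fun p => p.1 ≠ p.2), {x : ℝ × ℝ | ev (l p.1) x = 0 ∧ ev (l p.2) x = 0} := by
    rintro x ⟨-, e, he, e', he', hne, h1, h2⟩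
    rw [Set.mem_iUnion₂]
    exact ⟨(e, e'), by rw [Finset.mem_filter, Finset.mem_product]; exact ⟨⟨he, he'⟩, hne⟩, h1, h2⟩
  refine Set.Finite.subset (Set.Finite.biUnion (Finset.finite_toSet _) ?_) h1
  rintro p hp
  rw [Finset.mem_coe, Finset.mem_filter, Finset.mem_product] at hp
  apply Set.Subsingleton.finite
  rintro x ⟨hx1, hx2⟩ y ⟨hy1, hy2⟩
  have h2 := H.cr p.1 hp.1.1 p.2 hp.1.2 hp.2 x hx1 hx2 (y - x) (by rw [lin_sub, hx1, hy1, sub_zero]) (by rw [lin_sub, hx2, hy2, sub_zero])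
  exact (sub_eq_zero.1 h2).symm

/-- P16. `Cor E l` is finite (each point is determined by two lines, `cr`); every corner is on exactly two sides (`two_at`), every side contains exactly two corners (`adj`): `Finset.card_mul_eq_card_mul`. -/
theorem card_cor (H : Poly E l) : (Cor E l).Finite ∧ (Cor E l).ncard = (walls E l).card := by
  classical
  have hf := card_cor_fin H
  refine ⟨hf, ?_⟩
  rw [Set.ncard_eq_toFinset_card _ hf]
  have h := Finset.card_mul_eq_card_mul (s := hf.toFinset) (t := walls E l) (fun X e => ev (l e) X = 0) (m := 2) (n := 2) ?_ ?_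
  · omega
  · intro X hX
    rw [Set.Finite.mem_toFinset] at hX
    obtain ⟨e, e', hne, he, he', h1, h2, hu⟩ := two_at H X hX
    rw [Finset.card_eq_two]
    refine ⟨e, e', hne, ?_⟩
    ext a
    rw [Finset.mem_bipartiteAbove, mem_walls, Finset.mem_insert, Finset.mem_singleton]
    constructor
    · rintro ⟨ha, ha0⟩
      exact hu a ha ha0
    · rintro (rfl | rfl)
      · exact ⟨he, h1⟩
      · exact ⟨he', h2⟩
  · intro e he
    rw [mem_walls] at he
    obtain ⟨e₁, e₂, q₁, q₂, h1, h2, h1e, h2e, h12, hq1, hq2, hq, ha1, ha2, hb1, hb2, hc, -⟩ := adj H e he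
    rw [Finset.card_eq_two]
    refine ⟨q₁, q₂, hq, ?_⟩
    ext X
    rw [Finset.mem_bipartiteBelow, Set.Finite.mem_toFinset, Finset.mem_insert, Finset.mem_singleton]
    constructor
    · rintro ⟨hX, hX0⟩
      exact hc X hX hX0
    · rintro (rfl | rfl)
      · exact ⟨⟨hq1, e, he.1, e₁, h1.1, h1e.symm, ha1, hb1⟩, ha1⟩
      · exact ⟨⟨hq2, e, he.1, e₂, h2.1, h2e.symm, ha2, hb2⟩, ha2⟩
-- END card_cor

-- BEGIN closure_op
private theorem closure_op_closed : IsClosed (cl E l) := by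
  have h : cl E l = ⋂ e ∈ E, {x : ℝ × ℝ | 0 ≤ ev (l e) x} := by
    ext x
    simp only [cl, Set.mem_ofPred_eq, Set.mem_iInter]
  rw [h]
  exact isClosed_biInter fun e _ => isClosed_le continuous_const (ev_cont _)

/-- P17. `cl` is closed; for `x ∈ cl` and `x₀ ∈ op` the points `(1 - t) • x + t • x₀`, `0 < t ≤ 1`, are in `op`. -/
theorem closure_op (H : Poly E l) : closure (op E l) = cl E l := by
  apply Set.Subset.antisymm
  · exact closure_minimal (fun x hx e he => (hx e he).le) closure_op_closed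
  · intro x hx
    obtain ⟨x₀, h₀⟩ := H.ne
    have hc : Filter.Tendsto (fun t : ℝ => x + t • (x₀ - x)) (nhdsWithin 0 (Set.Ioi 0)) (nhds x) := by
      have h1 : Continuous (fun t : ℝ => x + t • (x₀ - x)) := by fun_prop
      have h2 := h1.tendsto 0
      simp only [zero_smul, add_zero] at h2
      exact h2.mono_left nhdsWithin_le_nhds
    refine mem_closure_of_tendsto hc ?_
    have h3 : Set.Ioo (0 : ℝ) 1 ∈ nhdsWithin (0 : ℝ) (Set.Ioi 0) := Ioo_mem_nhdsGT one_pos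
    filter_upwards [h3] with t ht
    intro e he
    rw [ev_add, lin_sub]
    have h4 := hx e he
    have h5 := h₀ e he
    have h6 : 0 < t := ht.1
    have h7 : t < 1 := ht.2
    nlinarith [mul_nonneg (sub_nonneg.2 h7.le) h4, mul_pos h6 h5]
-- END closure_op

-- BEGIN bdd_cl
/-- P18. On the compact unit sphere the continuous function `d ↦ min_e lin (l e) d` is negative (`bd`), so `≤ -δ`; for `x₀ ∈ op`, `x ∈ cl`, `x = x₀ + t • d`, `‖d‖ = 1`, `t ≥ 0`: `0 ≤ ev (l e) x₀ - t δ` for some `e`, `t ≤ max_e ev (l e) x₀ / δ`. -/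
theorem bdd_cl (H : Poly E l) : Bornology.IsBounded (cl E l) := by
  obtain ⟨x₀, h₀⟩ := H.ne
  set g : ℝ × ℝ → ℝ := fun d => ∑ e ∈ E, max (-lin (l e) d) 0 with hg
  have hgc : Continuous g := by
    apply continuous_finsetSum
    intro e _
    have : Continuous (fun d : ℝ × ℝ => lin (l e) d) := by
      unfold lin
      fun_prop
    exact (this.neg).max continuous_const
  have hne : (Metric.sphere (0 : ℝ × ℝ) 1).Nonempty := by
    refine ⟨(1, 0), ?_⟩
    simp [Prod.norm_def]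
  obtain ⟨d₀, hd₀, hmin⟩ := (isCompact_sphere (0 : ℝ × ℝ) 1).exists_isMinOn hne hgc.continuousOn
  have hd0 : d₀ ≠ 0 := by
    intro h
    rw [h] at hd₀
    simp at hd₀
  have hδ : 0 < g d₀ := by
    obtain ⟨e, he, h1⟩ := H.bd d₀ hd0
    refine Finset.sum_pos' (fun e _ => le_max_right _ _) ⟨e, he, ?_⟩
    exact lt_max_of_lt_left (by linarith)
  have key : ∀ x ∈ cl E l, ‖x - x₀‖ ≤ (∑ e ∈ E, ev (l e) x₀) / g d₀ := by
    intro x hx
    by_cases hz : x - x₀ = 0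
    · rw [hz, norm_zero]
      exact div_nonneg (Finset.sum_nonneg fun e he => (h₀ e he).le) hδ.le
    · have hr : 0 < ‖x - x₀‖ := norm_pos_iff.2 hz
      set r := ‖x - x₀‖ with hrdef
      have hd : r⁻¹ • (x - x₀) ∈ Metric.sphere (0 : ℝ × ℝ) 1 := by
        rw [mem_sphere_zero_iff_norm, norm_smul, norm_inv, Real.norm_of_nonneg hr.le]
        exact inv_mul_cancel₀ hr.ne'
      have h1 : g d₀ ≤ g (r⁻¹ • (x - x₀)) := hmin hd
      have h2 : g (r⁻¹ • (x - x₀)) ≤ ∑ e ∈ E, r⁻¹ * ev (l e) x₀ := by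
        apply Finset.sum_le_sum
        intro e he
        have h3 : lin (l e) (r⁻¹ • (x - x₀)) = r⁻¹ * (ev (l e) x - ev (l e) x₀) := by
          have h4 := lin_add (l e) 0 (x - x₀) r⁻¹
          rw [lin_sub] at h4
          have h5 : lin (l e) (0 : ℝ × ℝ) = 0 := by simp [lin]
          rw [h5, zero_add, zero_add] at h4
          exact h4
        have hri : 0 < r⁻¹ := inv_pos.2 hr
        apply max_le
        · rw [h3]
          have h6 := mul_nonneg hri.le (hx e he)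
          nlinarith
        · exact mul_nonneg hri.le (h₀ e he).le
      rw [← Finset.mul_sum] at h2
      have h3 : g d₀ ≤ r⁻¹ * ∑ e ∈ E, ev (l e) x₀ := h1.trans h2
      rw [le_div_iff₀ hδ]
      calc r * g d₀ ≤ r * (r⁻¹ * ∑ e ∈ E, ev (l e) x₀) := mul_le_mul_of_nonneg_left h3 hr.le
        _ = ∑ e ∈ E, ev (l e) x₀ := by rw [← mul_assoc, mul_inv_cancel₀ hr.ne', one_mul]
  rw [isBounded_iff_forall_norm_le]
  refine ⟨(∑ e ∈ E, ev (l e) x₀) / g d₀ + ‖x₀‖, fun x hx => ?_⟩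
  calc ‖x‖ = ‖(x - x₀) + x₀‖ := by rw [sub_add_cancel]
    _ ≤ ‖x - x₀‖ + ‖x₀‖ := norm_add_le _ _
    _ ≤ _ := by linarith [key x hx]
-- END bdd_cl

end Fiv
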