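import Pool.Agent.Fiv.Defs

/-!
# Fiv SRT: points in convex position can be labelled counterclockwise
-/

set_option autoImplicit false

namespace Fiv

open Finset

variable {n : ℕ} {v : Fin n → ℝ × ℝ}

-- BEGIN cvx3
/-- S1. A point in convex position is not a convex combination of three others (`convexIndependent_iff_notMem_convexHull_diff` or `ConvexIndependent` directly: `v j ∈ convexHull ℝ (v '' {i, k, z})` implies `j ∈ {i, k, z}`). -/
theorem cvx3 (hv : ConvexIndependent ℝ v) (j i k z : Fin n) (h1 : j ≠ i) (h2 : j ≠ k) (h3 : j ≠ z) (a b c : ℝ) (ha : 0 ≤ a) (hb : 0 ≤ b) (hc : 0 ≤ c)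
    (hs : a + b + c = 1) (hj : v j = a • v i + b • v k + c • v z) : False := by
  have hmem : v j ∈ convexHull ℝ (v '' ({i, k, z} : Set (Fin n))) := by
    have hi : v i ∈ convexHull ℝ (v '' ({i, k, z} : Set (Fin n))) :=
      subset_convexHull _ _ ⟨i, by simp, rfl⟩
    have hk : v k ∈ convexHull ℝ (v '' ({i, k, z} : Set (Fin n))) :=
      subset_convexHull _ _ ⟨k, by simp, rfl⟩
    have hz : v z ∈ convexHull ℝ (v '' ({i, k, z} : Set (Fin n))) :=
      subset_convexHull _ _ ⟨z, by simp, rfl⟩
    have hsum := (convex_convexHull ℝ (v '' ({i, k, z} : Set (Fin n)))).sum_mem (t := (Finset.univ : Finset (Fin 3)))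
      (w := ![a, b, c]) (z := ![v i, v k, v z])
      (by
        intro q _
        fin_cases q
        · exact ha
        · exact hb
        · exact hc)
      (by
        rw [Fin.sum_univ_three]
        exact hs)
      (by
        intro q _
        fin_cases q
        · exact hi
        · exact hk
        · exact hz)
    rw [Fin.sum_univ_three] at hsum
    rw [hj]
    exact hsum
  have hin := hv _ j hmem
  simp only [Set.mem_insert_iff, Set.mem_singleton_iff] at hin
  rcases hin with h | h | h
  · exact h1 h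
  · exact h2 h
  · exact h3 h
-- END cvx3

-- BEGIN noncol
/-- S2. Three collinear points: one of them is in the segment of the two others (`cvx3` with `c = 0`). -/
theorem noncol (hv : ConvexIndependent ℝ v) (i j k : Fin n) (h1 : i ≠ j) (h2 : i ≠ k) (h3 : j ≠ k) : ev (lf (v i) (v j)) (v k) ≠ 0 := by
  intro h0
  have hne : v i ≠ v j := fun h => h1 (hv.injective h)
  have hd : v j - v i ≠ 0 := fun h => hne (sub_eq_zero.1 h).symm
  have hnz : ∃ d, lin (lf (v i) (v j)) d ≠ 0 := by
    by_contra hcon
    push Not at hcon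
    have e1 := hcon (1, 0)
    have e2 := hcon (0, 1)
    simp only [lin, lf] at e1 e2
    apply hne
    apply Prod.ext
    · linarith
    · linarith
  obtain ⟨t, ht⟩ := par (lf (v i) (v j)) hnz (v j - v i) (v k - v i) hd
    (by rw [lin_sub, lf_left, lf_right]; ring) (by rw [lin_sub, lf_left, h0]; ring)
  have ht' : v k = (1 - t) • v i + t • v j := by
    have e := sub_eq_iff_eq_add.1 ht
    rw [e]
    rw [smul_sub, sub_smul, one_smul]
    abel
  by_cases c1 : t < 0
  · -- `v i` is between `v k` and `v j`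
    have hq : 0 < 1 - t := by linarith
    refine cvx3 hv i k j j h2 h1 h1 (1 / (1 - t)) (-t / (1 - t)) 0 (by positivity) (div_nonneg (by linarith) hq.le) le_rfl ?_ ?_
    · field_simp
      ring
    · rw [ht']
      apply Prod.ext
      · simp only [Prod.fst_add, Prod.smul_fst, smul_eq_mul]
        field_simp
        ring
      · simp only [Prod.snd_add, Prod.smul_snd, smul_eq_mul]
        field_simp
        ring
  · by_cases c2 : t ≤ 1
    · exact cvx3 hv k i j j h2.symm h3.symm h3.symm (1 - t) t 0 (by linarith) (by linarith) le_rfl (by ring)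
        (by rw [ht']; simp)
    · have hq : 0 < t := by linarith
      refine cvx3 hv j i k k h1.symm h3 h3 ((t - 1) / t) (1 / t) 0 (div_nonneg (by linarith) hq.le) (by positivity) le_rfl ?_ ?_
      · field_simp
        ring
      · rw [ht']
        apply Prod.ext
        · simp only [Prod.fst_add, Prod.smul_fst, smul_eq_mul]
          field_simp
          ring
        · simp only [Prod.snd_add, Prod.smul_snd, smul_eq_mul]
          field_simp
          ring
-- END noncol

-- BEGIN trans3
/-- S3. Suppose `ev (lf z i) k ≤ 0`, so `< 0` (`noncol`), `ev (lf z k) i > 0`. With `A = ev (lf z i) j > 0`, `B = ev (lf z j) k > 0`, `C = ev (lf z k) i > 0`: `(A + B + C) • z = B • v i + C • v j + A • v k`, a convex combination: `cvx3`. -/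
theorem trans3 (hv : ConvexIndependent ℝ v) (z i j k : Fin n) (hi : z ≠ i) (hj : z ≠ j) (hk : z ≠ k)
    (h1 : 0 < ev (lf (v z) (v i)) (v j)) (h2 : 0 < ev (lf (v z) (v j)) (v k)) : 0 < ev (lf (v z) (v i)) (v k) := by
  by_contra hcon
  have hik : i ≠ k := by
    intro h
    subst h
    rw [lf_cyc, lf_cyc, lf_anti] at h2
    rw [lf_cyc] at h1
    have : ev (lf (v z) (v i)) (v j) = ev (lf (v i) (v j)) (v z) := lf_cyc _ _ _
    simp only [ev, lf] at *
    linarith
  have hne := noncol hv z i k hi hk hik
  have hneg : ev (lf (v z) (v i)) (v k) < 0 := lt_of_le_of_ne (not_lt.1 hcon) hne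
  have hC : 0 < ev (lf (v z) (v k)) (v i) := by
    simp only [ev, lf] at hneg ⊢
    linarith
  set A := ev (lf (v z) (v i)) (v j) with hA
  set B := ev (lf (v z) (v j)) (v k) with hB
  set C := ev (lf (v z) (v k)) (v i) with hCC
  have hS : 0 < A + B + C := by positivity
  refine cvx3 hv z i j k hi hj hk (B / (A + B + C)) (C / (A + B + C)) (A / (A + B + C)) (by positivity) (by positivity) (by positivity) ?_ ?_
  · field_simp
    ring
  · have hx : (A + B + C) * (v z).1 = B * (v i).1 + C * (v j).1 + A * (v k).1 := by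
      rw [hA, hB, hCC]
      simp only [ev, lf]
      ring
    have hy : (A + B + C) * (v z).2 = B * (v i).2 + C * (v j).2 + A * (v k).2 := by
      rw [hA, hB, hCC]
      simp only [ev, lf]
      ring
    clear_value A B C
    apply Prod.ext
    · simp only [Prod.fst_add, Prod.smul_fst, smul_eq_mul]
      field_simp
      linarith
    · simp only [Prod.snd_add, Prod.smul_snd, smul_eq_mul]
      field_simp
      linarith
-- END trans3

-- BEGIN pos3
/-- S4. `D(i,j,k) = D(z,i,j) + D(z,j,k) - D(z,i,k)`, `≠ 0` (`noncol`); if it is negative: `D(z,i,k) • v j = D(z,j,k) • v i + D(z,i,j) • v k + (-D(i,j,k)) • v z`, a convex combination: `cvx3`. (`D(a,b,c) = ev (lf (v a) (v b)) (v c)`; `i, j, k, z` are different because of the hypotheses and `lf_left`, `lf_right`.) -/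
theorem pos3 (hv : ConvexIndependent ℝ v) (z i j k : Fin n) (h1 : 0 < ev (lf (v z) (v i)) (v j)) (h2 : 0 < ev (lf (v z) (v j)) (v k))
    (h3 : 0 < ev (lf (v z) (v i)) (v k)) : 0 < ev (lf (v i) (v j)) (v k) := by
  have e0 : ev (lf (v i) (v j)) (v k) = ev (lf (v z) (v i)) (v j) + ev (lf (v z) (v j)) (v k) - ev (lf (v z) (v i)) (v k) := by
    simp only [ev, lf]
    ring
  have hij : i ≠ j := by
    intro h
    subst h
    rw [lf_right] at h1
    exact lt_irrefl _ h1
  have hjk : j ≠ k := by
    intro h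
    subst h
    rw [lf_right] at h2
    exact lt_irrefl _ h2
  have hik : i ≠ k := by
    intro h
    subst h
    rw [lf_right] at h3
    exact lt_irrefl _ h3
  have hjz : j ≠ z := by
    intro h
    subst h
    rw [lf_left] at h1
    exact lt_irrefl _ h1
  by_contra hcon
  have hne := noncol hv i j k hij hik hjk
  have hneg : ev (lf (v i) (v j)) (v k) < 0 := lt_of_le_of_ne (not_lt.1 hcon) hne
  have hx : ev (lf (v z) (v i)) (v k) * (v j).1 = ev (lf (v z) (v j)) (v k) * (v i).1 + ev (lf (v z) (v i)) (v j) * (v k).1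
      + (-ev (lf (v i) (v j)) (v k)) * (v z).1 := by
    simp only [ev, lf]
    ring
  have hy : ev (lf (v z) (v i)) (v k) * (v j).2 = ev (lf (v z) (v j)) (v k) * (v i).2 + ev (lf (v z) (v i)) (v j) * (v k).2
      + (-ev (lf (v i) (v j)) (v k)) * (v z).2 := by
    simp only [ev, lf]
    ring
  revert h1 h2 h3 e0 hneg hx hy
  generalize ev (lf (v z) (v i)) (v j) = A
  generalize ev (lf (v z) (v j)) (v k) = B
  generalize ev (lf (v z) (v i)) (v k) = C
  generalize ev (lf (v i) (v j)) (v k) = E
  intro h1 h2 h3 e0 hneg hx hy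
  refine cvx3 hv j i k z hij.symm hjk hjz (B / C) (A / C) (-E / C) (by positivity) (by positivity) (div_nonneg (by linarith) h3.le) ?_ ?_
  · field_simp
    linarith
  · apply Prod.ext
    · simp only [Prod.fst_add, Prod.smul_fst, smul_eq_mul]
      field_simp
      linarith
    · simp only [Prod.snd_add, Prod.smul_snd, smul_eq_mul]
      field_simp
      linarith
-- END pos3

-- BEGIN srt
/-- S5. Let `z = 0`. The relation `i ≺ j :⇔ i = z ∧ j ≠ z ∨ i ≠ z ∧ j ≠ z ∧ 0 < ev (lf (v z) (v i)) (v j)` is a strict total order on `Fin n` (`noncol`, `lf_cyc`, `lf_anti`, `trans3`); sort: a permutation `σ` with `i < j → σ i ≺ σ j`. For `i < j < k`: if `σ i = z` the relation `σ j ≺ σ k` is the claim, otherwise `pos3`. -/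
theorem srt (hn : 3 ≤ n) (hv : ConvexIndependent ℝ v) : ∃ σ : Equiv.Perm (Fin n), Ccw (v ∘ σ) := by
  classical
  obtain ⟨z, -⟩ : ∃ z : Fin n, z = ⟨0, by omega⟩ := ⟨_, rfl⟩
  have hanti : ∀ i j : Fin n, ev (lf (v z) (v j)) (v i) = -ev (lf (v z) (v i)) (v j) := by
    intro i j
    simp only [ev, lf]
    ring
  let P : Fin n → Fin n → Prop := fun i j => (i = z ∧ j ≠ z) ∨ (i ≠ z ∧ j ≠ z ∧ 0 < ev (lf (v z) (v i)) (v j))
  have hPirr : ∀ i, ¬ P i i := by
    rintro i (⟨h, h'⟩ | ⟨-, -, h⟩)
    · exact h' h
    · rw [lf_right] at h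
      exact lt_irrefl _ h
  have hPtr : ∀ i j k, P i j → P j k → P i k := by
    rintro i j k (⟨h1, h2⟩ | ⟨h1, h2, h3⟩) (⟨h4, h5⟩ | ⟨h4, h5, h6⟩)
    · exact absurd h4 h2
    · exact Or.inl ⟨h1, h5⟩
    · exact absurd h4 h2
    · exact Or.inr ⟨h1, h5, trans3 hv z i j k (Ne.symm h1) (Ne.symm h2) (Ne.symm h5) h3 h6⟩
  have hPtot : ∀ i j, i ≠ j → P i j ∨ P j i := by
    intro i j hij
    by_cases hi : i = z
    · left
      exact Or.inl ⟨hi, fun h => hij (hi.trans h.symm)⟩
    · by_cases hj : j = z
      · right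
        exact Or.inl ⟨hj, hi⟩
      · have hne := noncol hv z i j (Ne.symm hi) (Ne.symm hj) hij
        rcases lt_or_gt_of_ne hne with h | h
        · right
          exact Or.inr ⟨hj, hi, by rw [hanti]; linarith⟩
        · left
          exact Or.inr ⟨hi, hj, h⟩
  let f : Fin n → ℕ := fun i => (univ.filter (fun j => P j i)).card
  have hf : ∀ i j, P i j → f i < f j := by
    intro i j hij
    apply card_lt_card
    refine ⟨?_, ?_⟩
    · intro x hx
      rw [mem_filter] at hx ⊢
      exact ⟨mem_univ _, hPtr x i j hx.2 hij⟩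
    · intro hsub
      have : i ∈ univ.filter (fun j => P j i) := hsub (by rw [mem_filter]; exact ⟨mem_univ _, hij⟩)
      rw [mem_filter] at this
      exact hPirr i this.2
  have hfn : ∀ i, f i < n := by
    intro i
    have : (univ.filter (fun j => P j i)) ⊂ (univ : Finset (Fin n)) := by
      refine ⟨filter_subset _ _, ?_⟩
      intro hsub
      have : i ∈ univ.filter (fun j => P j i) := hsub (mem_univ _)
      rw [mem_filter] at this
      exact hPirr i this.2
    have h := card_lt_card this
    rw [card_univ, Fintype.card_fin] at h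
    exact h
  let g : Fin n → Fin n := fun i => ⟨f i, hfn i⟩
  have hginj : Function.Injective g := by
    intro i j hij
    by_contra hne
    have h : f i = f j := congrArg Fin.val hij
    rcases hPtot i j hne with h' | h'
    · have := hf i j h'
      omega
    · have := hf j i h'
      omega
  let τ : Equiv.Perm (Fin n) := Equiv.ofBijective g (Finite.injective_iff_bijective.1 hginj)
  have hτ : ∀ i, (τ i : ℕ) = f i := fun i => rfl
  have hσ : ∀ i j, i < j → P (τ.symm i) (τ.symm j) := by
    intro i j hij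
    have hne : τ.symm i ≠ τ.symm j := fun h => hij.ne (τ.symm.injective h)
    rcases hPtot _ _ hne with h | h
    · exact h
    · exfalso
      have h1 := hf _ _ h
      rw [← hτ, ← hτ, Equiv.apply_symm_apply, Equiv.apply_symm_apply] at h1
      have : (i : ℕ) < j := hij
      omega
  refine ⟨τ.symm, ?_⟩
  intro i j k hij hjk
  have h1 := hσ i j hij
  have h2 := hσ j k hjk
  have h3 := hσ i k (hij.trans hjk)
  show 0 < ev (lf (v (τ.symm i)) (v (τ.symm j))) (v (τ.symm k))
  rcases h1 with ⟨a1, a2⟩ | ⟨a1, a2, a3⟩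
  · rcases h2 with ⟨b1, b2⟩ | ⟨b1, b2, b3⟩
    · exact absurd b1 a2
    · rw [a1]
      exact b3
  · rcases h2 with ⟨b1, b2⟩ | ⟨b1, b2, b3⟩
    · exact absurd b1 a2
    · rcases h3 with ⟨c1, c2⟩ | ⟨c1, c2, c3⟩
      · exact absurd c1 a1
      · exact pos3 hv z _ _ _ a3 b3 c3
-- END srt

-- BEGIN Un_perm
/-- S6. -/
theorem Un_perm (σ : Equiv.Perm (Fin n)) : Un (v ∘ σ) = Un v := by
  unfold Un
  rw [← σ.surjective.iUnion_comp (fun i => ⋃ j, segment ℝ (v i) (v j))]
  congr 1
  funext i
  rw [← σ.surjective.iUnion_comp (fun j => segment ℝ (v (σ i)) (v j))]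
  rfl
-- END Un_perm

-- BEGIN thr_perm
private theorem thr_perm_le {n : ℕ} (v : Fin n → ℝ × ℝ) (σ : Equiv.Perm (Fin n)) (p : ℝ × ℝ) : thr (v ∘ σ) p ≤ thr v p := by
  classical
  unfold thr
  refine Finset.card_le_card_of_injOn (fun e => if σ e.1 < σ e.2 then (σ e.1, σ e.2) else (σ e.2, σ e.1)) ?_ ?_
  · intro e he
    have he' := Finset.mem_filter.1 (Finset.mem_coe.1 he)
    obtain ⟨-, h1, h2⟩ := he'
    have hne : σ e.1 ≠ σ e.2 := fun h => h1.ne (σ.injective h)
    apply Finset.mem_coe.2
    apply Finset.mem_filter.2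
    refine ⟨Finset.mem_univ _, ?_⟩
    dsimp only
    split_ifs with h
    · exact ⟨h, h2⟩
    · refine ⟨lt_of_le_of_ne (not_lt.1 h) hne.symm, ?_⟩
      rw [openSegment_symm]
      exact h2
  · intro e he e' he' hee
    have h1 := (Finset.mem_filter.1 (Finset.mem_coe.1 he)).2.1
    have h1' := (Finset.mem_filter.1 (Finset.mem_coe.1 he')).2.1
    dsimp only at hee
    split_ifs at hee with h h' h'
    · rw [Prod.mk.injEq] at hee
      exact Prod.ext (σ.injective hee.1) (σ.injective hee.2)
    · exfalso
      rw [Prod.mk.injEq] at hee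
      have e1 := σ.injective hee.1
      have e2 := σ.injective hee.2
      rw [e1, e2] at h1
      exact lt_asymm h1 h1'
    · exfalso
      rw [Prod.mk.injEq] at hee
      have e1 := σ.injective hee.1
      have e2 := σ.injective hee.2
      rw [← e1, ← e2] at h1'
      exact lt_asymm h1 h1'
    · rw [Prod.mk.injEq] at hee
      exact Prod.ext (σ.injective hee.2) (σ.injective hee.1)

/-- S7. `e ↦ (σ e.1, σ e.2)` or `(σ e.2, σ e.1)`, whichever is sorted, is a bijection of the pairs `e.1 < e.2`; `openSegment_symm`. -/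
theorem thr_perm (σ : Equiv.Perm (Fin n)) (p : ℝ × ℝ) : thr (v ∘ σ) p = thr v p := by
  apply le_antisymm
  · exact thr_perm_le v σ p
  · have h := thr_perm_le (v ∘ σ) σ⁻¹ p
    have hv' : (v ∘ σ) ∘ (σ⁻¹ : Equiv.Perm (Fin n)) = v := by
      funext i
      simp
    rwa [hv'] at h
-- END thr_perm

end Fiv
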