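import Mathlib

/-!
# Convex drawings of `K_n`: the definitions used in the statement
-/

set_option autoImplicit false

namespace Fiv

/-- the union of all edges -/
def Un {n : ℕ} (v : Fin n → ℝ × ℝ) : Set (ℝ × ℝ) := ⋃ i, ⋃ j, segment ℝ (v i) (v j)

/-- bounded faces: bounded connected components of the complement of the union of all edges -/
def IsFace {n : ℕ} (v : Fin n → ℝ × ℝ) (F : Set (ℝ × ℝ)) : Prop :=
  ∃ x, x ∉ Un v ∧ F = connectedComponentIn (Un v)ᶜ x ∧ Bornology.IsBounded F

/-- the number of corners of a face -/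
noncomputable def size (F : Set (ℝ × ℝ)) : ℕ := ((closure F).extremePoints ℝ).ncard

/-- the `5`-faces -/
def fiveFaces {n : ℕ} (v : Fin n → ℝ × ℝ) : Set (Set (ℝ × ℝ)) := {F | IsFace v F ∧ size F = 5}

open Classical in
/-- the number of edges through the point `p` (as an interior point of the edge) -/
noncomputable def thr {n : ℕ} (v : Fin n → ℝ × ℝ) (p : ℝ × ℝ) : ℕ :=
  (Finset.univ.filter (fun e : Fin n × Fin n => e.1 < e.2 ∧ p ∈ openSegment ℝ (v e.1) (v e.2))).card

/-- the points on at least three edges -/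
def multi {n : ℕ} (v : Fin n → ℝ × ℝ) : Set (ℝ × ℝ) := {p | 3 ≤ thr v p}

end Fiv
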