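import Pool.Agent.Fiv.Cell

/-!
# Fiv TOP: the cells are the bounded faces
-/

set_option autoImplicit false

namespace Fiv

open Finset

variable {n : ℕ} {v : Fin n → ℝ × ℝ}

-- BEGIN op_disj
/-- F1. A point of `segment ℝ (v i) (v j)` is on the line of an edge (`seg_zero` for the sorted pair, `segment_symm`; for `i = j` it is `v i`, on the line of any edge at `i`: `ln_fst`, `ln_snd`), so it is not in `op` (`sl_zero`). -/
theorem op_disj (hn : 3 ≤ n) (S : Finset (Fin n × Fin n)) (x : ℝ × ℝ) (hx : x ∈ op (Ed n) (sl v S)) : x ∉ Un v := by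
  intro hU
  have key : ∀ e ∈ Ed n, ev (ln v e) x ≠ 0 := by
    intro e he h0
    have h1 : 0 < ev (sl v S e) x := hx e he
    rw [sl_zero.2 h0] at h1
    exact lt_irrefl _ h1
  obtain ⟨i, hi⟩ := Set.mem_iUnion.1 hU
  obtain ⟨j, hj⟩ := Set.mem_iUnion.1 hi
  rcases lt_trichotomy i j with h | h | h
  · exact key (i, j) (mem_Ed.2 h) (seg_zero (i, j) x hj)
  · subst h
    rw [segment_same] at hj
    have hj' : x = v i := hj
    have : Nontrivial (Fin n) := Fin.nontrivial_iff_two_le.2 (by omega)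
    obtain ⟨k, hk⟩ := exists_ne i
    rcases lt_or_gt_of_ne hk with h | h
    · exact key (k, i) (mem_Ed.2 h) (by rw [hj']; exact ln_snd v (k, i))
    · exact key (i, k) (mem_Ed.2 h) (by rw [hj']; exact ln_fst v (i, k))
  · rw [segment_symm] at hj
    exact key (j, i) (mem_Ed.2 h) (seg_zero (j, i) x hj)
-- END op_disj

-- BEGIN cl_sub
/-- F2. If `ev (sl v S e) x = 0` for some `e ∈ Ed n`: `hull_cl`, `seg` give `x ∈ segment ⊆ Un v`. -/
theorem cl_sub (hn : 3 ≤ n) (hv : Ccw v) (S : Finset (Fin n × Fin n)) (hS : S ∈ cells v) (x : ℝ × ℝ) (hx : x ∈ cl (Ed n) (sl v S)) (hU : x ∉ Un v) :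
    x ∈ op (Ed n) (sl v S) := by
  intro e he
  refine lt_of_le_of_ne (hx e he) fun h0 => ?_
  have h1 : ev (ln v e) x = 0 := sl_zero.1 h0.symm
  exact hU (Set.mem_iUnion.2 ⟨e.1, Set.mem_iUnion.2 ⟨e.2, seg hn hv e he x h1 (hull_cl S hS x hx)⟩⟩)
-- END cl_sub

-- BEGIN comp
/-- F3. `op` is convex, so preconnected, contained in the complement (`op_disj`): `⊆` (`IsPreconnected.subset_connectedComponentIn`). Conversely the component `C` is preconnected; `op` and `(cl)ᶜ` are open, cover `C` (`cl_sub`) and are disjoint, `C` meets `op` in `x`, so it does not meet `(cl)ᶜ` (`isPreconnected_iff_subset_of_disjoint`). -/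
theorem comp (hn : 3 ≤ n) (hv : Ccw v) (S : Finset (Fin n × Fin n)) (hS : S ∈ cells v) (x : ℝ × ℝ) (hx : x ∈ op (Ed n) (sl v S)) :
    connectedComponentIn (Un v)ᶜ x = op (Ed n) (sl v S) := by
  have hconv : Convex ℝ (op (Ed n) (sl v S)) := by
    intro a ha b hb s t hs ht hst e he
    rw [ev_comb _ _ _ _ _ hst]
    have h1 := ha e he
    have h2 := hb e he
    rcases hs.eq_or_lt with h3 | h3
    · have h4 : t = 1 := by linarith
      rw [← h3, h4]
      linarith
    · have h5 := mul_pos h3 h1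
      have h6 := mul_nonneg ht h2.le
      linarith
  have hop : IsOpen (op (Ed n) (sl v S)) := by
    have h1 : op (Ed n) (sl v S) = ⋂ e ∈ Ed n, {y | 0 < ev (sl v S e) y} := by
      ext y
      simp only [op, Set.mem_iInter]
      rfl
    rw [h1]
    exact isOpen_biInter_finset fun e _ => isOpen_lt continuous_const (ev_cont _)
  have hcl : IsClosed (cl (Ed n) (sl v S)) := by
    have h1 : cl (Ed n) (sl v S) = ⋂ e ∈ Ed n, {y | 0 ≤ ev (sl v S e) y} := by
      ext y
      simp only [cl, Set.mem_iInter]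
      rfl
    rw [h1]
    exact isClosed_biInter fun e _ => isClosed_le continuous_const (ev_cont _)
  have hxU : x ∉ Un v := op_disj hn S x hx
  apply Set.Subset.antisymm
  · have hx' : x ∈ connectedComponentIn (Un v)ᶜ x := mem_connectedComponentIn hxU
    refine IsPreconnected.subset_left_of_subset_union hop hcl.isOpen_compl ?_ ?_ ⟨x, hx', hx⟩
      isPreconnected_connectedComponentIn
    · rw [Set.disjoint_left]
      intro y hy hy'
      exact hy' fun e he => (hy e he).le
    · intro y hy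
      by_cases hyc : y ∈ cl (Ed n) (sl v S)
      · exact Or.inl (cl_sub hn hv S hS y hyc (connectedComponentIn_subset _ _ hy))
      · exact Or.inr hyc
  · exact hconv.isPreconnected.subset_connectedComponentIn hx fun y hy => op_disj hn S y hy
-- END comp

-- BEGIN Un_hull
/-- F4. All edges are in the closed polygon (`hull_nonneg`, `ev_comb`). -/
theorem Un_hull (hn : 3 ≤ n) (hv : Ccw v) (x : ℝ × ℝ) (hx : x ∈ Un v) (h : Fin n × Fin n) (hh : h ∈ Hu n) : 0 ≤ ev (ln v h) x := by
  obtain ⟨i, hi⟩ := Set.mem_iUnion.1 hx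
  obtain ⟨j, a, b, ha, hb, hab, rfl⟩ := Set.mem_iUnion.1 hi
  rw [ev_comb _ _ _ _ _ hab]
  have h1 := mul_nonneg ha (hull_nonneg hn hv h hh i)
  have h2 := mul_nonneg hb (hull_nonneg hn hv h hh j)
  linarith
-- END Un_hull

-- BEGIN half_unb
/-- F5. An open half plane is not bounded (`l` not constant: `nz_ed`): `x + t • w` with `lin (ln v h) w < 0`, `t → ∞`. -/
theorem half_unb (hn : 3 ≤ n) (hv : Ccw v) (h : Fin n × Fin n) (hh : h ∈ Hu n) (x : ℝ × ℝ) (hx : ev (ln v h) x < 0) :
    ¬ Bornology.IsBounded {y | ev (ln v h) y < 0} := by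
  intro hb
  obtain ⟨d, hd⟩ := nz_ed hn hv h (Hu_sub hh)
  obtain ⟨w, hw⟩ : ∃ w, lin (ln v h) w < 0 := by
    rcases lt_or_gt_of_ne hd with h1 | h1
    · exact ⟨d, h1⟩
    · exact ⟨-d, by rw [lin_neg]; linarith⟩
  have hw0 : w ≠ 0 := by
    rintro rfl
    simp [lin] at hw
  have hwn : 0 < ‖w‖ := norm_pos_iff.2 hw0
  obtain ⟨C, hC⟩ := hb.exists_norm_le
  have hC0 : 0 ≤ C := (norm_nonneg x).trans (hC x hx)
  have ht : 0 ≤ (C + ‖x‖ + 1) / ‖w‖ := by positivity
  have h1 : ‖x + ((C + ‖x‖ + 1) / ‖w‖) • w‖ ≤ C := by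
    apply hC
    show ev (ln v h) (x + ((C + ‖x‖ + 1) / ‖w‖) • w) < 0
    rw [ev_add]
    have := mul_nonneg ht (neg_nonneg.2 hw.le)
    linarith
  have h2 : ‖((C + ‖x‖ + 1) / ‖w‖) • w‖ = C + ‖x‖ + 1 := by
    rw [norm_smul, Real.norm_of_nonneg ht, div_mul_cancel₀ _ hwn.ne']
  have h3 : ‖((C + ‖x‖ + 1) / ‖w‖) • w‖ ≤ ‖x + ((C + ‖x‖ + 1) / ‖w‖) • w‖ + ‖x‖ := by
    have h4 : ((C + ‖x‖ + 1) / ‖w‖) • w = (x + ((C + ‖x‖ + 1) / ‖w‖) • w) - x := by abel
    rw [h4]
    simpa using norm_sub_le (x + ((C + ‖x‖ + 1) / ‖w‖) • w) x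
  linarith
-- END half_unb

-- BEGIN face_iff
/-- F6. `→`: `x ∉ Un v`. If some side `h` is negative at `x`, the half plane (convex, disjoint from `Un v` by `Un_hull`) is contained in the component, which is not bounded (`half_unb`). Otherwise all sides are `≥ 0` at `x`; no edge line vanishes at `x` (`seg`), so `x ∈ Rg v` and `S = (Ed n).filter (0 < ev (ln v e) x)` is a cell with `x ∈ op`: `comp`.
`←`: `mem_cells`, `op_disj`, `comp`, `bdd_cl` with `cell_poly` (`op ⊆ cl`). -/
theorem face_iff (hn : 3 ≤ n) (hv : Ccw v) (F : Set (ℝ × ℝ)) : IsFace v F ↔ ∃ S ∈ cells v, F = op (Ed n) (sl v S) := by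
  classical
  constructor
  · rintro ⟨x, hx, rfl, hb⟩
    have hside : ∀ h ∈ Hu n, 0 ≤ ev (ln v h) x := by
      intro h hh
      by_contra hneg
      rw [not_le] at hneg
      have hconv : Convex ℝ {y | ev (ln v h) y < 0} := by
        intro a ha b hb s t hs ht hst
        show ev (ln v h) (s • a + t • b) < 0
        rw [ev_comb _ _ _ _ _ hst]
        have h1 : ev (ln v h) a < 0 := ha
        have h2 : ev (ln v h) b < 0 := hb
        rcases hs.eq_or_lt with h3 | h3
        · have h4 : t = 1 := by linarith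
          rw [← h3, h4]
          linarith
        · have h5 := mul_pos h3 (neg_pos.2 h1)
          have h6 := mul_nonneg ht (neg_nonneg.2 h2.le)
          nlinarith
      have hsub : {y | ev (ln v h) y < 0} ⊆ connectedComponentIn (Un v)ᶜ x := by
        refine hconv.isPreconnected.subset_connectedComponentIn hneg fun y hy hyU => ?_
        have h1 := Un_hull hn hv y hyU h hh
        have h2 : ev (ln v h) y < 0 := hy
        linarith
      exact half_unb hn hv h hh x hneg (hb.subset hsub)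
    have hne : ∀ e ∈ Ed n, ev (ln v e) x ≠ 0 := by
      intro e he h0
      exact hx (Set.mem_iUnion.2 ⟨e.1, Set.mem_iUnion.2 ⟨e.2, seg hn hv e he x h0 hside⟩⟩)
    have hRg : x ∈ Rg v := fun h hh => lt_of_le_of_ne (hside h hh) (hne h (Hu_sub hh)).symm
    have hop : x ∈ op (Ed n) (sl v ((Ed n).filter fun e => 0 < ev (ln v e) x)) := by
      intro e he
      rw [sl_pos]
      exact ⟨hne e he, by simp [he]⟩
    have hS : (Ed n).filter (fun e => 0 < ev (ln v e) x) ∈ cells v :=
      mem_cells.2 ⟨Finset.filter_subset _ _, x, hRg, hop⟩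
    exact ⟨_, hS, comp hn hv _ hS x hop⟩
  · rintro ⟨S, hS, rfl⟩
    obtain ⟨_, x, _, hx⟩ := mem_cells.1 hS
    refine ⟨x, op_disj hn S x hx, (comp hn hv S hS x hx).symm, ?_⟩
    exact (bdd_cl (cell_poly hn hv S hS)).subset fun y hy e he => (hy e he).le
-- END face_iff

-- BEGIN op_inj
/-- F7. A point of the common `op` determines `S` (`sl_pos`; `S ⊆ Ed n`). -/
theorem op_inj (S S' : Finset (Fin n × Fin n)) (hS : S ∈ cells v) (hS' : S' ∈ cells v) (h : op (Ed n) (sl v S) = op (Ed n) (sl v S')) : S = S' := by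
  obtain ⟨h1, x, _, hx⟩ := mem_cells.1 hS
  obtain ⟨h2, _⟩ := mem_cells.1 hS'
  have hx' : x ∈ op (Ed n) (sl v S') := h ▸ hx
  ext e
  constructor
  · intro he
    exact (sl_pos.1 (hx' e (h1 he))).2.2 ((sl_pos.1 (hx e (h1 he))).2.1 he)
  · intro he
    exact (sl_pos.1 (hx e (h2 he))).2.2 ((sl_pos.1 (hx' e (h2 he))).2.1 he)
-- END op_inj

-- BEGIN size_op
/-- F8. `closure_op`, `ext_eq`, `card_cor` with `cell_poly`. -/
theorem size_op (hn : 3 ≤ n) (hv : Ccw v) (S : Finset (Fin n × Fin n)) (hS : S ∈ cells v) : size (op (Ed n) (sl v S)) = kk v S := by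
  have H := cell_poly hn hv S hS
  unfold size kk
  rw [closure_op H, ext_eq H]
  exact (card_cor H).2
-- END size_op

-- BEGIN five_card
open Classical in
/-- F9. `fiveFaces v` is the image of the cells with `kk = 5` under the injective map `S ↦ op (Ed n) (sl v S)` (`face_iff`, `size_op`, `op_inj`; `Set.ncard_image_of_injOn`, `Set.ncard_coe_finset`). -/
theorem five_card (hn : 3 ≤ n) (hv : Ccw v) : (fiveFaces v).Finite ∧ (fiveFaces v).ncard = ((cells v).filter (fun S => kk v S = 5)).card := by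
  classical
  have h1 : fiveFaces v = (fun S => op (Ed n) (sl v S)) '' (((cells v).filter (fun S => kk v S = 5) : Finset _) : Set (Finset (Fin n × Fin n))) := by
    ext F
    constructor
    · rintro ⟨hF, h5⟩
      obtain ⟨S, hS, rfl⟩ := (face_iff hn hv F).1 hF
      refine ⟨S, ?_, rfl⟩
      rw [Finset.mem_coe, Finset.mem_filter]
      exact ⟨hS, by rw [← size_op hn hv S hS]; exact h5⟩
    · rintro ⟨S, hS, rfl⟩
      rw [Finset.mem_coe, Finset.mem_filter] at hS
      exact ⟨(face_iff hn hv _).2 ⟨S, hS.1, rfl⟩, (size_op hn hv S hS.1).trans hS.2⟩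
  have h2 : Set.InjOn (fun S => op (Ed n) (sl v S)) (((cells v).filter (fun S => kk v S = 5) : Finset _) : Set (Finset (Fin n × Fin n))) := by
    intro S hS S' hS' h
    rw [Finset.mem_coe, Finset.mem_filter] at hS hS'
    exact op_inj S S' hS.1 hS'.1 h
  rw [h1]
  refine ⟨(Finset.finite_toSet _).image _, ?_⟩
  rw [Set.ncard_image_of_injOn h2, Set.ncard_coe_finset]
-- END five_card

-- BEGIN thr_mu
/-- F10. For `p ∈ Rg v`: `p ∈ openSegment ℝ (v e.1) (v e.2) ↔ ev (ln v e) p = 0` for `e ∈ Ed n` (`seg_zero`, `openSegment_subset_segment`; `seg`, and `p` is not a vertex, because every vertex is on a side: `sep`, `ln_fst`, `ln_snd`). -/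
theorem thr_mu (hn : 3 ≤ n) (hv : Ccw v) (p : ℝ × ℝ) (hp : p ∈ Rg v) : thr v p = mu v p := by
  classical
  have hne : ∀ i : Fin n, p ≠ v i := by
    intro i hpi
    have : Nontrivial (Fin n) := Fin.nontrivial_iff_two_le.2 (by omega)
    obtain ⟨k, hk⟩ := exists_ne i
    obtain ⟨h, hh, hi, -⟩ := sep hn hv i k hk.symm
    have h1 : 0 < ev (ln v h) p := hp h hh
    rcases hi with hi | hi
    · rw [hpi, ← hi, ln_fst] at h1
      exact lt_irrefl _ h1
    · rw [hpi, ← hi, ln_snd] at h1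
      exact lt_irrefl _ h1
  unfold thr mu
  congr 1
  ext e
  rw [Finset.mem_filter, mem_thru, mem_Ed]
  constructor
  · rintro ⟨-, h1, h2⟩
    exact ⟨h1, seg_zero e p (openSegment_subset_segment _ _ _ h2)⟩
  · rintro ⟨h1, h2⟩
    refine ⟨Finset.mem_univ _, h1, ?_⟩
    exact mem_openSegment_of_ne_left_right (hne _).symm (hne _).symm
      (seg hn hv e (mem_Ed.2 h1) p h2 fun h hh => (hp h hh).le)
-- END thr_mu

-- BEGIN thr_hull
/-- F11. Two edges through `p`: neither of them is a side (`oseg_hull`, `seg_zero`), so `p ∈ Rg v` (`oseg_pos`). -/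
theorem thr_hull (hn : 3 ≤ n) (hv : Ccw v) (p : ℝ × ℝ) (hp : 2 ≤ thr v p) : p ∈ Rg v := by
  classical
  obtain ⟨e, he, e', he', hne⟩ := Finset.one_lt_card.1 (show 1 < thr v p from hp)
  rw [Finset.mem_filter] at he he'
  intro h hh
  by_cases h1 : h = e
  · exact oseg_pos hn hv e' (mem_Ed.2 he'.2.1) p he'.2.2 h hh (fun h2 => hne (h1.symm.trans h2))
  · exact oseg_pos hn hv e (mem_Ed.2 he.2.1) p he.2.2 h hh h1
-- END thr_hull

-- BEGIN multi_eq
open Classical in
/-- F12. `thr_mu`, `thr_hull`, `mem_Om`. -/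
theorem multi_eq (hn : 3 ≤ n) (hv : Ccw v) : multi v = (((Om v).filter (fun p => 3 ≤ mu v p) : Finset (ℝ × ℝ)) : Set (ℝ × ℝ)) := by
  classical
  ext p
  rw [Finset.mem_coe, Finset.mem_filter, mem_Om hn hv]
  constructor
  · intro (h : 3 ≤ thr v p)
    have h1 := thr_hull hn hv p (by omega)
    rw [thr_mu hn hv p h1] at h
    exact ⟨⟨h1, by omega⟩, h⟩
  · rintro ⟨⟨h1, h2⟩, h3⟩
    show 3 ≤ thr v p
    rw [thr_mu hn hv p h1]
    exact h3
-- END multi_eq

end Fiv
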